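import Pool.Agent.Lib_MP_92ef0c_spm.LsBox

/-!
# Parseval for sums over short intervals of directions
-/

set_option autoImplicit false

namespace Pool.Agent.SplM

open Pool.Agent.GaussMR (fr mem_fr)
open MeasureTheory

/-- weight of an interval of length `δ` at the frequency `r / N` -/
private noncomputable def arcSW (N : ℕ) (δ r : ℝ) : ℂ :=
  (1 / (2 * Real.pi * N) : ℝ) • ∫ u in (-δ)..0, Complex.exp (-(r / N * u : ℝ) * Complex.I)

/-- the sum over an interval -/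
private noncomputable def arcSS (F : ℕ × ℕ → ℂ) (C D δ τ : ℝ) : ℂ :=
  ∑ z ∈ Spl.PB C D, (if τ ≤ Spl.dirn z ∧ Spl.dirn z < τ + δ then F z else 0)

/-- the sum over an interval, twisted -/
private noncomputable def arcST (F : ℕ × ℕ → ℂ) (C D δ s : ℝ) (N : ℕ) (τ : ℝ) : ℂ :=
  Complex.exp ((s / N * τ : ℝ) * Complex.I) * arcSS F C D δ τ

/-- the coefficient -/
private noncomputable def arcSP (F : ℕ × ℕ → ℂ) (N : ℕ) (C D s : ℝ) (k : ℤ) : ℂ :=
  ∑ z ∈ Spl.PB C D, F z * ch (((k : ℝ) + s) / N) z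

private theorem arcS_set (δ d : ℝ) : {τ : ℝ | τ ≤ d ∧ d < τ + δ} = Set.Ioc (d - δ) d := by
  ext τ
  simp only [Set.mem_ofPred_eq, Set.mem_Ioc]
  constructor
  · rintro ⟨h1, h2⟩
    exact ⟨by linarith, h1⟩
  · rintro ⟨h1, h2⟩
    exact ⟨h2, by linarith⟩

private theorem arcS_meas (δ d : ℝ) : MeasurableSet {τ : ℝ | τ ≤ d ∧ d < τ + δ} := by
  rw [arcS_set]
  exact measurableSet_Ioc

/-- one term of the integral -/
private theorem arcS_one (N : ℕ) (a b δ d : ℝ) (hδ : 0 < δ) (had : a ≤ d - δ) (hdb : d ≤ b) (n : ℝ) :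
    ∫ τ in a..b, (if τ ≤ d ∧ d < τ + δ then Complex.exp (-(n / N * τ : ℝ) * Complex.I) else 0) =
      Complex.exp (-(n / N * d : ℝ) * Complex.I) *
        ∫ u in (-δ)..0, Complex.exp (-(n / N * u : ℝ) * Complex.I) := by
  have h2 : ∫ τ in a..b, (if τ ≤ d ∧ d < τ + δ then
      Complex.exp (-(n / N * τ : ℝ) * Complex.I) else 0) =
      ∫ τ in (d - δ)..d, Complex.exp (-(n / N * τ : ℝ) * Complex.I) := by
    rw [intervalIntegral.integral_of_le (by linarith), intervalIntegral.integral_of_le (by linarith)]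
    rw [← MeasureTheory.integral_indicator measurableSet_Ioc,
      ← MeasureTheory.integral_indicator measurableSet_Ioc]
    congr 1
    funext τ
    by_cases hτ2 : τ ∈ Set.Ioc (d - δ) d
    · have hτ : τ ∈ Set.Ioc a b := ⟨by linarith [hτ2.1], by linarith [hτ2.2]⟩
      rw [Set.indicator_of_mem hτ, Set.indicator_of_mem hτ2, if_pos ⟨hτ2.2, by linarith [hτ2.1]⟩]
    · rw [Set.indicator_of_notMem hτ2]
      have h3 : ¬ (τ ≤ d ∧ d < τ + δ) := fun h => hτ2 ⟨by linarith [h.2], h.1⟩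
      rw [Set.indicator_apply, if_neg h3, ite_self]
  rw [h2, ← intervalIntegral.integral_const_mul]
  have h3 : ∫ u in (-δ)..0, Complex.exp (-(n / N * d : ℝ) * Complex.I) *
      Complex.exp (-(n / N * u : ℝ) * Complex.I) =
      ∫ u in (-δ)..0, (fun τ : ℝ => Complex.exp (-(n / N * τ : ℝ) * Complex.I)) (u + d) := by
    congr 1
    funext u
    simp only
    rw [← Complex.exp_add]
    congr 1
    push_cast
    ring
  rw [h3, intervalIntegral.integral_comp_add_right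
    (fun τ : ℝ => Complex.exp (-(n / N * τ : ℝ) * Complex.I)) d]
  congr 1 <;> ring

private theorem arcSW_le (N : ℕ) (hN : 1 ≤ N) (δ : ℝ) (hδ : 0 < δ) (n : ℝ) :
    ‖arcSW N δ n‖ ≤ δ / (2 * Real.pi * N) := by
  have hpi := Real.pi_pos
  have hN0 : (0 : ℝ) < N := by exact_mod_cast hN
  unfold arcSW
  rw [norm_smul, Real.norm_eq_abs, abs_of_pos (by positivity)]
  have h1 : ‖∫ u in (-δ)..0, Complex.exp (-(n / N * u : ℝ) * Complex.I)‖ ≤ 1 * |0 - (-δ)| := by
    apply intervalIntegral.norm_integral_le_of_norm_le_const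
    intro u _
    rw [← Complex.ofReal_neg, Complex.norm_exp_ofReal_mul_I]
  rw [zero_sub, neg_neg, abs_of_pos hδ, one_mul] at h1
  calc 1 / (2 * Real.pi * N) * ‖∫ u in (-δ)..0, Complex.exp (-(n / N * u : ℝ) * Complex.I)‖ ≤
      1 / (2 * Real.pi * N) * δ := mul_le_mul_of_nonneg_left h1 (by positivity)
    _ = δ / (2 * Real.pi * N) := by ring

private theorem arcSW_le' (N : ℕ) (hN : 1 ≤ N) (δ : ℝ) (n : ℝ) (hn : n ≠ 0) :
    ‖arcSW N δ n‖ ≤ 1 / (Real.pi * |n|) := by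
  have hpi := Real.pi_pos
  have hN0 : (0 : ℝ) < N := by exact_mod_cast hN
  have hn' : (0 : ℝ) < |n| := abs_pos.mpr hn
  unfold arcSW
  rw [norm_smul, Real.norm_eq_abs, abs_of_pos (by positivity)]
  set c : ℂ := -((n / N : ℝ) : ℂ) * Complex.I with hcdef
  have hnN : n / N ≠ 0 := div_ne_zero hn hN0.ne'
  have hc : c ≠ 0 := by
    rw [hcdef]
    apply mul_ne_zero
    · rw [neg_ne_zero]
      exact_mod_cast hnN
    · exact Complex.I_ne_zero
  have h1 : ∫ u in (-δ)..0, Complex.exp (-(n / N * u : ℝ) * Complex.I) =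
      (Complex.exp (c * (0 : ℝ)) - Complex.exp (c * (-δ : ℝ))) / c := by
    rw [← integral_exp_mul_complex hc]
    congr 1
    funext u
    congr 1
    rw [hcdef]
    push_cast
    ring
  rw [h1, norm_div]
  have h2 : ‖c‖ = |n| / N := by
    rw [hcdef, norm_mul, Complex.norm_I, mul_one, norm_neg, Complex.norm_real, Real.norm_eq_abs, abs_div,
      abs_of_pos hN0]
  rw [h2]
  have h3 : ‖Complex.exp (c * (0 : ℝ)) - Complex.exp (c * (-δ : ℝ))‖ ≤ 2 := by
    refine (norm_sub_le _ _).trans ?_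
    have e1 : c * ((-δ : ℝ) : ℂ) = ((n / N * δ : ℝ) : ℂ) * Complex.I := by
      rw [hcdef]
      push_cast
      ring
    rw [e1, Complex.norm_exp_ofReal_mul_I]
    simp
    norm_num
  calc 1 / (2 * Real.pi * N) * (‖Complex.exp (c * (0 : ℝ)) - Complex.exp (c * (-δ : ℝ))‖ /
        (|n| / N)) ≤ 1 / (2 * Real.pi * N) * (2 / (|n| / N)) := by gcongr
    _ = 1 / (Real.pi * |n|) := by field_simp

/-- Fourier coefficients of the sum over an interval -/
private theorem arcS_coeff (F : ℕ × ℕ → ℂ) (C D δ s a b : ℝ) (N : ℕ) (hN : 1 ≤ N) (hδ : 0 < δ)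
    (hab : a < b) (hb : b - a = 2 * Real.pi * N)
    (h1 : ∀ z ∈ Spl.PB C D, a ≤ Spl.dirn z - δ) (h2 : ∀ z ∈ Spl.PB C D, Spl.dirn z ≤ b) (n : ℤ) :
    fourierCoeffOn hab (arcST F C D δ s N) n = arcSW N δ (n - s) * arcSP F N C D s (-n) := by
  have hpi := Real.pi_pos
  have hN0 : (0 : ℝ) < N := by exact_mod_cast hN
  set r : ℝ := n - s with hr
  rw [fourierCoeffOn_eq_integral]
  have h3 : ∫ x in a..b, fourier (-n) (x : AddCircle (b - a)) • arcST F C D δ s N x =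
      ∑ z ∈ Spl.PB C D, F z * (Complex.exp (- (r / N * Spl.dirn z : ℝ) * Complex.I) *
        ∫ u in (-δ)..0, Complex.exp (- (r / N * u : ℝ) * Complex.I)) := by
    have e1 : ∀ x : ℝ, fourier (-n) (x : AddCircle (b - a)) • arcST F C D δ s N x =
        ∑ z ∈ Spl.PB C D, F z * (if x ≤ Spl.dirn z ∧ Spl.dirn z < x + δ then
          Complex.exp (- (r / N * x : ℝ) * Complex.I) else 0) := by
      intro x
      rw [fourier_coe_apply, arcST, arcSS, smul_eq_mul, ← mul_assoc, Finset.mul_sum]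
      refine Finset.sum_congr rfl fun z _ => ?_
      have e2 : Complex.exp (2 * Real.pi * Complex.I * ((-n : ℤ) : ℂ) * (x : ℂ) / ((b - a : ℝ) : ℂ)) *
          Complex.exp ((s / N * x : ℝ) * Complex.I) = Complex.exp (-(r / N * x : ℝ) * Complex.I) := by
        rw [← Complex.exp_add]
        congr 1
        rw [hb, hr]
        push_cast
        have : (Real.pi : ℂ) ≠ 0 := by exact_mod_cast Real.pi_ne_zero
        have : (N : ℂ) ≠ 0 := by exact_mod_cast hN0.ne'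
        field_simp
        ring
      rw [e2]
      split_ifs
      · ring
      · ring
    simp only [e1]
    rw [intervalIntegral.integral_finsetSum]
    · refine Finset.sum_congr rfl fun z hz => ?_
      rw [intervalIntegral.integral_const_mul, arcS_one N a b δ (Spl.dirn z) hδ (h1 z hz) (h2 z hz) r]
    · intro z _
      apply IntervalIntegrable.const_mul
      have hcont : Continuous fun x : ℝ => Complex.exp (- (r / N * x : ℝ) * Complex.I) := by fun_prop
      have hii : IntervalIntegrable (fun x : ℝ => Complex.exp (- (r / N * x : ℝ) * Complex.I))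
          volume a b := hcont.intervalIntegrable _ _
      have : (fun x : ℝ => if x ≤ Spl.dirn z ∧ Spl.dirn z < x + δ then
          Complex.exp (- (r / N * x : ℝ) * Complex.I) else 0) =
          Set.indicator {x : ℝ | x ≤ Spl.dirn z ∧ Spl.dirn z < x + δ}
            (fun x : ℝ => Complex.exp (- (r / N * x : ℝ) * Complex.I)) := by
        funext x
        rw [Set.indicator_apply]
        rfl
      rw [this, intervalIntegrable_iff]
      rw [intervalIntegrable_iff] at hii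
      exact hii.indicator (arcS_meas δ (Spl.dirn z))
  rw [h3, arcSW, arcSP, Finset.mul_sum, Finset.smul_sum]
  refine Finset.sum_congr rfl fun z hz => ?_
  have e3 : ch ((((-n : ℤ) : ℝ) + s) / N) z = Complex.exp (-(r / N * Spl.dirn z : ℝ) * Complex.I) := by
    unfold ch
    rw [hr]
    congr 1
    push_cast
    ring
  rw [e3, hb]
  simp only [Complex.real_smul]
  ring

private theorem arcS_norm (F : ℕ × ℕ → ℂ) (C D δ s : ℝ) (N : ℕ) (τ : ℝ) :
    ‖arcST F C D δ s N τ‖ = ‖arcSS F C D δ τ‖ := by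
  unfold arcST
  rw [norm_mul, Complex.norm_exp_ofReal_mul_I, one_mul]

private theorem arcS_memLp (F : ℕ × ℕ → ℂ) (C D δ s : ℝ) (N : ℕ) (a b : ℝ) :
    MemLp (arcST F C D δ s N) 2 (volume.restrict (Set.Ioc a b)) := by
  have h1 : Measurable (arcSS F C D δ) := by
    unfold arcSS
    apply Finset.measurable_fun_sum
    intro z _
    exact Measurable.ite (arcS_meas δ (Spl.dirn z)) measurable_const measurable_const
  have h2 : Measurable (arcST F C D δ s N) := by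
    unfold arcST
    apply Measurable.mul _ h1
    have : Continuous fun τ : ℝ => Complex.exp ((s / N * τ : ℝ) * Complex.I) := by fun_prop
    exact this.measurable
  refine MemLp.of_bound h2.aestronglyMeasurable (∑ z ∈ Spl.PB C D, ‖F z‖)
    (Filter.Eventually.of_forall fun θ => ?_)
  rw [arcS_norm]
  unfold arcSS
  refine (norm_sum_le _ _).trans (Finset.sum_le_sum fun z _ => ?_)
  split_ifs
  · exact le_rfl
  · rw [norm_zero]
    exact norm_nonneg _

/-- Parseval -/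
private theorem arcS_parseval (F : ℕ × ℕ → ℂ) (C D δ s a b : ℝ) (N : ℕ) (hN : 1 ≤ N) (hδ : 0 < δ)
    (hab : a < b) (hb : b - a = 2 * Real.pi * N)
    (h1 : ∀ z ∈ Spl.PB C D, a ≤ Spl.dirn z - δ) (h2 : ∀ z ∈ Spl.PB C D, Spl.dirn z ≤ b) :
    HasSum (fun n : ℤ => ‖arcSW N δ (n - s) * arcSP F N C D s (-n)‖ ^ 2)
      ((2 * Real.pi * N)⁻¹ * ∫ τ in a..b, ‖arcSS F C D δ τ‖ ^ 2) := by
  have h := hasSum_sq_fourierCoeffOn hab (arcS_memLp F C D δ s N a b)
  simp only [arcS_coeff F C D δ s a b N hN hδ hab hb h1 h2, hb, smul_eq_mul, arcS_norm] at h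
  exact h

private theorem arcS_fr_neg (M : ℕ) (g : ℤ → ℝ) : ∑ k ∈ fr M, g (-k) = ∑ k ∈ fr M, g k := by
  refine Finset.sum_nbij' (fun k => -k) (fun k => -k) ?_ ?_ ?_ ?_ ?_
  · intro k hk
    rw [mem_fr] at hk ⊢
    omega
  · intro k hk
    rw [mem_fr] at hk ⊢
    omega
  · intro k _
    exact neg_neg k
  · intro k _
    exact neg_neg k
  · intro k _
    rfl

/-- one dyadic annulus -/
private theorem arcS_annulus {A : ℝ} (hA : 0 < A) (g : ℤ → ℂ) (N : ℕ) (hN : 1 ≤ N) (X δ s : ℝ) (hs : |s| ≤ 1) (T : ℕ)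
    (hg : ∀ M : ℕ, ∑ k ∈ fr M, ‖g k‖ ^ 2 ≤ A * (M + N * X) * X)
    (hX : 1 ≤ X) (hT : 1 ≤ T) (j : ℕ) :
    ∑ k ∈ fr (2 ^ (j + 1) * T) \ fr (2 ^ j * T), ‖arcSW N δ (k - s) * g k‖ ^ 2 ≤
      A * (2 * (1 / 2) ^ j * (X / T) + (1 / 2) ^ j * (N * X ^ 2 / T ^ 2)) := by
  have hpi := Real.pi_gt_three
  have hT0 : (0 : ℝ) < T := by exact_mod_cast hT
  have hN0 : (0 : ℝ) < N := by exact_mod_cast hN
  have hT2 : (0 : ℝ) < 2 ^ j * T := by positivity
  have h1 : ∀ k ∈ fr (2 ^ (j + 1) * T) \ fr (2 ^ j * T), ‖arcSW N δ (k - s) * g k‖ ^ 2 ≤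
      (1 / (2 ^ j * T) ^ 2) * ‖g k‖ ^ 2 := by
    intro k hk
    have hk2 : k ∉ fr (2 ^ j * T) := (Finset.mem_sdiff.mp hk).2
    rw [mem_fr] at hk2
    have hk3 : ((2 : ℝ) ^ j * T) ≤ |(k : ℝ)| := by
      by_contra hc
      push Not at hc
      apply hk2
      have h2 := abs_lt.mp hc
      constructor
      · have h3 : (-((2 ^ j * T : ℕ) : ℤ) : ℝ) < (k : ℝ) := by push_cast; linarith [h2.1]
        exact_mod_cast h3.le
      · have h3 : (k : ℝ) < ((2 ^ j * T : ℕ) : ℝ) := by push_cast; linarith [h2.2]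
        exact_mod_cast h3.le
    have hk4 : (2 : ℝ) ≤ |(k : ℝ)| := by
      have h6 : 1 * 1 ≤ 2 ^ j * T := Nat.mul_le_mul Nat.one_le_two_pow hT
      have h7 : (2 : ℤ) ≤ |k| := by
        by_contra hc
        push Not at hc
        apply hk2
        have h8 := abs_lt.mp hc
        have h9 : (1 : ℤ) ≤ ((2 ^ j * T : ℕ) : ℤ) := by exact_mod_cast h6
        constructor <;> omega
      exact_mod_cast h7
    have hk5 : |(k : ℝ)| / 2 ≤ |(k : ℝ) - s| := by
      have := abs_sub_abs_le_abs_sub (k : ℝ) s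
      linarith
    have hk0 : (k : ℝ) - s ≠ 0 := by
      intro h0
      rw [h0, abs_zero] at hk5
      linarith
    have h4 := arcSW_le' N hN δ ((k : ℝ) - s) hk0
    rw [norm_mul, mul_pow]
    apply mul_le_mul_of_nonneg_right _ (sq_nonneg _)
    have h5 : ‖arcSW N δ (k - s)‖ ≤ 1 / (2 ^ j * T) := by
      refine h4.trans ?_
      apply one_div_le_one_div_of_le hT2
      calc (2 : ℝ) ^ j * T ≤ |(k : ℝ)| := hk3
        _ ≤ 2 * |(k : ℝ) - s| := by linarith
        _ ≤ Real.pi * |(k : ℝ) - s| := mul_le_mul_of_nonneg_right (by linarith) (abs_nonneg _)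
    calc ‖arcSW N δ (k - s)‖ ^ 2 ≤ (1 / (2 ^ j * T)) ^ 2 := pow_le_pow_left₀ (norm_nonneg _) h5 2
      _ = 1 / (2 ^ j * T) ^ 2 := by rw [div_pow, one_pow]
  refine (Finset.sum_le_sum h1).trans ?_
  rw [← Finset.mul_sum]
  have h2 : ∑ k ∈ fr (2 ^ (j + 1) * T) \ fr (2 ^ j * T), ‖g k‖ ^ 2 ≤
      A * ((2 ^ (j + 1) * T : ℕ) + N * X) * X :=
    (Finset.sum_le_sum_of_subset_of_nonneg Finset.sdiff_subset (fun _ _ _ => by positivity)).trans
      (hg _)
  have hX0 : 0 < X := by linarith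
  calc 1 / (2 ^ j * T : ℝ) ^ 2 * ∑ k ∈ fr (2 ^ (j + 1) * T) \ fr (2 ^ j * T), ‖g k‖ ^ 2 ≤
      1 / (2 ^ j * T : ℝ) ^ 2 * (A * ((2 ^ (j + 1) * T : ℕ) + N * X) * X) :=
        mul_le_mul_of_nonneg_left h2 (by positivity)
    _ = A * (2 * (1 / 2 ^ j) * (X / T) + (1 / 2 ^ j) * (1 / 2 ^ j) * (N * X ^ 2 / T ^ 2)) := by
        push_cast
        field_simp
        ring
    _ ≤ A * (2 * (1 / 2) ^ j * (X / T) + (1 / 2) ^ j * (N * X ^ 2 / T ^ 2)) := by
        rw [one_div_pow]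
        apply mul_le_mul_of_nonneg_left _ hA.le
        apply add_le_add le_rfl
        apply mul_le_mul_of_nonneg_right _ (by positivity)
        have : (1 : ℝ) / 2 ^ j ≤ 1 := by
          rw [div_le_one (by positivity)]
          exact one_le_pow₀ (by norm_num)
        calc (1 : ℝ) / 2 ^ j * (1 / 2 ^ j) ≤ 1 / 2 ^ j * 1 :=
              mul_le_mul_of_nonneg_left this (by positivity)
          _ = 1 / 2 ^ j := mul_one _

private theorem arcS_geo {A : ℝ} (hA : 0 < A) (u v : ℝ) (hu : 0 ≤ u) (hv : 0 ≤ v) (J : ℕ) :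
    ∑ j ∈ Finset.range J, A * (2 * (1 / 2) ^ j * u + (1 / 2) ^ j * v) ≤ 4 * A * (u + v) := by
  have h1 : ∑ j ∈ Finset.range J, ((1 : ℝ) / 2) ^ j ≤ 2 := by
    have := geom_sum_eq (show (1 / 2 : ℝ) ≠ 1 by norm_num) J
    rw [this]
    have h2 : (0 : ℝ) ≤ (1 / 2) ^ J := by positivity
    have h3 : ((1 / 2 : ℝ) ^ J - 1) / (1 / 2 - 1) = 2 * (1 - (1 / 2) ^ J) := by
      field_simp
      ring
    rw [h3]
    linarith
  have h2 : ∑ j ∈ Finset.range J, A * (2 * (1 / 2) ^ j * u + (1 / 2) ^ j * v) =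
      A * (2 * u + v) * ∑ j ∈ Finset.range J, ((1 : ℝ) / 2) ^ j := by
    rw [Finset.mul_sum]
    refine Finset.sum_congr rfl fun j _ => ?_
    ring
  rw [h2]
  have h3 : 0 ≤ A * (2 * u + v) := by positivity
  have h4 : 0 ≤ A * v := by positivity
  calc A * (2 * u + v) * ∑ j ∈ Finset.range J, ((1 : ℝ) / 2) ^ j ≤
      A * (2 * u + v) * 2 := mul_le_mul_of_nonneg_left h1 h3
    _ ≤ 4 * A * (u + v) := by linarith

private theorem arcS_dirn {C D X : ℝ} (hC : 0 ≤ C) (hCD : C * D ≤ X) {z : ℕ × ℕ} (hz : z ∈ Spl.PB C D) :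
    -Real.log X ≤ Spl.dirn z ∧ Spl.dirn z ≤ Real.log X := by
  obtain ⟨⟨h1, h2⟩, ⟨h3, h4⟩, _⟩ := Spl.mem_PB.1 hz
  have hx : (1 : ℝ) ≤ z.1 := by exact_mod_cast h1
  have hy : (1 : ℝ) ≤ z.2 := by exact_mod_cast h3
  have hx0 : (0 : ℝ) < z.1 := by linarith
  have hy0 : (0 : ℝ) < z.2 := by linarith
  have hxy : (z.1 : ℝ) * z.2 ≤ X := (mul_le_mul h2 h4 hy0.le hC).trans hCD
  have hlog : Real.log z.1 + Real.log z.2 ≤ Real.log X := by
    rw [← Real.log_mul hx0.ne' hy0.ne']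
    exact Real.log_le_log (by positivity) hxy
  have hlx := Real.log_nonneg hx
  have hly := Real.log_nonneg hy
  unfold Spl.dirn
  constructor <;> linarith

/-- Cf. `marc` (Lib_MP_f1a94e_ecm/Marc.lean). Let `a = - log X - δ`, `b = a + 2 π N`. The function
`S τ = ∑_z F z 1[τ ≤ dirn z < τ + δ] = ∑_z F z 1[dirn z - δ < τ ≤ dirn z]` vanishes outside `(a, b]`, because
`- log X ≤ dirn z ≤ log X` (`1 ≤ x, y` and `x y ≤ X` for `(x, y) ∈ PB C D`) and `2 log X + δ ≤ 4 N ≤ 2 π N`. Apply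
`hasSum_sq_fourierCoeffOn` on `(a, b]` to `S τ e^(i s τ / N)` (same absolute value): the coefficient at `-n` is
`(1 / (2 π N)) ∑_z F z ∫_{dirn z - δ}^{dirn z} e^(i (n + s) τ / N) dτ =
(1 / (2 π N)) (∑_z F z ch ((n + s) / N) z) ∫_{-δ}^0 e^(i (n + s) u / N) du`, the last integral is at most `δ` and at
most `2 N / |n + s| ≤ 4 N / |n|` for `|n| ≥ 2`. So with `P n = ∑_z F z ch ((n + s) / N) z`
`∫ ‖S‖² ≤ (1 / (2 π N)) (δ² ∑_{|n| ≤ T} ‖P n‖² + ∑_{|n| > T} (4 N / n)² ‖P n‖²)`; dyadic annuli and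
`lsB` (`∑_{|n| ≤ M} ‖P n‖² ≤ A (M + N X) X`, coefficients `F z ch (s / N) z`, `card_PB_le`) bound the second sum by a
constant times `N² X / T + N³ X² / T² ≤ 2 N³ X² / T²` (`T ≤ N X`). -/
theorem arcS : ∃ A : ℝ, 0 < A ∧ ∀ (F : ℕ × ℕ → ℂ), (∀ z, ‖F z‖ ≤ 1) → ∀ (C D X δ s : ℝ) (N T : ℕ),
    1 ≤ X → 0 ≤ C → 0 ≤ D → C * D ≤ X → Real.log X + δ ≤ 2 * N → 1 ≤ N → 0 < δ → |s| ≤ 1 → 1 ≤ T →
    (T : ℝ) ≤ N * X →
    ∫ τ, ‖∑ z ∈ (Spl.PB C D).filter (fun z => τ ≤ Spl.dirn z ∧ Spl.dirn z < τ + δ), F z‖ ^ 2 ≤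
      δ ^ 2 / N * ∑ k ∈ fr T, ‖∑ z ∈ Spl.PB C D, F z * ch (((k : ℝ) + s) / N) z‖ ^ 2 +
        A * (N * X / T) ^ 2 := by
  obtain ⟨A, hA, hls⟩ := lsB
  refine ⟨2 * Real.pi * (8 * A), by positivity, ?_⟩
  intro F hF C D X δ s N T hX hC hD hCD hlogN hN hδ hs hT hTNX
  have hpi := Real.pi_gt_three
  have hX0 : 0 < X := by linarith
  have hT0 : (0 : ℝ) < T := by exact_mod_cast hT
  have hN0 : (0 : ℝ) < N := by exact_mod_cast hN
  have hN1 : (1 : ℝ) ≤ N := by exact_mod_cast hN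
  have hlogX : 0 ≤ Real.log X := Real.log_nonneg hX
  set a : ℝ := -Real.log X - δ with ha
  set b : ℝ := a + 2 * Real.pi * N with hbdef
  have hb : b - a = 2 * Real.pi * N := by rw [hbdef]; ring
  have h6N : 6 * (N : ℝ) ≤ 2 * Real.pi * N := by nlinarith
  have hab : a < b := by rw [hbdef]; linarith
  have hd1 : ∀ z ∈ Spl.PB C D, a ≤ Spl.dirn z - δ := by
    intro z hz
    have := (arcS_dirn hC hCD hz).1
    rw [ha]
    linarith
  have hd2 : ∀ z ∈ Spl.PB C D, Spl.dirn z ≤ b := by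
    intro z hz
    have := (arcS_dirn hC hCD hz).2
    rw [hbdef, ha]
    linarith
  -- the integral
  have hS : ∀ τ : ℝ, ∑ z ∈ (Spl.PB C D).filter (fun z => τ ≤ Spl.dirn z ∧ Spl.dirn z < τ + δ), F z =
      arcSS F C D δ τ := by
    intro τ
    unfold arcSS
    rw [Finset.sum_filter]
  have hint : ∫ τ, ‖∑ z ∈ (Spl.PB C D).filter (fun z => τ ≤ Spl.dirn z ∧ Spl.dirn z < τ + δ), F z‖ ^ 2 =
      ∫ τ in a..b, ‖arcSS F C D δ τ‖ ^ 2 := by
    simp only [hS]
    rw [intervalIntegral.integral_of_le hab.le]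
    symm
    apply MeasureTheory.setIntegral_eq_integral_of_forall_compl_eq_zero
    intro τ hτ
    have h0 : arcSS F C D δ τ = 0 := by
      unfold arcSS
      refine Finset.sum_eq_zero fun z hz => ?_
      rw [if_neg]
      rintro ⟨g1, g2⟩
      exact hτ ⟨by linarith [hd1 z hz], by linarith [hd2 z hz]⟩
    rw [h0, norm_zero]
    norm_num
  rw [hint]
  have hP := arcS_parseval F C D δ s a b N hN hδ hab hb hd1 hd2
  -- the large sieve
  have hcard : ∑ z ∈ Spl.PB C D, ‖F z * ch (s / N) z‖ ^ 2 ≤ X := by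
    calc ∑ z ∈ Spl.PB C D, ‖F z * ch (s / N) z‖ ^ 2 ≤ ∑ _z ∈ Spl.PB C D, (1 : ℝ) :=
          Finset.sum_le_sum fun z _ => by
            rw [norm_mul, norm_ch, mul_one]
            exact pow_le_one₀ (norm_nonneg _) (hF z)
      _ = ((Spl.PB C D).card : ℝ) := by simp
      _ ≤ C * D := card_PB_le C D hC hD
      _ ≤ X := hCD
  have hg : ∀ M : ℕ, ∑ k ∈ fr M, ‖arcSP F N C D s (-k)‖ ^ 2 ≤ A * (M + N * X) * X := by
    intro M
    rw [arcS_fr_neg M (fun k => ‖arcSP F N C D s k‖ ^ 2)]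
    have h1 : ∀ k : ℤ, arcSP F N C D s k = ∑ z ∈ Spl.PB C D, (F z * ch (s / N) z) * ch ((k : ℝ) / N) z := by
      intro k
      unfold arcSP
      refine Finset.sum_congr rfl fun z _ => ?_
      rw [mul_assoc]
      congr 1
      unfold ch
      rw [← Complex.exp_add]
      congr 1
      push_cast
      ring
    simp only [h1]
    refine (hls N C D X M (fun z => F z * ch (s / N) z) hN hX hCD (by linarith)).trans ?_
    exact mul_le_mul_of_nonneg_left hcard (by positivity)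
  set B : ℝ := (δ / (2 * Real.pi * N)) ^ 2 * ∑ k ∈ fr T, ‖arcSP F N C D s k‖ ^ 2 +
    4 * A * (X / T + N * X ^ 2 / T ^ 2) with hB
  have hfr : ∀ J : ℕ, ∑ k ∈ fr (2 ^ J * T), ‖arcSW N δ (k - s) * arcSP F N C D s (-k)‖ ^ 2 ≤
      (δ / (2 * Real.pi * N)) ^ 2 * ∑ k ∈ fr T, ‖arcSP F N C D s k‖ ^ 2 +
        ∑ j ∈ Finset.range J, A * (2 * (1 / 2) ^ j * (X / T) + (1 / 2) ^ j * (N * X ^ 2 / T ^ 2)) := by
    intro J
    induction J with
    | zero =>
      rw [pow_zero, one_mul, Finset.range_zero, Finset.sum_empty, add_zero,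
        ← arcS_fr_neg T (fun k => ‖arcSP F N C D s k‖ ^ 2), Finset.mul_sum]
      refine Finset.sum_le_sum fun k _ => ?_
      rw [norm_mul, mul_pow]
      exact mul_le_mul_of_nonneg_right (pow_le_pow_left₀ (norm_nonneg _) (arcSW_le N hN δ hδ _) 2)
        (sq_nonneg _)
    | succ J ih =>
      have hsub : fr (2 ^ J * T) ⊆ fr (2 ^ (J + 1) * T) := by
        intro k hk
        rw [mem_fr] at hk ⊢
        have h1 : ((2 ^ J * T : ℕ) : ℤ) ≤ ((2 ^ (J + 1) * T : ℕ) : ℤ) := by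
          have : 2 ^ J * T ≤ 2 ^ (J + 1) * T :=
            Nat.mul_le_mul_right _ (Nat.pow_le_pow_right (by norm_num) (by omega))
          exact_mod_cast this
        omega
      rw [← Finset.sum_sdiff hsub, Finset.sum_range_succ]
      have := arcS_annulus hA (fun k => arcSP F N C D s (-k)) N hN X δ s hs T hg hX hT J
      linarith
  have hle : (2 * Real.pi * N)⁻¹ * ∫ τ in a..b, ‖arcSS F C D δ τ‖ ^ 2 ≤ B := by
    refine hasSum_le_of_sum_le hP fun t => ?_
    obtain ⟨J, hJ⟩ : ∃ J : ℕ, t ⊆ fr (2 ^ J * T) := by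
      obtain ⟨J, hJ⟩ : ∃ J : ℕ, ∀ k ∈ t, |k| ≤ J := by
        refine ⟨∑ k ∈ t, k.natAbs, fun k hk => ?_⟩
        have h1 := Finset.single_le_sum (f := fun k : ℤ => k.natAbs) (fun _ _ => Nat.zero_le _) hk
        rw [Int.abs_eq_natAbs]
        exact_mod_cast h1
      refine ⟨J, fun k hk => ?_⟩
      have h1 := abs_le.mp (hJ k hk)
      have h2 : (J : ℤ) ≤ ((2 ^ J * T : ℕ) : ℤ) := by
        have h3 : J < 2 ^ J := Nat.lt_two_pow_self
        have h4 : 2 ^ J * 1 ≤ 2 ^ J * T := Nat.mul_le_mul_left _ hT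
        have : J ≤ 2 ^ J * T := by omega
        exact_mod_cast this
      rw [mem_fr]
      omega
    refine (Finset.sum_le_sum_of_subset_of_nonneg hJ (fun _ _ _ => by positivity)).trans ?_
    have hgeo := arcS_geo hA (X / T) (N * X ^ 2 / T ^ 2) (by positivity) (by positivity) J
    exact (hfr J).trans (by rw [hB]; linarith)
  rw [inv_mul_le_iff₀ (by positivity)] at hle
  refine hle.trans ?_
  rw [hB, mul_add]
  have hP0 : 0 ≤ ∑ k ∈ fr T, ‖arcSP F N C D s k‖ ^ 2 := Finset.sum_nonneg fun _ _ => by positivity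
  have h1 : 2 * Real.pi * N * ((δ / (2 * Real.pi * N)) ^ 2 * ∑ k ∈ fr T, ‖arcSP F N C D s k‖ ^ 2) ≤
      δ ^ 2 / N * ∑ k ∈ fr T, ‖arcSP F N C D s k‖ ^ 2 := by
    rw [← mul_assoc]
    apply mul_le_mul_of_nonneg_right _ hP0
    have h2 : 2 * Real.pi * N * (δ / (2 * Real.pi * N)) ^ 2 = (δ ^ 2 / N) * (1 / (2 * Real.pi)) := by
      field_simp
    rw [h2]
    apply mul_le_of_le_one_right (by positivity)
    rw [div_le_one (by positivity)]
    linarith
  have h3 : 2 * Real.pi * N * (4 * A * (X / T + N * X ^ 2 / T ^ 2)) ≤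
      2 * Real.pi * (8 * A) * (N * X / T) ^ 2 := by
    have h4 : (1 : ℝ) ≤ N * X / T := by
      rw [le_div_iff₀ hT0]
      linarith
    have h5 : N * X / T ≤ (N * X / T) ^ 2 := by
      rw [sq]
      exact le_mul_of_one_le_left (by positivity) h4
    have h6 : N * (X / T + N * X ^ 2 / T ^ 2) = N * X / T + (N * X / T) ^ 2 := by
      field_simp
    calc 2 * Real.pi * N * (4 * A * (X / T + N * X ^ 2 / T ^ 2)) =
        2 * Real.pi * (4 * A) * (N * (X / T + N * X ^ 2 / T ^ 2)) := by ring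
      _ = 2 * Real.pi * (4 * A) * (N * X / T + (N * X / T) ^ 2) := by rw [h6]
      _ ≤ 2 * Real.pi * (4 * A) * ((N * X / T) ^ 2 + (N * X / T) ^ 2) :=
          mul_le_mul_of_nonneg_left (by linarith) (by positivity)
      _ = 2 * Real.pi * (8 * A) * (N * X / T) ^ 2 := by ring
  exact add_le_add h1 h3

end Pool.Agent.SplM
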