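import Pool.Agent.Lib_MP_f1a94e_mu.PairsX

/-!
# sums of greatest common divisors of products of primes of a block
-/

set_option autoImplicit false

namespace Pool.Agent.SplM

open Pool.Agent.GaussMR (pxC pxC_nonneg pxC_le)

private theorem pg_sum_insert {m : ℕ} (W : Finset ℕ) (j : Fin (m + 1)) (f : (Fin (m + 1) → ℕ) → ℝ) :
    ∑ y ∈ Fintype.piFinset (fun _ : Fin (m + 1) => W), f y =
      ∑ a ∈ W, ∑ y ∈ Fintype.piFinset (fun _ : Fin m => W), f (Fin.insertNth j a y) := by
  rw [← Finset.sum_product']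
  symm
  refine Finset.sum_bij' (fun p _ => (Fin.insertNth j p.1 p.2 : Fin (m + 1) → ℕ))
    (fun y _ => (y j, fun i => y (j.succAbove i))) ?_ ?_ ?_ ?_ ?_
  · rintro ⟨a, y⟩ hp
    rw [Finset.mem_product] at hp
    rw [Fintype.mem_piFinset]
    intro i
    have h2 := Fintype.mem_piFinset.1 hp.2
    refine Fin.succAboveCases j ?_ (fun i => ?_) i
    · rw [Fin.insertNth_apply_same]
      exact hp.1
    · rw [Fin.insertNth_apply_succAbove]
      exact h2 i
  · intro y hy
    rw [Fintype.mem_piFinset] at hy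
    rw [Finset.mem_product]
    refine ⟨hy j, ?_⟩
    rw [Fintype.mem_piFinset]
    intro i
    exact hy _
  · rintro ⟨a, y⟩ _
    refine Prod.ext ?_ ?_
    · show (Fin.insertNth j a y : Fin (m + 1) → ℕ) j = a
      simp
    · funext i
      show (Fin.insertNth j a y : Fin (m + 1) → ℕ) (j.succAbove i) = y i
      simp
  · intro y _
    exact Fin.insertNth_self_removeNth j y
  · rintro ⟨a, y⟩ _
    rfl

private theorem pg_prod_insert {m : ℕ} (j : Fin (m + 1)) (a : ℕ) (y : Fin m → ℕ) :
    ∏ i, (Fin.insertNth j a y : Fin (m + 1) → ℕ) i = a * ∏ i, y i := by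
  rw [Fin.prod_univ_succAbove _ j]
  simp

private theorem pg_card {Y : ℝ} {W : Finset ℕ} (hW : ∀ p ∈ W, p.Prime) (hY : 1 ≤ Y)
    (h : ∀ p ∈ W, (p : ℝ) ≤ 3 * Y) : (W.card : ℝ) ≤ 3 * Y := by
  have h3 : W ⊆ Finset.Icc 1 ⌊3 * Y⌋₊ := by
    intro n hn
    rw [Finset.mem_Icc]
    exact ⟨(hW n hn).one_lt.le, Nat.le_floor (h n hn)⟩
  have h4 := Finset.card_le_card h3
  rw [Nat.card_Icc, Nat.add_sub_cancel] at h4
  calc (W.card : ℝ) ≤ ((⌊3 * Y⌋₊ : ℕ) : ℝ) := by exact_mod_cast h4
    _ ≤ 3 * Y := Nat.floor_le (by linarith)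

/-- Copy of `px_main` (Lib_MP_f1a94e_mu/PairsX.lean) for natural numbers: induction on `l`, `gcd (x_0 A) B` is
`gcd A B` if `x_0` does not divide `B`, and if `x_0 = y_j` then it is at most `x_0 gcd A (B / y_j)`. -/
theorem px_mainN (l : ℕ) : ∀ (m : ℕ) (Y : ℝ) (W : Finset ℕ), (∀ p ∈ W, p.Prime) →
    1 ≤ Y → (∀ p ∈ W, (p : ℝ) ≤ 3 * Y) →
    ∑ x ∈ Fintype.piFinset (fun _ : Fin l => W), ∑ y ∈ Fintype.piFinset (fun _ : Fin m => W),
      ((Nat.gcd (∏ i, x i) (∏ i, y i) : ℕ) : ℝ) ≤ pxC l m * Y ^ (l + m) := by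
  induction l with
  | zero =>
    intro m
    intro Y W hW hY h
    simp only [pxC]
    have hc := pg_card hW hY h
    have h1 : ∀ x ∈ Fintype.piFinset (fun _ : Fin 0 => W),
        ∑ y ∈ Fintype.piFinset (fun _ : Fin m => W),
          ((Nat.gcd (∏ i, x i) (∏ i, y i) : ℕ) : ℝ) = (W.card : ℝ) ^ m := by
      intro x _
      have h2 : ∀ y ∈ Fintype.piFinset (fun _ : Fin m => W),
          ((Nat.gcd (∏ i, x i) (∏ i, y i) : ℕ) : ℝ) = 1 := by
        intro y _
        have h3 : ∏ i, x i = 1 := by simp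
        rw [h3, Nat.gcd_one_left]
        simp
      rw [Finset.sum_congr rfl h2]
      simp
    rw [Finset.sum_congr rfl h1]
    have h5 : (Fintype.piFinset (fun _ : Fin 0 => W)).card = 1 := by simp
    rw [Finset.sum_const, h5, one_smul, Nat.zero_add, ← mul_pow]
    exact pow_le_pow_left₀ (by positivity) hc m
  | succ l ih =>
    intro m
    rcases Nat.eq_zero_or_pos m with hm | hm
    · subst hm
      intro Y W hW hY h
      simp only [pxC]
      have hc := pg_card hW hY h
      have h1 : ∀ x ∈ Fintype.piFinset (fun _ : Fin (l + 1) => W),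
          ∑ y ∈ Fintype.piFinset (fun _ : Fin 0 => W),
            ((Nat.gcd (∏ i, x i) (∏ i, y i) : ℕ) : ℝ) = 1 := by
        intro x _
        have h2 : ∀ y ∈ Fintype.piFinset (fun _ : Fin 0 => W),
            ((Nat.gcd (∏ i, x i) (∏ i, y i) : ℕ) : ℝ) = 1 := by
          intro y _
          have h3 : ∏ i, y i = 1 := by simp
          rw [h3, Nat.gcd_one_right]
          simp
        rw [Finset.sum_congr rfl h2]
        simp
      rw [Finset.sum_congr rfl h1]
      have h5 : ((Fintype.piFinset (fun _ : Fin (l + 1) => W)).card : ℝ) =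
          (W.card : ℝ) ^ (l + 1) := by
        simp
      rw [Finset.sum_const, nsmul_eq_mul, mul_one, h5, Nat.add_zero, ← mul_pow]
      exact pow_le_pow_left₀ (by positivity) hc _
    · obtain ⟨m, rfl⟩ : ∃ m', m = m' + 1 := ⟨m - 1, by omega⟩
      have H1 := ih (m + 1)
      have H2 := ih m
      have hC1 := pxC_nonneg l (m + 1)
      have hC2 := pxC_nonneg l m
      intro Y W hW hY h
      simp only [pxC]
      set C1 := pxC l (m + 1)
      set C2 := pxC l m
      have hc := pg_card hW hY h
      have I1 := H1 Y W hW hY h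
      have I2 := H2 Y W hW hY h
      -- pointwise bound
      have key : ∀ w ∈ W, ∀ x ∈ Fintype.piFinset (fun _ : Fin l => W),
          ∑ y ∈ Fintype.piFinset (fun _ : Fin (m + 1) => W),
            ((Nat.gcd (w * ∏ i, x i) (∏ i, y i) : ℕ) : ℝ) ≤
          ∑ y ∈ Fintype.piFinset (fun _ : Fin (m + 1) => W),
            ((Nat.gcd (∏ i, x i) (∏ i, y i) : ℕ) : ℝ) +
          (m + 1) * (3 * Y) * ∑ y ∈ Fintype.piFinset (fun _ : Fin m => W),
            ((Nat.gcd (∏ i, x i) (∏ i, y i) : ℕ) : ℝ) := by
        intro w hw x hx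
        have hwp : w.Prime := hW w hw
        have step : ∀ y ∈ Fintype.piFinset (fun _ : Fin (m + 1) => W),
            ((Nat.gcd (w * ∏ i, x i) (∏ i, y i) : ℕ) : ℝ) ≤
            ((Nat.gcd (∏ i, x i) (∏ i, y i) : ℕ) : ℝ) +
            ∑ j : Fin (m + 1), if y j = w then
              ((Nat.gcd (w * ∏ i, x i) (∏ i, y i) : ℕ) : ℝ) else 0 := by
          intro y hy
          by_cases hd : w ∣ ∏ i, y i
          · obtain ⟨j, _, hj⟩ := (hwp.prime.dvd_finsetProd_iff _).1 hd
            have hj' : y j = w :=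
              ((Nat.prime_dvd_prime_iff_eq hwp (hW _ (Fintype.mem_piFinset.1 hy j))).1 hj).symm
            have h3 : ((Nat.gcd (w * ∏ i, x i) (∏ i, y i) : ℕ) : ℝ) ≤
                ∑ j : Fin (m + 1), if y j = w then
                ((Nat.gcd (w * ∏ i, x i) (∏ i, y i) : ℕ) : ℝ) else 0 := by
              have h4 := Finset.single_le_sum (f := fun j : Fin (m + 1) => if y j = w then
                ((Nat.gcd (w * ∏ i, x i) (∏ i, y i) : ℕ) : ℝ) else 0)
                (s := Finset.univ) (fun i _ => by positivity) (Finset.mem_univ j)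
              simp only [hj', if_true] at h4
              exact h4
            have h5 : (0 : ℝ) ≤ ((Nat.gcd (∏ i, x i) (∏ i, y i) : ℕ) : ℝ) := by
              positivity
            linarith
          · have h3 : Nat.gcd (w * ∏ i, x i) (∏ i, y i) = Nat.gcd (∏ i, x i) (∏ i, y i) :=
              Nat.Coprime.gcd_mul_left_cancel _ ((Nat.Prime.coprime_iff_not_dvd hwp).2 hd)
            have h4 : (0 : ℝ) ≤ ∑ j : Fin (m + 1), if y j = w then
                ((Nat.gcd (w * ∏ i, x i) (∏ i, y i) : ℕ) : ℝ) else 0 :=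
              Finset.sum_nonneg (fun i _ => by positivity)
            rw [h3] at h4 ⊢
            linarith
        refine (Finset.sum_le_sum step).trans ?_
        rw [Finset.sum_add_distrib]
        have h6 : ∑ y ∈ Fintype.piFinset (fun _ : Fin (m + 1) => W), ∑ j : Fin (m + 1),
            (if y j = w then
              ((Nat.gcd (w * ∏ i, x i) (∏ i, y i) : ℕ) : ℝ) else 0) ≤
            (m + 1) * (3 * Y) * ∑ y ∈ Fintype.piFinset (fun _ : Fin m => W),
            ((Nat.gcd (∏ i, x i) (∏ i, y i) : ℕ) : ℝ) := by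
          rw [Finset.sum_comm]
          have h7 : ∀ j ∈ (Finset.univ : Finset (Fin (m + 1))),
              ∑ y ∈ Fintype.piFinset (fun _ : Fin (m + 1) => W),
              (if y j = w then
              ((Nat.gcd (w * ∏ i, x i) (∏ i, y i) : ℕ) : ℝ) else 0) ≤
              (3 * Y) * ∑ y ∈ Fintype.piFinset (fun _ : Fin m => W),
                ((Nat.gcd (∏ i, x i) (∏ i, y i) : ℕ) : ℝ) := by
            intro j _
            rw [pg_sum_insert W j]
            have h8 : ∀ a ∈ W, ∑ y ∈ Fintype.piFinset (fun _ : Fin m => W),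
                (if (Fin.insertNth j a y : Fin (m + 1) → ℕ) j = w then
                ((Nat.gcd (w * ∏ i, x i)
                  (∏ i, (Fin.insertNth j a y : Fin (m + 1) → ℕ) i) : ℕ) : ℝ) else 0) =
                if a = w then ∑ y ∈ Fintype.piFinset (fun _ : Fin m => W),
                  ((Nat.gcd (w * ∏ i, x i) (w * ∏ i, y i) : ℕ) : ℝ) else 0 := by
              intro a _
              by_cases ha : a = w
              · subst ha
                simp only [Fin.insertNth_apply_same, if_true, pg_prod_insert]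
              · simp [ha]
            rw [Finset.sum_congr rfl h8, Finset.sum_ite_eq' W w, if_pos hw, Finset.mul_sum]
            apply Finset.sum_le_sum
            intro y _
            rw [Nat.gcd_mul_left]
            push_cast
            exact mul_le_mul_of_nonneg_right (h w hw) (by positivity)
          refine (Finset.sum_le_sum h7).trans ?_
          rw [Finset.sum_const]
          simp only [Finset.card_univ, Fintype.card_fin, nsmul_eq_mul]
          push_cast
          apply le_of_eq
          ring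
        linarith
      -- sum over the first coordinate
      rw [pg_sum_insert W (0 : Fin (l + 1))]
      simp only [pg_prod_insert]
      have h11 : ∑ w ∈ W, ∑ x ∈ Fintype.piFinset (fun _ : Fin l => W),
          ∑ y ∈ Fintype.piFinset (fun _ : Fin (m + 1) => W),
            ((Nat.gcd (w * ∏ i, x i) (∏ i, y i) : ℕ) : ℝ) ≤
          ∑ _w ∈ W, (C1 * Y ^ (l + (m + 1)) + (m + 1) * (3 * Y) * (C2 * Y ^ (l + m))) := by
        apply Finset.sum_le_sum
        intro w hw
        refine (Finset.sum_le_sum (key w hw)).trans ?_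
        rw [Finset.sum_add_distrib, ← Finset.mul_sum]
        have h12 : (0 : ℝ) ≤ (m + 1) * (3 * Y) := by positivity
        exact add_le_add I1 (mul_le_mul_of_nonneg_left I2 h12)
      refine h11.trans ?_
      rw [Finset.sum_const, nsmul_eq_mul]
      have h13 : (0 : ℝ) ≤ C1 * Y ^ (l + (m + 1)) + (m + 1) * (3 * Y) * (C2 * Y ^ (l + m)) := by
        positivity
      refine (mul_le_mul_of_nonneg_right hc h13).trans ?_
      apply le_of_eq
      have e1 : Y ^ (l + 1 + (m + 1)) = Y ^ (l + m) * Y ^ 2 := by rw [← pow_add]; ring_nf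
      have e2 : Y ^ (l + (m + 1)) = Y ^ (l + m) * Y := by rw [← pow_succ]; ring_nf
      rw [e1, e2]
      ring

end Pool.Agent.SplM
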