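import Pool.Agent.Lib_MP_92ef0c_spm.PairsN
import Pool.Agent.Lib_MP_92ef0c_spm.PairsG

/-!
# the number of coincidences
-/

set_option autoImplicit false

namespace Pool.Agent.SplM

open Pool.Agent.GaussMR (pxC pxC_nonneg pxC_le)

/-- Copy of `pairsX` (Lib_MP_f1a94e_mu/PairsX.lean): sum `pairsN1` over the tuples `x, y ∈ W^l`,
`∏ x ≥ Y ^ l`, `px_mainN l l`, `pxC_le`: `4 ^ l (C D) Y ^ (-l) (12 (l + 1)) ^ l 3 ^ l Y ^ (2 l)`. -/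
theorem pairsS (l : ℕ) (Y C D : ℝ) (W : Finset ℕ) (hW : ∀ p ∈ W, p.Prime) (hY : 1 ≤ Y) (hC : 0 ≤ C) (hD : 0 ≤ D)
    (h : ∀ p ∈ W, Y < (p : ℝ) ∧ (p : ℝ) ≤ 3 * Y) :
    (Set.ncard {q : ((Fin l → ℕ) × (ℕ × ℕ)) × ((Fin l → ℕ) × (ℕ × ℕ)) |
      (∀ i, q.1.1 i ∈ W) ∧ q.1.2 ∈ Spl.PB C D ∧ (∀ i, q.2.1 i ∈ W) ∧ q.2.2 ∈ Spl.PB C D ∧
      (∏ i, q.1.1 i) * q.1.2.1 * q.2.2.2 = (∏ i, q.2.1 i) * q.2.2.1 * q.1.2.2} : ℝ) ≤
      (144 * ((l : ℝ) + 1)) ^ l * Y ^ l * (C * D) := by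
  classical
  set WW := Fintype.piFinset (fun _ : Fin l => W) with hWW
  have hset : {q : ((Fin l → ℕ) × (ℕ × ℕ)) × ((Fin l → ℕ) × (ℕ × ℕ)) |
      (∀ i, q.1.1 i ∈ W) ∧ q.1.2 ∈ Spl.PB C D ∧ (∀ i, q.2.1 i ∈ W) ∧ q.2.2 ∈ Spl.PB C D ∧
      (∏ i, q.1.1 i) * q.1.2.1 * q.2.2.2 = (∏ i, q.2.1 i) * q.2.2.1 * q.1.2.2} =
      ((((WW ×ˢ Spl.PB C D) ×ˢ (WW ×ˢ Spl.PB C D)).filter
        (fun q => (∏ i, q.1.1 i) * q.1.2.1 * q.2.2.2 = (∏ i, q.2.1 i) * q.2.2.1 * q.1.2.2) :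
        Finset (((Fin l → ℕ) × (ℕ × ℕ)) × ((Fin l → ℕ) × (ℕ × ℕ)))) :
        Set (((Fin l → ℕ) × (ℕ × ℕ)) × ((Fin l → ℕ) × (ℕ × ℕ)))) := by
    ext q
    simp only [Set.mem_ofPred_eq, Finset.coe_filter, Finset.mem_product, hWW,
      Fintype.mem_piFinset]
    tauto
  rw [hset, Set.ncard_coe_finset]
  have hYl : (0 : ℝ) < Y ^ l := by positivity
  set K : ℝ := 2 ^ (l + l) * (C * D) / Y ^ l with hK
  have hK0 : 0 ≤ K := by rw [hK]; positivity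
  have hin : ∀ x ∈ WW, ∀ y ∈ WW, ((((Spl.PB C D) ×ˢ (Spl.PB C D)).filter
      (fun q : (ℕ × ℕ) × (ℕ × ℕ) =>
      (∏ i, x i) * q.1.1 * q.2.2 = (∏ i, y i) * q.2.1 * q.1.2)).card : ℝ) ≤
      K * ((Nat.gcd (∏ i, x i) (∏ i, y i) : ℕ) : ℝ) := by
    intro x hx y hy
    rw [hWW, Fintype.mem_piFinset] at hx hy
    have h1 := pairsN1 l x y (fun i => hW _ (hx i)) (fun i => hW _ (hy i)) C D hC hD
    refine h1.trans ?_
    have h2 : Y ^ l ≤ ((∏ i, x i : ℕ) : ℝ) := by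
      push_cast
      have h3 : Y ^ l = ∏ _i : Fin l, Y := by simp
      rw [h3]
      exact Finset.prod_le_prod (fun i _ => by linarith) (fun i _ => (h _ (hx i)).1.le)
    have h4 : K * ((Nat.gcd (∏ i, x i) (∏ i, y i) : ℕ) : ℝ) =
        2 ^ (l + l) * (C * D) * ((Nat.gcd (∏ i, x i) (∏ i, y i) : ℕ) : ℝ) / Y ^ l := by
      rw [hK]
      ring
    rw [h4]
    exact div_le_div_of_nonneg_left (by positivity) hYl h2
  have hcard : ((((WW ×ˢ Spl.PB C D) ×ˢ (WW ×ˢ Spl.PB C D)).filter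
        (fun q => (∏ i, q.1.1 i) * q.1.2.1 * q.2.2.2 = (∏ i, q.2.1 i) * q.2.2.1 * q.1.2.2)).card : ℝ) =
      ∑ x ∈ WW, ∑ y ∈ WW, ((((Spl.PB C D) ×ˢ (Spl.PB C D)).filter
      (fun q : (ℕ × ℕ) × (ℕ × ℕ) =>
      (∏ i, x i) * q.1.1 * q.2.2 = (∏ i, y i) * q.2.1 * q.1.2)).card : ℝ) := by
    simp only [Finset.card_filter, Finset.sum_product]
    push_cast
    apply Finset.sum_congr rfl
    intro x _
    rw [Finset.sum_comm']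
    intro a b
    tauto
  rw [hcard]
  calc ∑ x ∈ WW, ∑ y ∈ WW, ((((Spl.PB C D) ×ˢ (Spl.PB C D)).filter
      (fun q : (ℕ × ℕ) × (ℕ × ℕ) =>
      (∏ i, x i) * q.1.1 * q.2.2 = (∏ i, y i) * q.2.1 * q.1.2)).card : ℝ)
      ≤ ∑ x ∈ WW, ∑ y ∈ WW, K * ((Nat.gcd (∏ i, x i) (∏ i, y i) : ℕ) : ℝ) :=
        Finset.sum_le_sum (fun x hx => Finset.sum_le_sum (fun y hy => hin x hx y hy))
    _ = K * ∑ x ∈ WW, ∑ y ∈ WW, ((Nat.gcd (∏ i, x i) (∏ i, y i) : ℕ) : ℝ) := by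
        rw [Finset.mul_sum]
        apply Finset.sum_congr rfl
        intro x _
        rw [Finset.mul_sum]
    _ ≤ K * (pxC l l * Y ^ (l + l)) :=
        mul_le_mul_of_nonneg_left (px_mainN l l Y W hW hY (fun p hp => (h p hp).2)) hK0
    _ ≤ K * ((12 * ((l : ℝ) + 1)) ^ l * 3 ^ l * Y ^ (l + l)) := by
        apply mul_le_mul_of_nonneg_left _ hK0
        exact mul_le_mul_of_nonneg_right (pxC_le l l) (by positivity)
    _ = (144 * ((l : ℝ) + 1)) ^ l * Y ^ l * (C * D) := by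
        have e1 : (2 : ℝ) ^ (l + l) = 4 ^ l := by
          rw [← two_mul, pow_mul]
          norm_num
        have e2 : (144 * ((l : ℝ) + 1)) ^ l = 4 ^ l * ((12 * ((l : ℝ) + 1)) ^ l * 3 ^ l) := by
          rw [← mul_pow, ← mul_pow]
          congr 1
          ring
        rw [hK, e1, e2, pow_add]
        field_simp

end Pool.Agent.SplM
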