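import Pool.Agent.Lib_MP_92ef0c_spm.LsFam
import Pool.Agent.Lib_MP_92ef0c_spm.PairsS

/-!
# second moment of `(U_w)^l Ps`
-/

set_option autoImplicit false

namespace Pool.Agent.SplM

open Pool.Agent.GaussMR (fr mem_fr nv Ls)

theorem moms_ch_prod (t : ℝ) {l : ℕ} (x : Fin l → ℕ) (hx : ∀ j, 0 < x j) {a : ℕ} (b : ℕ) (ha : 0 < a) :
    (∏ j, nit (-t) (x j)) * ch t (a, b) = ch t ((∏ j, x j) * a, b) := by
  induction l with
  | zero => simp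
  | succ n ih =>
    rw [Fin.prod_univ_succ, Fin.prod_univ_succ, mul_assoc, ih (fun j => x j.succ) (fun j => hx _), mul_assoc,
      ch_mul t b (hx 0) (Nat.mul_pos (Finset.prod_pos fun j _ => hx _) ha)]

/-- Copy of `sM_moment` (Lib_MP_f1a94e_ecc/SmallM.lean): `(Up w)^l Ps` is the sum over the family
`i = (x, z) ∈ (bk w)^l × PB C D` of `∏ f x_j · f z.1 g z.2 · ch (k/N) ((∏ x_j) z.1, z.2)` (`ch_mul`), all in the box
`e^((w+1)ρ)^l C × D`; `lsF` and `pairsS` with `Y = e^(wρ)`. -/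
theorem momS : ∃ A : ℝ, 0 < A ∧ ∀ (l : ℕ) (f g : ℕ → ℂ), CMN f → (∀ n, ‖g n‖ ≤ 1) →
    ∀ (P Q ρ C D Y : ℝ) (N T w : ℕ), 0 < ρ → ρ ≤ 1 → 0 ≤ C → 0 ≤ D → 1 ≤ Y → 1 ≤ N → Real.log Y ≤ 3 * N →
    Real.exp ((w + 1) * ρ) ^ l * (C * D) ≤ Y →
    ∑ k ∈ fr T, ‖Up f N P Q ρ w k ^ l * Ps f g C D ((k : ℝ) / N)‖ ^ 2 ≤
      A * (144 * ((l : ℝ) + 1)) ^ l * (T + N * Y) * (Real.exp (w * ρ) ^ l * (C * D)) := by
  obtain ⟨A1, hA1, h1⟩ := lsF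
  refine ⟨A1, hA1, ?_⟩
  intro l f g hf hgb P Q ρ C D Y N T w hρ hρ1 hC hD hY hN hlog hle
  classical
  set s : Finset ((Fin l → ℕ) × (ℕ × ℕ)) :=
    (Fintype.piFinset fun _ : Fin l => bk P Q ρ w) ×ˢ Spl.PB C D with hs
  have hmem : ∀ i ∈ s, (∀ j, i.1 j ∈ bk P Q ρ w) ∧ i.2 ∈ Spl.PB C D := by
    intro i hi
    rw [hs, Finset.mem_product, Fintype.mem_piFinset] at hi
    exact hi
  have hid : ∀ k : ℤ, Up f N P Q ρ w k ^ l * Ps f g C D ((k : ℝ) / N) =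
      ∑ i ∈ s, ((∏ j, f (i.1 j)) * (f i.2.1 * g i.2.2)) * ch ((k : ℝ) / N) ((∏ j, i.1 j) * i.2.1, i.2.2) := by
    intro k
    have e1 : Up f N P Q ρ w k ^ l = ∑ x ∈ Fintype.piFinset (fun _ : Fin l => bk P Q ρ w),
        ∏ j, (f (x j) * nit (-((k : ℝ) / N)) (x j)) := by
      have := Finset.prod_univ_sum (fun _ : Fin l => bk P Q ρ w)
        (fun _ (u : ℕ) => f u * nit (-((k : ℝ) / N)) u)
      rw [← this, Finset.prod_const, Finset.card_univ, Fintype.card_fin]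
      rfl
    rw [e1, hs, Finset.sum_product]
    unfold Ps
    rw [Finset.sum_mul_sum]
    refine Finset.sum_congr rfl fun x hx => Finset.sum_congr rfl fun z hz => ?_
    dsimp only
    have hx' : ∀ j, 0 < x j := fun j => (bk_prime (Fintype.mem_piFinset.1 hx j)).pos
    rw [← moms_ch_prod ((k : ℝ) / N) x hx' z.2 (Spl.mem_PB.1 hz).1.1, Finset.prod_mul_distrib]
    ring
  have hc : ∀ i ∈ s, ‖(∏ j, f (i.1 j)) * (f i.2.1 * g i.2.2)‖ ≤ 1 := by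
    intro i _
    rw [norm_mul, norm_prod, norm_mul]
    exact mul_le_one₀ (Finset.prod_le_one (fun _ _ => norm_nonneg _) fun j _ => hf.bd _)
      (mul_nonneg (norm_nonneg _) (norm_nonneg _)) (mul_le_one₀ (hf.bd _) (norm_nonneg _) (hgb _))
  have hg : ∀ i ∈ s, (0 < (∏ j, i.1 j) * i.2.1 ∧
      (((∏ j, i.1 j) * i.2.1 : ℕ) : ℝ) ≤ Real.exp ((w + 1) * ρ) ^ l * C) ∧ 0 < i.2.2 ∧ (i.2.2 : ℝ) ≤ D := by
    intro i hi
    have hi1 := (hmem i hi).1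
    have hi2 := Spl.mem_PB.1 (hmem i hi).2
    refine ⟨⟨Nat.mul_pos (Finset.prod_pos fun j _ => (bk_prime (hi1 j)).pos) hi2.1.1, ?_⟩, hi2.2.1⟩
    push_cast
    refine mul_le_mul ?_ hi2.1.2 (Nat.cast_nonneg _) (by positivity)
    refine (Finset.prod_le_prod (fun j _ => Nat.cast_nonneg _) (fun j _ => (mem_bk.1 (hi1 j)).2.2)).trans ?_
    rw [Finset.prod_const, Finset.card_univ, Fintype.card_fin]
  have h3 := h1 _ s (fun i => ((∏ j, i.1 j) * i.2.1, i.2.2)) (fun i => (∏ j, f (i.1 j)) * (f i.2.1 * g i.2.2))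
    N (Real.exp ((w + 1) * ρ) ^ l * C) D Y T hN hY (by rw [mul_assoc]; exact hle) hlog hc hg
  have h4 := pairsS l (Real.exp (w * ρ)) C D (bk P Q ρ w) (fun p hp => bk_prime hp)
    (Real.one_le_exp (by positivity)) hC hD (by
      intro p hp
      have hu' := (mem_bk.1 hp).2
      refine ⟨hu'.1, hu'.2.trans ?_⟩
      have : Real.exp ((w + 1) * ρ) = Real.exp ρ * Real.exp (w * ρ) := by
        rw [← Real.exp_add]
        congr 1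
        ring
      rw [this]
      have h5 : Real.exp ρ ≤ 3 :=
        (Real.exp_le_exp.2 hρ1).trans (by linarith [Real.exp_one_lt_d9])
      exact mul_le_mul_of_nonneg_right h5 (Real.exp_pos _).le)
  have hset : {p : ((Fin l → ℕ) × (ℕ × ℕ)) × ((Fin l → ℕ) × (ℕ × ℕ)) | p.1 ∈ s ∧ p.2 ∈ s ∧
      ((∏ j, p.1.1 j) * p.1.2.1, p.1.2.2).1 * ((∏ j, p.2.1 j) * p.2.2.1, p.2.2.2).2 =
        ((∏ j, p.2.1 j) * p.2.2.1, p.2.2.2).1 * ((∏ j, p.1.1 j) * p.1.2.1, p.1.2.2).2} =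
      {q : ((Fin l → ℕ) × (ℕ × ℕ)) × ((Fin l → ℕ) × (ℕ × ℕ)) |
      (∀ i, q.1.1 i ∈ bk P Q ρ w) ∧ q.1.2 ∈ Spl.PB C D ∧ (∀ i, q.2.1 i ∈ bk P Q ρ w) ∧ q.2.2 ∈ Spl.PB C D ∧
      (∏ i, q.1.1 i) * q.1.2.1 * q.2.2.2 = (∏ i, q.2.1 i) * q.2.2.1 * q.1.2.2} := by
    ext q
    simp only [Set.mem_setOf_eq, hs, Finset.mem_product, Fintype.mem_piFinset]
    tauto
  rw [hset] at h3
  calc ∑ k ∈ fr T, ‖Up f N P Q ρ w k ^ l * Ps f g C D ((k : ℝ) / N)‖ ^ 2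
      = ∑ k ∈ fr T, ‖∑ i ∈ s, ((∏ j, f (i.1 j)) * (f i.2.1 * g i.2.2)) *
          ch ((k : ℝ) / N) ((∏ j, i.1 j) * i.2.1, i.2.2)‖ ^ 2 := by
        refine Finset.sum_congr rfl fun k _ => ?_
        rw [hid k]
    _ ≤ A1 * (T + N * Y) * ((144 * ((l : ℝ) + 1)) ^ l * Real.exp (w * ρ) ^ l * (C * D)) := by
        refine h3.trans ?_
        refine mul_le_mul_of_nonneg_left h4 ?_
        positivity
    _ = A1 * (144 * ((l : ℝ) + 1)) ^ l * (T + N * Y) * (Real.exp (w * ρ) ^ l * (C * D)) := by ring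

end Pool.Agent.SplM
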