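import Pool.Agent.Lib_MP_f1a94e_mu.SmallM
import Pool.Agent.Lib_MP_92ef0c_spm.MomS

/-!
# from one stage to the next
-/

set_option autoImplicit false

namespace Pool.Agent.SplM

open Pool.Agent.GaussMR (fr mem_fr nv Ls)

theorem up_blk_ne {f : ℕ → ℂ} {N : ℕ} {P Q ρ : ℝ} {v : ℕ} {k : ℤ} (h : Up f N P Q ρ v k ≠ 0) :
    P < Real.exp ((v + 1) * ρ) ∧ Real.exp (v * ρ) < Q := by
  unfold Up at h
  obtain ⟨p, hp, -⟩ := Finset.exists_ne_zero_of_sum_ne_zero h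
  have h1 := mem_bk.1 hp
  have h2 := mem_pp.1 h1.1
  exact ⟨h2.2.2.1.trans_le h1.2.2, h1.2.1.trans_le h2.2.2.2⟩

/-- Copy of `smallM` (Lib_MP_f1a94e_ecc/SmallM.lean) with `momS` and an additional factor `N`. The box of block `v` is
`C e^(-vρ2) × D`, `(C e^(-vρ2)) D ≤ X e^(-vρ2)`; `Y = e^(l0+1) Q1 X`, `log Y = l0 + 1 + log Q1 + log X ≤ 3 N`;
`T + N Y ≤ (1 + E) N Q1 X`. -/
theorem smallMS : ∃ A : ℝ, 0 < A ∧ ∀ (f g : ℕ → ℂ), CMN f → (∀ n, ‖g n‖ ≤ 1) →
    ∀ (P1 Q1 P2 Q2 ρ1 ρ2 C D X α1 α2 l0 : ℝ) (N T : ℕ) (S : Finset ℤ),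
    Real.exp 2 ≤ P1 → P1 ≤ Q1 → Q1 ≤ X → 1 ≤ P2 → P2 ≤ Q2 → Q2 ≤ X → 1 ≤ l0 →
    2 * Real.log Q2 ≤ l0 * Real.log P1 →
    0 < ρ1 → ρ1 ≤ 1 → 0 < ρ2 → ρ2 ≤ 1 → 0 ≤ α1 → α1 ≤ α2 → α2 ≤ 1 → 1 ≤ N → 0 ≤ C → 0 ≤ D → C * D ≤ X →
    l0 + 1 + Real.log Q1 + Real.log X ≤ 3 * N → (T : ℝ) ≤ N * X → S ⊆ fr T →
    (∀ k ∈ S, ∃ w : ℕ, Real.exp ((1 - α1) * (w * ρ1)) < ‖Up f N P1 Q1 ρ1 w k‖) →
    (∀ k ∈ S, ∀ v : ℕ, ‖Up f N P2 Q2 ρ2 v k‖ ≤ Real.exp ((1 - α2) * (v * ρ2))) →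
    ∑ k ∈ S, ‖UZs f g N P2 Q2 ρ2 C D k‖ ^ 2 ≤
      N * X ^ 2 * (Real.log Q2 / ρ2 + 1) ^ 2 * (Real.log Q1 / ρ1 + 1) * Q1 ^ 2 *
        Real.exp (A * (l0 + 2) * Real.log (l0 + 2)) * P2 ^ (-(2 * (α2 - α1))) := by
  obtain ⟨C1, hC10, hC1⟩ := momS
  refine ⟨|Real.log C1| + 12, by positivity, ?_⟩
  intro f g hf hg P1 Q1 P2 Q2 ρ1 ρ2 C D X α1 α2 l0 N T S hP1 hPQ1 hQ1X hP2 hPQ2 hQX hl0 hlog hρ1 hρ11 hρ2 hρ21
    hα1 hα12 hα2 hN1 hC hD hCD hlX hTX hST hw hv
  set E : ℝ := Real.exp (l0 + 1) with hE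
  have hEpos : 0 < E := Real.exp_pos _
  have he2 : (1 : ℝ) ≤ Real.exp 2 := Real.one_le_exp (by norm_num)
  have hP1' : 1 ≤ P1 := he2.trans hP1
  have hQ1' : 1 ≤ Q1 := hP1'.trans hPQ1
  have hQ2' : 1 ≤ Q2 := hP2.trans hPQ2
  have hX' : 1 ≤ X := hQ2'.trans hQX
  have hlP1 : 2 ≤ Real.log P1 := by
    rw [Real.le_log_iff_exp_le (by linarith)]
    exact hP1
  have hlQ1 : 0 ≤ Real.log Q1 := Real.log_nonneg hQ1'
  have hlQ2 : 0 ≤ Real.log Q2 := Real.log_nonneg hQ2'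
  set NV : ℕ := nv Q2 ρ2 with hNV
  set M : ℕ := nv Q1 ρ1 with hM
  have hNle : (NV : ℝ) ≤ Real.log Q2 / ρ2 + 1 := by
    rw [hNV]
    unfold nv
    push_cast
    have := Nat.floor_le (div_nonneg hlQ2 hρ2.le)
    linarith
  have hMle : (M : ℝ) ≤ Real.log Q1 / ρ1 + 1 := by
    rw [hM]
    unfold nv
    push_cast
    have := Nat.floor_le (div_nonneg hlQ1 hρ1.le)
    linarith
  set R : ℝ := Real.exp ((|Real.log C1| + 12) * (l0 + 2) * Real.log (l0 + 2)) with hR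
  have hRpos : 0 < R := Real.exp_pos _
  have hNpos : (0 : ℝ) < N := by exact_mod_cast hN1
  have hN1' : (1 : ℝ) ≤ N := by exact_mod_cast hN1
  set K : ℝ := R * (N * X ^ 2) * Q1 ^ 2 * P2 ^ (-(2 * (α2 - α1))) with hK
  have hP2pow : 0 < P2 ^ (-(2 * (α2 - α1))) := Real.rpow_pos_of_pos (by linarith) _
  have hKpos : 0 < K := by positivity
  -- bound for one pair of blocks
  have hpair : ∀ v w : ℕ, (∃ k, Up f N P2 Q2 ρ2 v k ≠ 0) → (∃ k, Up f N P1 Q1 ρ1 w k ≠ 0) →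
      ∀ S' : Finset ℤ, S' ⊆ fr T →
      (∀ k ∈ S', Real.exp ((1 - α1) * (w * ρ1)) < ‖Up f N P1 Q1 ρ1 w k‖) →
      ∑ k ∈ S', Real.exp ((1 - α2) * (v * ρ2)) ^ 2 *
        ‖Ps f g (C * Real.exp (-(v * ρ2))) D ((k : ℝ) / N)‖ ^ 2 ≤ K := by
    rintro v w ⟨k2, hk2⟩ ⟨k1, hk1⟩ S' hS' hcond
    obtain ⟨a1, a2⟩ := up_blk_ne hk2
    obtain ⟨b1, b2⟩ := up_blk_ne hk1
    have a1' : Real.log P2 < (v + 1) * ρ2 := by
      rw [Real.log_lt_iff_lt_exp (by linarith)]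
      exact a1
    have b1' : Real.log P1 < (w + 1) * ρ1 := by
      rw [Real.log_lt_iff_lt_exp (by linarith)]
      exact b1
    have a2' : v * ρ2 < Real.log Q2 := by
      rw [Real.lt_log_iff_exp_lt (by linarith)]
      exact a2
    have hwρ : Real.log P1 / 2 < w * ρ1 := by linarith
    have hwρ0 : 0 < w * ρ1 := by linarith
    have hvρ0 : 0 ≤ v * ρ2 := by positivity
    have hq : v * ρ2 / (w * ρ1) ≤ l0 := by
      rw [div_le_iff₀ hwρ0]
      have h2 : l0 * (Real.log P1 / 2) ≤ l0 * (w * ρ1) :=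
        mul_le_mul_of_nonneg_left hwρ.le (by linarith)
      linarith
    set l : ℕ := ⌊v * ρ2 / (w * ρ1)⌋₊ + 1 with hl
    have hlc : (l : ℝ) = (⌊v * ρ2 / (w * ρ1)⌋₊ : ℝ) + 1 := by
      rw [hl]
      push_cast
      ring
    have hfl := Nat.floor_le (div_nonneg hvρ0 hwρ0.le)
    have hfl2 := Nat.lt_floor_add_one (v * ρ2 / (w * ρ1))
    have hl1' : (l : ℝ) ≤ l0 + 1 := by
      rw [hlc]
      linarith
    have hl2' : v * ρ2 ≤ l * (w * ρ1) := by
      rw [hlc, ← div_le_iff₀ hwρ0]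
      exact hfl2.le
    have hl3' : l * (w * ρ1) ≤ v * ρ2 + w * ρ1 := by
      rw [hlc, add_mul, one_mul]
      have := (le_div_iff₀ hwρ0).1 hfl
      linarith
    have hexpw : Real.exp (w * ρ1) ^ l * (C * Real.exp (-(v * ρ2)) * D) ≤ Q1 * X := by
      have e1 : Real.exp (w * ρ1) ^ l * (C * Real.exp (-(v * ρ2)) * D) =
          Real.exp (l * (w * ρ1) - v * ρ2) * (C * D) := by
        have e0 : Real.exp (w * ρ1) ^ l * Real.exp (-(v * ρ2)) = Real.exp (l * (w * ρ1) - v * ρ2) := by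
          rw [← Real.exp_nat_mul, ← Real.exp_add]
          congr 1
        rw [← e0]
        ring
      rw [e1]
      refine mul_le_mul ?_ hCD (mul_nonneg hC hD) (by linarith)
      refine le_trans (Real.exp_le_exp.2 ?_) b2.le
      linarith
    have hexpY : Real.exp ((w + 1) * ρ1) ^ l * (C * Real.exp (-(v * ρ2)) * D) ≤ E * Q1 * X := by
      have e1 : Real.exp ((w + 1) * ρ1) ^ l * (C * Real.exp (-(v * ρ2)) * D) =
          Real.exp (l * ρ1) * (Real.exp (w * ρ1) ^ l * (C * Real.exp (-(v * ρ2)) * D)) := by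
        have e2 : Real.exp ((w + 1) * ρ1) ^ l = Real.exp (l * ρ1) * Real.exp (w * ρ1) ^ l := by
          rw [← Real.exp_nat_mul, ← Real.exp_nat_mul, ← Real.exp_add]
          congr 1
          ring
        rw [e2, mul_assoc]
      rw [e1, mul_assoc E]
      refine mul_le_mul ?_ hexpw (by positivity) hEpos.le
      rw [hE]
      refine Real.exp_le_exp.2 ?_
      calc (l : ℝ) * ρ1 ≤ l * 1 := mul_le_mul_of_nonneg_left hρ11 (Nat.cast_nonneg _)
        _ ≤ l0 + 1 := by linarith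
    have hY1 : 1 ≤ E * Q1 * X := by
      have h1 : 1 ≤ E := Real.one_le_exp (by linarith)
      have h2 : 1 ≤ E * Q1 := one_le_mul_of_one_le_of_one_le h1 hQ1'
      exact one_le_mul_of_one_le_of_one_le h2 hX'
    have hY3 : Real.log (E * Q1 * X) ≤ 3 * N := by
      have hEQ : 0 < E * Q1 := by positivity
      rw [Real.log_mul hEQ.ne' (by linarith), Real.log_mul hEpos.ne' (by linarith), hE, Real.log_exp]
      linarith
    have hmom := hC1 l f g hf hg P1 Q1 ρ1 (C * Real.exp (-(v * ρ2))) D (E * Q1 * X) N T w hρ1 hρ11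
      (by positivity) hD hY1 hN1 hY3 hexpY
    have hmom2 : ∑ k ∈ fr T, ‖Up f N P1 Q1 ρ1 w k ^ l * Ps f g (C * Real.exp (-(v * ρ2))) D ((k : ℝ) / N)‖ ^ 2 ≤
        (C1 * (144 * ((l : ℝ) + 1)) ^ l * (1 + E)) * (N * X ^ 2) * Q1 ^ 2 := by
      refine hmom.trans ?_
      have h1 : (T : ℝ) + N * (E * Q1 * X) ≤ N * ((1 + E) * Q1 * X) := by
        have h3 : X ≤ Q1 * X := le_mul_of_one_le_left (zero_le_one.trans hX') hQ1'
        have h4 : (N : ℝ) * X ≤ N * (Q1 * X) := mul_le_mul_of_nonneg_left h3 hNpos.le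
        have h5 : (N : ℝ) * ((1 + E) * Q1 * X) = N * (Q1 * X) + N * (E * Q1 * X) := by ring
        rw [h5]
        linarith
      have h2 : 0 ≤ (T : ℝ) + N * (E * Q1 * X) := by positivity
      calc C1 * (144 * ((l : ℝ) + 1)) ^ l * (T + N * (E * Q1 * X)) *
            (Real.exp (w * ρ1) ^ l * (C * Real.exp (-(v * ρ2)) * D))
          ≤ C1 * (144 * ((l : ℝ) + 1)) ^ l * (N * ((1 + E) * Q1 * X)) * (Q1 * X) := by
            refine mul_le_mul ?_ hexpw (by positivity) (by positivity)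
            exact mul_le_mul_of_nonneg_left h1 (by positivity)
        _ = (C1 * (144 * ((l : ℝ) + 1)) ^ l * (1 + E)) * (N * X ^ 2) * Q1 ^ 2 := by ring
    -- amplification
    have hamp : ∀ k ∈ S', Real.exp ((1 - α2) * (v * ρ2)) ^ 2 *
        ‖Ps f g (C * Real.exp (-(v * ρ2))) D ((k : ℝ) / N)‖ ^ 2 ≤ Real.exp (-(2 * (α2 - α1) * (v * ρ2))) *
        ‖Up f N P1 Q1 ρ1 w k ^ l * Ps f g (C * Real.exp (-(v * ρ2))) D ((k : ℝ) / N)‖ ^ 2 := by
      intro k hk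
      rw [norm_mul, mul_pow, ← mul_assoc (Real.exp (-(2 * (α2 - α1) * (v * ρ2))))]
      refine mul_le_mul_of_nonneg_right ?_ (sq_nonneg _)
      have h1 : Real.exp ((1 - α1) * (v * ρ2)) ^ 2 ≤ ‖Up f N P1 Q1 ρ1 w k ^ l‖ ^ 2 := by
        refine pow_le_pow_left₀ (Real.exp_pos _).le ?_ 2
        rw [norm_pow]
        calc Real.exp ((1 - α1) * (v * ρ2)) ≤ Real.exp ((1 - α1) * (w * ρ1)) ^ l := by
              rw [← Real.exp_nat_mul]
              refine Real.exp_le_exp.2 ?_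
              calc (1 - α1) * (v * ρ2) ≤ (1 - α1) * (l * (w * ρ1)) :=
                    mul_le_mul_of_nonneg_left hl2' (by linarith)
                _ = l * ((1 - α1) * (w * ρ1)) := by ring
          _ ≤ ‖Up f N P1 Q1 ρ1 w k‖ ^ l := pow_le_pow_left₀ (Real.exp_pos _).le (hcond k hk).le l
      calc Real.exp ((1 - α2) * (v * ρ2)) ^ 2
          = Real.exp (-(2 * (α2 - α1) * (v * ρ2))) * Real.exp ((1 - α1) * (v * ρ2)) ^ 2 := by
            rw [← Real.exp_nat_mul, ← Real.exp_nat_mul, ← Real.exp_add]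
            congr 1
            push_cast
            ring
        _ ≤ _ := mul_le_mul_of_nonneg_left h1 (Real.exp_pos _).le
    have hexpP : Real.exp (-(2 * (α2 - α1) * (v * ρ2))) ≤
        Real.exp 2 * P2 ^ (-(2 * (α2 - α1))) := by
      rw [Real.rpow_def_of_pos (by linarith), ← Real.exp_add]
      refine Real.exp_le_exp.2 ?_
      have h1 : Real.log P2 - v * ρ2 ≤ 1 := by linarith
      have h2 : (α2 - α1) * (Real.log P2 - v * ρ2) ≤ (α2 - α1) * 1 :=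
        mul_le_mul_of_nonneg_left h1 (by linarith)
      have h3 : α2 - α1 ≤ 1 := by linarith
      have h4 : 0 ≤ 2 * ((α2 - α1) * 1 - (α2 - α1) * (Real.log P2 - v * ρ2)) + 2 * (1 - (α2 - α1)) := by
        linarith
      calc -(2 * (α2 - α1) * (v * ρ2)) ≤ -(2 * (α2 - α1) * (v * ρ2)) +
            (2 * ((α2 - α1) * 1 - (α2 - α1) * (Real.log P2 - v * ρ2)) + 2 * (1 - (α2 - α1))) :=
            le_add_of_nonneg_right h4
        _ = 2 + Real.log P2 * (-(2 * (α2 - α1))) := by ring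
    have hcst := GaussMR.sM_const C1 l0 hC10 hl0 l hl1'
    rw [← hE, ← hR] at hcst
    calc ∑ k ∈ S', Real.exp ((1 - α2) * (v * ρ2)) ^ 2 * ‖Ps f g (C * Real.exp (-(v * ρ2))) D ((k : ℝ) / N)‖ ^ 2
        ≤ ∑ k ∈ S', Real.exp (-(2 * (α2 - α1) * (v * ρ2))) *
          ‖Up f N P1 Q1 ρ1 w k ^ l * Ps f g (C * Real.exp (-(v * ρ2))) D ((k : ℝ) / N)‖ ^ 2 :=
          Finset.sum_le_sum hamp
      _ ≤ ∑ k ∈ fr T, Real.exp (-(2 * (α2 - α1) * (v * ρ2))) *
          ‖Up f N P1 Q1 ρ1 w k ^ l * Ps f g (C * Real.exp (-(v * ρ2))) D ((k : ℝ) / N)‖ ^ 2 :=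
          Finset.sum_le_sum_of_subset_of_nonneg hS' fun k _ _ => by positivity
      _ = Real.exp (-(2 * (α2 - α1) * (v * ρ2))) * ∑ k ∈ fr T,
          ‖Up f N P1 Q1 ρ1 w k ^ l * Ps f g (C * Real.exp (-(v * ρ2))) D ((k : ℝ) / N)‖ ^ 2 := by
          rw [Finset.mul_sum]
      _ ≤ (Real.exp 2 * P2 ^ (-(2 * (α2 - α1)))) *
          ((C1 * (144 * ((l : ℝ) + 1)) ^ l * (1 + E)) * (N * X ^ 2) * Q1 ^ 2) :=
          mul_le_mul hexpP hmom2 (Finset.sum_nonneg fun k _ => by positivity) (by positivity)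
      _ = (C1 * (144 * ((l : ℝ) + 1)) ^ l * (1 + E) * Real.exp 2) *
            (N * X ^ 2 * Q1 ^ 2 * P2 ^ (-(2 * (α2 - α1)))) := by ring
      _ ≤ R * (N * X ^ 2 * Q1 ^ 2 * P2 ^ (-(2 * (α2 - α1)))) :=
          mul_le_mul_of_nonneg_right hcst (by positivity)
      _ = K := by
          rw [hK]
          ring
  -- one second stage block
  have hblock : ∀ v : ℕ, ∑ k ∈ S, ‖Up f N P2 Q2 ρ2 v k * Ps f g (C * Real.exp (-(v * ρ2))) D ((k : ℝ) / N)‖ ^ 2 ≤
      M * K := by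
    intro v
    classical
    by_cases hv0 : ∃ k, Up f N P2 Q2 ρ2 v k ≠ 0
    · have h1 : ∀ k ∈ S, ‖Up f N P2 Q2 ρ2 v k * Ps f g (C * Real.exp (-(v * ρ2))) D ((k : ℝ) / N)‖ ^ 2 ≤
          ∑ w ∈ Finset.range M, if Real.exp ((1 - α1) * (w * ρ1)) < ‖Up f N P1 Q1 ρ1 w k‖ then
            Real.exp ((1 - α2) * (v * ρ2)) ^ 2 *
              ‖Ps f g (C * Real.exp (-(v * ρ2))) D ((k : ℝ) / N)‖ ^ 2 else 0 := by
        intro k hk
        obtain ⟨w, hwk⟩ := hw k hk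
        have hUne : Up f N P1 Q1 ρ1 w k ≠ 0 := by
          intro h0
          rw [h0, norm_zero] at hwk
          exact absurd hwk (not_lt.2 (Real.exp_pos _).le)
        have hwM : w ∈ Finset.range M := by
          rw [Finset.mem_range, hM]
          unfold nv
          rw [Nat.lt_succ_iff]
          apply Nat.le_floor
          rw [le_div_iff₀ hρ1]
          refine le_of_lt ?_
          rw [Real.lt_log_iff_exp_lt (by linarith)]
          exact (up_blk_ne hUne).2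
        have h2 := Finset.single_le_sum (f := fun w : ℕ =>
          if Real.exp ((1 - α1) * (w * ρ1)) < ‖Up f N P1 Q1 ρ1 w k‖ then
            Real.exp ((1 - α2) * (v * ρ2)) ^ 2 *
              ‖Ps f g (C * Real.exp (-(v * ρ2))) D ((k : ℝ) / N)‖ ^ 2 else 0)
          (fun i _ => by positivity) hwM
        refine le_trans ?_ h2
        simp only [hwk, if_true]
        rw [norm_mul, mul_pow]
        exact mul_le_mul_of_nonneg_right (pow_le_pow_left₀ (norm_nonneg _) (hv k hk v) 2)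
          (by positivity)
      refine (Finset.sum_le_sum h1).trans ?_
      rw [Finset.sum_comm]
      calc ∑ w ∈ Finset.range M, ∑ k ∈ S,
          (if Real.exp ((1 - α1) * (w * ρ1)) < ‖Up f N P1 Q1 ρ1 w k‖ then
            Real.exp ((1 - α2) * (v * ρ2)) ^ 2 *
              ‖Ps f g (C * Real.exp (-(v * ρ2))) D ((k : ℝ) / N)‖ ^ 2 else 0)
          ≤ ∑ w ∈ Finset.range M, K := by
            refine Finset.sum_le_sum fun w _ => ?_
            rw [← Finset.sum_filter]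
            by_cases hne : (S.filter fun k =>
                Real.exp ((1 - α1) * (w * ρ1)) < ‖Up f N P1 Q1 ρ1 w k‖).Nonempty
            · obtain ⟨k, hk⟩ := hne
              rw [Finset.mem_filter] at hk
              have hUne : Up f N P1 Q1 ρ1 w k ≠ 0 := by
                intro h0
                have h3 := hk.2
                rw [h0, norm_zero] at h3
                exact absurd h3 (not_lt.2 (Real.exp_pos _).le)
              exact hpair v w hv0 ⟨k, hUne⟩ _ ((Finset.filter_subset _ _).trans hST)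
                fun k hk => (Finset.mem_filter.1 hk).2
            · rw [Finset.not_nonempty_iff_eq_empty.1 hne, Finset.sum_empty]
              exact hKpos.le
        _ = M * K := by rw [Finset.sum_const, Finset.card_range, nsmul_eq_mul]
    · have h1 : ∀ k, Up f N P2 Q2 ρ2 v k = 0 := fun k => by
        by_contra h0
        exact hv0 ⟨k, h0⟩
      have h2 : ∑ k ∈ S, ‖Up f N P2 Q2 ρ2 v k * Ps f g (C * Real.exp (-(v * ρ2))) D ((k : ℝ) / N)‖ ^ 2 = 0 := by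
        refine Finset.sum_eq_zero fun k _ => ?_
        rw [h1 k]
        simp
      rw [h2]
      positivity
  have hNM : (0 : ℝ) ≤ Real.log Q2 / ρ2 + 1 := by positivity
  calc ∑ k ∈ S, ‖UZs f g N P2 Q2 ρ2 C D k‖ ^ 2
      ≤ ∑ k ∈ S, NV * ∑ v ∈ Finset.range NV,
          ‖Up f N P2 Q2 ρ2 v k * Ps f g (C * Real.exp (-(v * ρ2))) D ((k : ℝ) / N)‖ ^ 2 := by
        refine Finset.sum_le_sum fun k _ => ?_
        unfold UZs
        rw [← hNV]
        have h1 := norm_sum_le (Finset.range NV)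
          (fun v : ℕ => Up f N P2 Q2 ρ2 v k * Ps f g (C * Real.exp (-(v * ρ2))) D ((k : ℝ) / N))
        refine (pow_le_pow_left₀ (norm_nonneg _) h1 2).trans ?_
        have h2 := sq_sum_le_card_mul_sum_sq (s := Finset.range NV)
          (f := fun v : ℕ => ‖Up f N P2 Q2 ρ2 v k * Ps f g (C * Real.exp (-(v * ρ2))) D ((k : ℝ) / N)‖)
        rw [Finset.card_range] at h2
        exact h2
    _ = NV * ∑ v ∈ Finset.range NV, ∑ k ∈ S,
          ‖Up f N P2 Q2 ρ2 v k * Ps f g (C * Real.exp (-(v * ρ2))) D ((k : ℝ) / N)‖ ^ 2 := by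
        rw [← Finset.mul_sum, Finset.sum_comm]
    _ ≤ NV * ∑ v ∈ Finset.range NV, (M * K) := by
        refine mul_le_mul_of_nonneg_left (Finset.sum_le_sum fun v _ => hblock v)
          (Nat.cast_nonneg _)
    _ = NV * (NV * (M * K)) := by
        rw [Finset.sum_const, Finset.card_range, nsmul_eq_mul]
    _ ≤ (Real.log Q2 / ρ2 + 1) * ((Real.log Q2 / ρ2 + 1) * ((Real.log Q1 / ρ1 + 1) * K)) := by
        refine mul_le_mul hNle ?_ (by positivity) hNM
        refine mul_le_mul hNle ?_ (by positivity) hNM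
        exact mul_le_mul_of_nonneg_right hMle hKpos.le
    _ = _ := by
        rw [hK]
        ring


end Pool.Agent.SplM
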