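import Pool.Agent.Lib_MP_92ef0c_spm.LsBox
import Pool.Agent.Lib_MP_f1a94e_aq.Defs

/-!
# the non primitive terms of a stage
-/

set_option autoImplicit false

namespace Pool.Agent.SplM

open Pool.Agent.GaussMR (fr mem_fr nv Ls)

open Classical in
/-- `∑_{(x,y)} #{p : p x ≤ 3 C, p y ≤ D}² = ∑_{p, q} #{(x, y) : ..} ≤ ∑_{p, q} (3 C / m) (D / m)`, `m = max p q`,
`≤ 2 ∑_p ∑_{q ≤ p} 3 C D / p² ≤ 6 C D ∑_p 1 / p` (at most `p` values `q ≤ p`). -/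
theorem a2_second (P Q C D : ℝ) (hC : 0 ≤ C) (hD : 0 ≤ D) :
    ∑ z ∈ Spl.PB C D, (∑ p ∈ pp P Q, if (p : ℝ) * z.1 ≤ 3 * C ∧ (p : ℝ) * z.2 ≤ D then (1 : ℝ) else 0) ^ 2 ≤
      6 * (C * D) * Ls P Q := by
  have hpos : ∀ p ∈ pp P Q, (0 : ℝ) < (p : ℝ) := by
    intro p hp
    exact_mod_cast (pp_prime hp).pos
  have hCD : 0 ≤ C * D := mul_nonneg hC hD
  set h : ℕ → ℕ × ℕ → ℝ := fun p z => if (p : ℝ) * z.1 ≤ 3 * C ∧ (p : ℝ) * z.2 ≤ D then 1 else 0 with hh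
  have hh0 : ∀ p z, 0 ≤ h p z := by
    intro p z
    simp only [hh]
    split_ifs <;> norm_num
  have hh1 : ∀ p z, h p z ≤ 1 := by
    intro p z
    simp only [hh]
    split_ifs <;> norm_num
  -- one column
  have hcol : ∀ p ∈ pp P Q, ∑ z ∈ Spl.PB C D, h p z ≤ 3 * (C * D) / (p : ℝ) ^ 2 := by
    intro p hp
    have hp0 := hpos p hp
    have h1 : ∑ z ∈ Spl.PB C D, h p z =
        (((Spl.PB C D).filter (fun z => (p : ℝ) * z.1 ≤ 3 * C ∧ (p : ℝ) * z.2 ≤ D)).card : ℝ) := by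
      rw [Finset.card_filter]
      push_cast
      rfl
    rw [h1]
    have h2 : (Spl.PB C D).filter (fun z => (p : ℝ) * z.1 ≤ 3 * C ∧ (p : ℝ) * z.2 ≤ D) ⊆
        Spl.PB (3 * C / p) (D / p) := by
      intro z hz
      rw [Finset.mem_filter] at hz
      have h3 := Spl.mem_PB.1 hz.1
      refine Spl.mem_PB.2 ⟨⟨h3.1.1, ?_⟩, ⟨h3.2.1.1, ?_⟩, h3.2.2⟩
      · rw [le_div_iff₀ hp0, mul_comm]
        exact hz.2.1
      · rw [le_div_iff₀ hp0, mul_comm]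
        exact hz.2.2
    have h3 : (((Spl.PB C D).filter (fun z => (p : ℝ) * z.1 ≤ 3 * C ∧ (p : ℝ) * z.2 ≤ D)).card : ℝ) ≤
        ((Spl.PB (3 * C / p) (D / p)).card : ℝ) := by
      exact Nat.cast_le.mpr (Finset.card_le_card h2)
    refine h3.trans ((card_PB_le _ _ (by positivity) (by positivity)).trans (le_of_eq ?_))
    field_simp
  -- pairs
  have hpair : ∀ p1 ∈ pp P Q, ∀ p2 ∈ pp P Q, ∑ z ∈ Spl.PB C D, h p1 z * h p2 z ≤
      (if p1 ≤ p2 then 3 * (C * D) / (p2 : ℝ) ^ 2 else 0) +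
        (if p2 ≤ p1 then 3 * (C * D) / (p1 : ℝ) ^ 2 else 0) := by
    intro p1 hp1 p2 hp2
    have q1 : (0 : ℝ) ≤ if p1 ≤ p2 then 3 * (C * D) / (p2 : ℝ) ^ 2 else 0 := by
      split_ifs
      · positivity
      · exact le_rfl
    have q2 : (0 : ℝ) ≤ if p2 ≤ p1 then 3 * (C * D) / (p1 : ℝ) ^ 2 else 0 := by
      split_ifs
      · positivity
      · exact le_rfl
    rcases le_total p1 p2 with hle | hle
    · have e1 : ∑ z ∈ Spl.PB C D, h p1 z * h p2 z ≤ ∑ z ∈ Spl.PB C D, h p2 z :=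
        Finset.sum_le_sum fun z _ => by nlinarith [hh0 p1 z, hh1 p1 z, hh0 p2 z]
      have e2 := hcol p2 hp2
      have e3 : (if p1 ≤ p2 then 3 * (C * D) / (p2 : ℝ) ^ 2 else 0) =
          3 * (C * D) / (p2 : ℝ) ^ 2 := if_pos hle
      linarith
    · have e1 : ∑ z ∈ Spl.PB C D, h p1 z * h p2 z ≤ ∑ z ∈ Spl.PB C D, h p1 z :=
        Finset.sum_le_sum fun z _ => by nlinarith [hh0 p2 z, hh1 p2 z, hh0 p1 z]
      have e2 := hcol p1 hp1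
      have e3 : (if p2 ≤ p1 then 3 * (C * D) / (p1 : ℝ) ^ 2 else 0) =
          3 * (C * D) / (p1 : ℝ) ^ 2 := if_pos hle
      linarith
  -- number of smaller primes
  have hcount : ∀ p2 ∈ pp P Q, ∑ p1 ∈ pp P Q, (if p1 ≤ p2 then 3 * (C * D) / (p2 : ℝ) ^ 2
      else 0) ≤ 3 * (C * D) * (1 / (p2 : ℝ)) := by
    intro p2 hp2
    have hp0 := hpos p2 hp2
    rw [← Finset.sum_filter, Finset.sum_const, nsmul_eq_mul]
    have e1 : ((pp P Q).filter (fun p1 => p1 ≤ p2)).card ≤ p2 := by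
      have hsub : (pp P Q).filter (fun p1 => p1 ≤ p2) ⊆ Finset.Icc 1 p2 := by
        intro q hq
        rw [Finset.mem_filter] at hq
        rw [Finset.mem_Icc]
        exact ⟨(pp_prime hq.1).pos, hq.2⟩
      have := Finset.card_le_card hsub
      simpa using this
    have e2 : (((pp P Q).filter (fun p1 => p1 ≤ p2)).card : ℝ) ≤ p2 := by
      exact_mod_cast e1
    calc (((pp P Q).filter (fun p1 => p1 ≤ p2)).card : ℝ) * (3 * (C * D) / (p2 : ℝ) ^ 2)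
        ≤ (p2 : ℝ) * (3 * (C * D) / (p2 : ℝ) ^ 2) :=
          mul_le_mul_of_nonneg_right e2 (by positivity)
      _ = 3 * (C * D) * (1 / (p2 : ℝ)) := by field_simp
  have hsq : ∀ z, (∑ p ∈ pp P Q, h p z) ^ 2 = ∑ p1 ∈ pp P Q, ∑ p2 ∈ pp P Q, h p1 z * h p2 z := by
    intro z
    rw [sq, Finset.sum_mul_sum]
  calc ∑ z ∈ Spl.PB C D, (∑ p ∈ pp P Q, h p z) ^ 2
      = ∑ z ∈ Spl.PB C D, ∑ p1 ∈ pp P Q, ∑ p2 ∈ pp P Q, h p1 z * h p2 z :=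
        Finset.sum_congr rfl fun z _ => hsq z
    _ = ∑ p1 ∈ pp P Q, ∑ p2 ∈ pp P Q, ∑ z ∈ Spl.PB C D, h p1 z * h p2 z := by
        rw [Finset.sum_comm]
        exact Finset.sum_congr rfl fun p1 _ => Finset.sum_comm
    _ ≤ ∑ p1 ∈ pp P Q, ∑ p2 ∈ pp P Q,
          ((if p1 ≤ p2 then 3 * (C * D) / (p2 : ℝ) ^ 2 else 0) +
            (if p2 ≤ p1 then 3 * (C * D) / (p1 : ℝ) ^ 2 else 0)) :=
        Finset.sum_le_sum fun p1 h1 => Finset.sum_le_sum fun p2 h2 => hpair p1 h1 p2 h2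
    _ = ∑ p2 ∈ pp P Q, ∑ p1 ∈ pp P Q, (if p1 ≤ p2 then 3 * (C * D) / (p2 : ℝ) ^ 2 else 0) +
          ∑ p1 ∈ pp P Q, ∑ p2 ∈ pp P Q,
            (if p2 ≤ p1 then 3 * (C * D) / (p1 : ℝ) ^ 2 else 0) := by
        simp only [Finset.sum_add_distrib]
        congr 1
        exact Finset.sum_comm
    _ ≤ ∑ p2 ∈ pp P Q, 3 * (C * D) * (1 / (p2 : ℝ)) + ∑ p1 ∈ pp P Q, 3 * (C * D) * (1 / (p1 : ℝ)) :=
        add_le_add (Finset.sum_le_sum hcount) (Finset.sum_le_sum hcount)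
    _ = 6 * (C * D) * Ls P Q := by
        rw [← Finset.mul_sum, sum_pp]
        ring

/-- the substitution `z = (x, p y')` -/
theorem A2SM_sub (f g : ℕ → ℂ) {p : ℕ} (hp : p.Prime) (C C' D t : ℝ) (hC : C' ≤ C) :
    f p * nit (-t) p * ∑ z ∈ (Spl.PB C' D).filter (fun z => p ∣ z.2), f z.1 * g z.2 * ch t z =
      ∑ z ∈ Spl.PB C D, (if (z.1 : ℝ) ≤ C' ∧ (p : ℝ) * z.2 ≤ D ∧ ¬ p ∣ z.1 then
        f p * f z.1 * g (p * z.2) else 0) * ch t z := by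
  classical
  have hp0 : 0 < p := hp.pos
  have h1 : ∑ z ∈ Spl.PB C D, (if (z.1 : ℝ) ≤ C' ∧ (p : ℝ) * z.2 ≤ D ∧ ¬ p ∣ z.1 then
        f p * f z.1 * g (p * z.2) else 0) * ch t z =
      ∑ z ∈ (Spl.PB C D).filter (fun z => (z.1 : ℝ) ≤ C' ∧ (p : ℝ) * z.2 ≤ D ∧ ¬ p ∣ z.1),
        f p * f z.1 * g (p * z.2) * ch t z := by
    rw [Finset.sum_filter]
    refine Finset.sum_congr rfl fun z _ => ?_
    split_ifs
    · rfl
    · rw [zero_mul]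
  rw [h1, Finset.mul_sum]
  symm
  refine Finset.sum_bij (fun z _ => (z.1, p * z.2)) ?_ ?_ ?_ ?_
  · intro z hz
    rw [Finset.mem_filter, Spl.mem_PB] at hz
    obtain ⟨⟨⟨h2, h3⟩, ⟨h4, h5⟩, h6⟩, h7, h8, h9⟩ := hz
    rw [Finset.mem_filter, Spl.mem_PB]
    refine ⟨⟨⟨h2, h7⟩, ⟨Nat.mul_pos hp0 h4, ?_⟩, ?_⟩, dvd_mul_right _ _⟩
    · push_cast
      exact h8
    · exact Nat.Coprime.mul_right ((Nat.Prime.coprime_iff_not_dvd hp).2 h9).symm h6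
  · intro z _ z' _ h
    simp only [Prod.mk.injEq] at h
    exact Prod.ext h.1 (Nat.eq_of_mul_eq_mul_left hp0 h.2)
  · intro z' hz'
    rw [Finset.mem_filter, Spl.mem_PB] at hz'
    obtain ⟨⟨⟨h2, h3⟩, ⟨h4, h5⟩, h6⟩, ⟨y, hy⟩⟩ := hz'
    refine ⟨(z'.1, y), ?_, ?_⟩
    · rw [hy] at h4 h5 h6
      have hy0 : 0 < y := Nat.pos_of_mul_pos_left h4
      rw [Finset.mem_filter, Spl.mem_PB]
      push_cast at h5
      have h7 : (1 : ℝ) ≤ p := by exact_mod_cast hp0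
      have h8 : (0 : ℝ) ≤ y := Nat.cast_nonneg _
      refine ⟨⟨⟨h2, h3.trans hC⟩, ⟨hy0, by nlinarith⟩, h6.coprime_mul_left_right⟩, h3, h5, ?_⟩
      exact (Nat.Prime.coprime_iff_not_dvd hp).1 (Nat.Coprime.coprime_mul_right_right h6).symm
    · exact Prod.ext rfl hy.symm
  · intro z hz
    rw [Finset.mem_filter, Spl.mem_PB] at hz
    obtain ⟨⟨⟨h2, h3⟩, ⟨h4, h5⟩, h6⟩, h7, h8, h9⟩ := hz
    have e1 : nit (-t) p * ch t (z.1, p * z.2) = ch t z := ch_mul' t hp0 h4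
    simp only
    rw [← e1]
    ring

open Classical in
/-- weighted number of representations -/
noncomputable def A2SM_w (f g : ℕ → ℂ) (P Q ρ C D : ℝ) (z : ℕ × ℕ) : ℂ :=
  ∑ v ∈ Finset.range (nv Q ρ), ∑ p ∈ bk P Q ρ v,
    if (z.1 : ℝ) ≤ C * Real.exp (-(v * ρ)) ∧ (p : ℝ) * z.2 ≤ D ∧ ¬ p ∣ z.1 then f p * f z.1 * g (p * z.2) else 0

theorem A2SM_eq (f g : ℕ → ℂ) (N : ℕ) (P Q ρ C D : ℝ) (k : ℤ) (hρ : 0 < ρ) (hC : 0 ≤ C) :
    A2S f g N P Q ρ C D k = ∑ z ∈ Spl.PB C D, A2SM_w f g P Q ρ C D z * ch ((k : ℝ) / N) z := by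
  classical
  unfold A2S A2SM_w
  have h1 : ∀ v ∈ Finset.range (nv Q ρ), (∑ p ∈ bk P Q ρ v, f p * nit (-((k : ℝ) / N)) p *
      ∑ z ∈ (Spl.PB (C * Real.exp (-(v * ρ))) D).filter (fun z => p ∣ z.2), f z.1 * g z.2 * ch ((k : ℝ) / N) z) =
      ∑ z ∈ Spl.PB C D, ∑ p ∈ bk P Q ρ v,
        (if (z.1 : ℝ) ≤ C * Real.exp (-(v * ρ)) ∧ (p : ℝ) * z.2 ≤ D ∧ ¬ p ∣ z.1 then
          f p * f z.1 * g (p * z.2) else 0) * ch ((k : ℝ) / N) z := by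
    intro v _
    rw [Finset.sum_comm]
    refine Finset.sum_congr rfl fun p hp => ?_
    have hexp : Real.exp (-(v * ρ)) ≤ 1 := by
      rw [Real.exp_le_one_iff]
      have : (0 : ℝ) ≤ v * ρ := by positivity
      linarith
    exact A2SM_sub f g (bk_prime hp) C _ D _ (by nlinarith)
  rw [Finset.sum_congr rfl h1, Finset.sum_comm]
  refine Finset.sum_congr rfl fun z _ => ?_
  rw [Finset.sum_mul]
  refine Finset.sum_congr rfl fun v _ => ?_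
  rw [Finset.sum_mul]

open Classical in
theorem A2SM_norm (f g : ℕ → ℂ) (hf : CMN f) (hg : ∀ n, ‖g n‖ ≤ 1) (P Q ρ C D : ℝ) (hρ : 0 < ρ) (hρ1 : ρ ≤ 1)
    (hC : 0 ≤ C) (z : ℕ × ℕ) : ‖A2SM_w f g P Q ρ C D z‖ ≤
      ∑ p ∈ pp P Q, if (p : ℝ) * z.1 ≤ 3 * C ∧ (p : ℝ) * z.2 ≤ D then (1 : ℝ) else 0 := by
  set h : ℕ → ℝ := fun p => if (p : ℝ) * z.1 ≤ 3 * C ∧ (p : ℝ) * z.2 ≤ D then 1 else 0 with hh
  have hh0 : ∀ p, 0 ≤ h p := by
    intro p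
    simp only [hh]
    split_ifs <;> norm_num
  have h1 : ‖A2SM_w f g P Q ρ C D z‖ ≤ ∑ v ∈ Finset.range (nv Q ρ), ∑ p ∈ bk P Q ρ v, h p := by
    unfold A2SM_w
    refine (norm_sum_le _ _).trans (Finset.sum_le_sum fun v _ => ?_)
    refine (norm_sum_le _ _).trans (Finset.sum_le_sum fun p hp => ?_)
    by_cases hc : (z.1 : ℝ) ≤ C * Real.exp (-(v * ρ)) ∧ (p : ℝ) * z.2 ≤ D ∧ ¬ p ∣ z.1
    · rw [if_pos hc]
      have h2 : (p : ℝ) * z.1 ≤ 3 * C := by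
        have h3 := (mem_bk.1 hp).2.2
        have hexp : Real.exp ρ ≤ 3 := by
          have := Real.exp_one_lt_d9
          exact (Real.exp_le_exp.mpr hρ1).trans (by linarith)
        calc (p : ℝ) * z.1 ≤ Real.exp ((v + 1) * ρ) * (C * Real.exp (-(v * ρ))) :=
              mul_le_mul h3 hc.1 (Nat.cast_nonneg _) (by positivity)
          _ = Real.exp ρ * C := by
              rw [show (Real.exp ((v + 1) * ρ) * (C * Real.exp (-(v * ρ))) : ℝ) =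
                (Real.exp ((v + 1) * ρ) * Real.exp (-(v * ρ))) * C by ring, ← Real.exp_add]
              congr 2
              ring
          _ ≤ 3 * C := by nlinarith
      have h4 : h p = 1 := by
        simp only [hh]
        exact if_pos ⟨h2, hc.2.1⟩
      rw [h4, norm_mul, norm_mul]
      exact mul_le_one₀ (mul_le_one₀ (hf.bd _) (norm_nonneg _) (hf.bd _)) (norm_nonneg _) (hg _)
    · rw [if_neg hc, norm_zero]
      exact hh0 p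
  refine h1.trans ?_
  rw [← Finset.sum_biUnion]
  · refine Finset.sum_le_sum_of_subset_of_nonneg ?_ fun p _ _ => hh0 p
    intro p hp
    rw [Finset.mem_biUnion] at hp
    obtain ⟨v, _, hv⟩ := hp
    exact (mem_bk.1 hv).1
  · intro v _ v' _ hne
    rw [Function.onFun, Finset.disjoint_left]
    intro p hp hp'
    exact hne (bk_unique hρ hp hp')

/-- Cf. `A2_small` (Lib_MP_f1a94e_ecc/Stage.lean). In `A2S` put `y = p y'`: `(x, y')` is coprime and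
`p^(-it) (p y' / x)^(it) = (y' / x)^(it)` (`ch_mul'`), so `A2S = ∑_{z ∈ PB C D} a z * ch (k/N) z`, where
`a (x, y') = ∑_v ∑_{p ∈ bk v, p y' ≤ D, x ≤ C e^(-vρ), ¬ p ∣ x} f p f x g (p y')` does not depend on `k`;
`p ≤ e^((v+1)ρ)` gives `p x ≤ 3 C`, every `p` lies in one block only, so
`‖a z‖ ≤ #{p ∈ pp : p x ≤ 3 C, p y' ≤ D}`; then `lsB` with `Y = X` and `a2_second`. -/
theorem A2_smallS : ∃ A : ℝ, 0 < A ∧ ∀ (f g : ℕ → ℂ), CMN f → (∀ n, ‖g n‖ ≤ 1) →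
    ∀ (P Q ρ C D X : ℝ) (N T : ℕ), 1 ≤ P → 0 < ρ → ρ ≤ 1 → 1 ≤ N → 1 ≤ X → 0 ≤ C → 0 ≤ D → C * D ≤ X →
    Real.log X ≤ 3 * N → (T : ℝ) ≤ N * X →
    ∑ k ∈ fr T, ‖A2S f g N P Q ρ C D k‖ ^ 2 ≤ A * N * X ^ 2 * Ls P Q := by
  classical
  obtain ⟨A1, hA1, hls⟩ := lsB
  refine ⟨12 * A1, by positivity, ?_⟩
  intro f g hf hg P Q ρ C D X N T _ hρ hρ1 hN hX hC hD hCD hlog hTX
  have hX0 : 0 < X := by linarith
  have hN1 : (1 : ℝ) ≤ N := by exact_mod_cast hN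
  have hN0 : (0 : ℝ) < N := by linarith
  simp only [A2SM_eq f g N P Q ρ C D _ hρ hC]
  refine (hls N C D X T (fun z => A2SM_w f g P Q ρ C D z) hN hX hCD hlog).trans ?_
  have h3 : 0 ≤ Ls P Q := Ls_nonneg P Q
  have h1 : ∑ z ∈ Spl.PB C D, ‖A2SM_w f g P Q ρ C D z‖ ^ 2 ≤ 6 * X * Ls P Q := by
    refine le_trans (Finset.sum_le_sum fun z hz => ?_) ((a2_second P Q C D hC hD).trans ?_)
    · exact pow_le_pow_left₀ (norm_nonneg _) (A2SM_norm f g hf hg P Q ρ C D hρ hρ1 hC z) 2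
    · gcongr
  calc A1 * (T + N * X) * ∑ z ∈ Spl.PB C D, ‖A2SM_w f g P Q ρ C D z‖ ^ 2
      ≤ A1 * (N * X + N * X) * (6 * X * Ls P Q) := by
        apply mul_le_mul _ h1 (Finset.sum_nonneg fun _ _ => by positivity) (by positivity)
        apply mul_le_mul_of_nonneg_left _ hA1.le
        linarith
    _ = 12 * A1 * N * X ^ 2 * Ls P Q := by ring

end Pool.Agent.SplM
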