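import Pool.Agent.Lib_MP_92ef0c_spm.SMDefs

/-!
# Turan-Kubilius for the integers
-/

set_option autoImplicit false

namespace Pool.Agent.SplM

open Pool.Agent.GaussMR (Ls)

theorem om1_eq_sum (P Q : ℝ) (x : ℕ) : om1 P Q x = ∑ p ∈ pp P Q, if p ∣ x then (1 : ℝ) else 0 := by
  unfold om1
  rw [Finset.card_filter]
  push_cast
  rfl

theorem om1_sq (P Q : ℝ) (s : Finset ℕ) : ∑ x ∈ s, (om1 P Q x) ^ 2 =
    ∑ p ∈ pp P Q, ∑ q ∈ pp P Q, ((s.filter (fun x => p ∣ x ∧ q ∣ x)).card : ℝ) := by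
  have h1 : ∀ x ∈ s, (om1 P Q x) ^ 2 = ∑ p ∈ pp P Q, ∑ q ∈ pp P Q, if p ∣ x ∧ q ∣ x then (1 : ℝ) else 0 := by
    intro x _
    rw [om1_eq_sum, sq, Finset.sum_mul_sum]
    refine Finset.sum_congr rfl fun p _ => Finset.sum_congr rfl fun q _ => ?_
    by_cases hp : p ∣ x <;> by_cases hq : q ∣ x <;> simp [hp, hq]
  rw [Finset.sum_congr rfl h1, Finset.sum_comm]
  refine Finset.sum_congr rfl fun p _ => ?_
  rw [Finset.sum_comm]
  refine Finset.sum_congr rfl fun q _ => ?_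
  rw [Finset.card_filter]
  push_cast
  rfl

theorem om1_sum (P Q : ℝ) (s : Finset ℕ) : ∑ x ∈ s, om1 P Q x =
    ∑ p ∈ pp P Q, ((s.filter (fun x => p ∣ x)).card : ℝ) := by
  rw [Finset.sum_congr rfl fun x _ => om1_eq_sum P Q x, Finset.sum_comm]
  refine Finset.sum_congr rfl fun p _ => ?_
  rw [Finset.card_filter]
  push_cast
  rfl

/-- a bound for the double sums -/
theorem pair_bound (P Q : ℝ) (s : Finset ℕ) (B : ℝ) (hB : 0 ≤ B)
    (h1 : ∀ p ∈ pp P Q, ((s.filter (fun x => p ∣ x)).card : ℝ) ≤ B / p)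
    (h2 : ∀ p ∈ pp P Q, ∀ q ∈ pp P Q, p ≠ q → ((s.filter (fun x => p * q ∣ x)).card : ℝ) ≤ B / (p * q : ℕ)) :
    ∑ x ∈ s, (om1 P Q x) ^ 2 ≤ B * Ls P Q + B * Ls P Q ^ 2 := by
  rw [om1_sq]
  have h3 : ∀ p ∈ pp P Q, ∀ q ∈ pp P Q, ((s.filter (fun x => p ∣ x ∧ q ∣ x)).card : ℝ) ≤
      (if p = q then B / p else 0) + B * (1 / p) * (1 / q) := by
    intro p hp q hq
    have hp0 : (0 : ℝ) < p := by exact_mod_cast (pp_prime hp).pos
    have hq0 : (0 : ℝ) < q := by exact_mod_cast (pp_prime hq).pos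
    by_cases hpq : p = q
    · subst hpq
      rw [if_pos rfl]
      have h4 : (s.filter (fun x => p ∣ x ∧ p ∣ x)) = s.filter (fun x => p ∣ x) := by
        refine Finset.filter_congr fun x _ => ?_
        simp
      rw [h4]
      have h5 : 0 ≤ B * (1 / (p : ℝ)) * (1 / p) := by positivity
      linarith [h1 p hp]
    · rw [if_neg hpq, zero_add]
      have hc : p.Coprime q := (Nat.coprime_primes (pp_prime hp) (pp_prime hq)).2 hpq
      have h4 : (s.filter (fun x => p ∣ x ∧ q ∣ x)) = s.filter (fun x => p * q ∣ x) := by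
        refine Finset.filter_congr fun x _ => ?_
        exact ⟨fun h => hc.mul_dvd_of_dvd_of_dvd h.1 h.2, fun h => ⟨dvd_of_mul_right_dvd h, dvd_of_mul_left_dvd h⟩⟩
      rw [h4]
      refine (h2 p hp q hq hpq).trans (le_of_eq ?_)
      push_cast
      field_simp
  refine (Finset.sum_le_sum fun p hp => Finset.sum_le_sum fun q hq => h3 p hp q hq).trans (le_of_eq ?_)
  simp_rw [Finset.sum_add_distrib]
  congr 1
  · rw [← sum_pp, Finset.mul_sum]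
    refine Finset.sum_congr rfl fun p hp => ?_
    rw [Finset.sum_ite_eq, if_pos hp]
    ring
  · rw [← sum_pp, sq, Finset.sum_mul_sum, Finset.mul_sum]
    refine Finset.sum_congr rfl fun p _ => ?_
    rw [Finset.mul_sum]
    refine Finset.sum_congr rfl fun q _ => ?_
    ring

theorem card_mult (n m : ℕ) : ((Finset.Icc 1 n).filter (fun x => m ∣ x)).card = n / m := by
  have h : Finset.Icc 1 n = Finset.Ioc 0 n := by
    ext x
    simp only [Finset.mem_Icc, Finset.mem_Ioc]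
    omega
  rw [h]
  exact Nat.Ioc_filter_dvd_card_eq_div n m

theorem card_pp_le (P Q : ℝ) (hQ : 0 ≤ Q) : ((pp P Q).card : ℝ) ≤ Q := by
  have h1 : pp P Q ⊆ Finset.Icc 1 ⌊Q⌋₊ := by
    intro p hp
    have h2 := mem_pp.1 hp
    rw [Finset.mem_Icc]
    exact ⟨h2.1.one_lt.le, Nat.le_floor h2.2.2.2⟩
  have h3 := Finset.card_le_card h1
  rw [Nat.card_Icc, Nat.add_sub_cancel] at h3
  exact le_trans (by exact_mod_cast h3) (Nat.floor_le hQ)

/-- Turan-Kubilius. With `n = ⌊C⌋`: the number of multiples of `m` in `[1, n]` is `n / m` with an error in `[-1, 0]`;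
`∑_x om1² = ∑_{p, q} #{x : p ∣ x, q ∣ x} ≤ ∑_p n / p + ∑_{p ≠ q} n / (p q) ≤ n (L + L²)`,
`∑_x om1 ≥ ∑_p (n / p - 1) ≥ n L - Q` (at most `Q` primes), so
`∑ (om1 - L)² ≤ n (L + L²) - 2 L (n L - Q) + n L² ≤ n L + 2 L Q`, and `Q ≤ C`. -/
theorem tk1 : ∃ A : ℝ, 0 < A ∧ ∀ P Q C : ℝ, 2 ≤ P → P ≤ Q → Q ^ 2 ≤ C →
    ∑ x ∈ Finset.Icc 1 ⌊C⌋₊, (om1 P Q x - Ls P Q) ^ 2 ≤ A * C * (Ls P Q + 1) := by
  refine ⟨3, by norm_num, ?_⟩
  intro P Q C hP hPQ hQC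
  have hQ : 2 ≤ Q := hP.trans hPQ
  have hC : Q ≤ C := by nlinarith
  have hC0 : 0 ≤ C := by linarith
  set L := Ls P Q with hL
  have hL0 : 0 ≤ L := Ls_nonneg P Q
  set n := ⌊C⌋₊ with hn
  have hnC : (n : ℝ) ≤ C := Nat.floor_le hC0
  have hn0 : (0 : ℝ) ≤ n := Nat.cast_nonneg n
  have h1 : ∑ x ∈ Finset.Icc 1 n, (om1 P Q x) ^ 2 ≤ n * L + n * L ^ 2 := by
    refine pair_bound P Q _ n hn0 ?_ ?_
    · intro p hp
      rw [card_mult]
      exact Nat.cast_div_le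
    · intro p hp q hq _
      rw [card_mult]
      exact Nat.cast_div_le
  have h2 : n * L - Q ≤ ∑ x ∈ Finset.Icc 1 n, om1 P Q x := by
    rw [om1_sum]
    have h3 : ∀ p ∈ pp P Q, (n : ℝ) * (1 / p) - 1 ≤ (((Finset.Icc 1 n).filter (fun x => p ∣ x)).card : ℝ) := by
      intro p hp
      rw [card_mult]
      have h4 : (n : ℝ) / p < ((n / p : ℕ) : ℝ) + 1 := by
        have hp0 : 0 < p := (pp_prime hp).pos
        have hp0' : (0 : ℝ) < p := by exact_mod_cast hp0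
        rw [div_lt_iff₀ hp0']
        have h5 : n < (n / p + 1) * p := by
          have h6 := Nat.div_add_mod n p
          have h7 := Nat.mod_lt n hp0
          nlinarith
        exact_mod_cast h5
      have h5 : (n : ℝ) * (1 / p) = n / p := by ring
      rw [h5]
      linarith
    refine le_trans ?_ (Finset.sum_le_sum h3)
    rw [Finset.sum_sub_distrib, ← Finset.mul_sum, sum_pp, Finset.sum_const, nsmul_eq_mul, mul_one]
    linarith [card_pp_le P Q (by linarith)]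
  have h3 : ∑ x ∈ Finset.Icc 1 n, (om1 P Q x - L) ^ 2 =
      ∑ x ∈ Finset.Icc 1 n, (om1 P Q x) ^ 2 - 2 * L * ∑ x ∈ Finset.Icc 1 n, om1 P Q x + n * L ^ 2 := by
    have h4 : ∀ x ∈ Finset.Icc 1 n, (om1 P Q x - L) ^ 2 = (om1 P Q x) ^ 2 - 2 * L * om1 P Q x + L ^ 2 := by
      intro x _
      ring
    rw [Finset.sum_congr rfl h4, Finset.sum_add_distrib, Finset.sum_sub_distrib, ← Finset.mul_sum,
      Finset.sum_const, Nat.card_Icc, Nat.add_sub_cancel, nsmul_eq_mul]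
  rw [h3]
  have h4 : 2 * L * (n * L - Q) ≤ 2 * L * ∑ x ∈ Finset.Icc 1 n, om1 P Q x :=
    mul_le_mul_of_nonneg_left h2 (by linarith)
  have h5 : n * L ≤ C * L := mul_le_mul_of_nonneg_right hnC hL0
  have h6 : L * Q ≤ L * C := mul_le_mul_of_nonneg_left hC hL0
  nlinarith

theorem card_mult_Ioc (a b m : ℕ) (hab : a ≤ b) : ((Finset.Ioc a b).filter (fun x => m ∣ x)).card + a / m = b / m := by
  have h1 : (Finset.Ioc 0 b).filter (fun x => m ∣ x) =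
      (Finset.Ioc a b).filter (fun x => m ∣ x) ∪ (Finset.Ioc 0 a).filter (fun x => m ∣ x) := by
    ext x
    simp only [Finset.mem_filter, Finset.mem_Ioc, Finset.mem_union]
    constructor
    · rintro ⟨⟨h1, h2⟩, h3⟩
      by_cases h4 : x ≤ a
      · exact Or.inr ⟨⟨h1, h4⟩, h3⟩
      · exact Or.inl ⟨⟨by omega, h2⟩, h3⟩
    · rintro (⟨⟨h1, h2⟩, h3⟩ | ⟨⟨h1, h2⟩, h3⟩)
      · exact ⟨⟨by omega, h2⟩, h3⟩
      · exact ⟨⟨h1, by omega⟩, h3⟩
  have h2 : Disjoint ((Finset.Ioc a b).filter (fun x => m ∣ x)) ((Finset.Ioc 0 a).filter (fun x => m ∣ x)) := by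
    rw [Finset.disjoint_left]
    intro x hx hx'
    simp only [Finset.mem_filter, Finset.mem_Ioc] at hx hx'
    omega
  rw [← Nat.Ioc_filter_dvd_card_eq_div b m, ← Nat.Ioc_filter_dvd_card_eq_div a m, h1, Finset.card_union_of_disjoint h2]

/-- multiples of `m` in `(C, C exp ρ]` -/
theorem card_ann (C ρ : ℝ) (hC : 0 ≤ C) (hρ : 0 < ρ) (hρ1 : ρ ≤ 1) (m : ℕ) (hm : 0 < m) (hmC : (m : ℝ) ≤ ρ * C) :
    (((Finset.Ioc ⌊C⌋₊ ⌊C * Real.exp ρ⌋₊).filter (fun x => m ∣ x)).card : ℝ) ≤ 3 * ρ * C / m := by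
  have hm0 : (0 : ℝ) < m := by exact_mod_cast hm
  have he : Real.exp ρ ≤ 1 + 2 * ρ := by
    have h1 := Real.abs_exp_sub_one_sub_id_le (x := ρ) (by rw [abs_of_pos hρ]; exact hρ1)
    have h2 := (abs_le.1 h1).2
    nlinarith
  have he1 : 1 ≤ Real.exp ρ := Real.one_le_exp hρ.le
  have hle : C ≤ C * Real.exp ρ := by nlinarith
  have h1 := card_mult_Ioc ⌊C⌋₊ ⌊C * Real.exp ρ⌋₊ m (Nat.floor_le_floor hle)
  have h2 : ((⌊C * Real.exp ρ⌋₊ / m : ℕ) : ℝ) ≤ C * Real.exp ρ / m := by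
    refine Nat.cast_div_le.trans ?_
    exact div_le_div_of_nonneg_right (Nat.floor_le (by positivity)) hm0.le
  have h3 : C / m < ((⌊C⌋₊ / m : ℕ) : ℝ) + 1 := by
    rw [← Nat.floor_div_natCast]
    exact Nat.lt_floor_add_one _
  have h4 : (((Finset.Ioc ⌊C⌋₊ ⌊C * Real.exp ρ⌋₊).filter (fun x => m ∣ x)).card : ℝ) + ((⌊C⌋₊ / m : ℕ) : ℝ) =
      ((⌊C * Real.exp ρ⌋₊ / m : ℕ) : ℝ) := by exact_mod_cast h1
  have h5 : 1 ≤ ρ * C / m := by rwa [le_div_iff₀ hm0, one_mul]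
  have h6 : C * Real.exp ρ / m ≤ C / m + 2 * (ρ * C / m) := by
    rw [← mul_div_assoc, ← add_div]
    refine div_le_div_of_nonneg_right ?_ hm0.le
    nlinarith
  have h7 : 3 * ρ * C / m = 3 * (ρ * C / m) := by ring
  rw [h7]
  linarith

/-- `∑_{C < x ≤ C e^ρ} om1² = ∑_{p, q} #{x ∈ (C, C e^ρ] : p ∣ x, q ∣ x}`; the number of multiples of `m`
(`m = p` or `m = p q`, `m ≤ Q² ≤ ρ C`) in `(C, C e^ρ]` is at most `C (e^ρ - 1) / m + 1 ≤ 2 ρ C / m + ρ C / m`. -/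
theorem ann1 : ∃ A : ℝ, 0 < A ∧ ∀ P Q C ρ : ℝ, 2 ≤ P → P ≤ Q → 0 < ρ → ρ ≤ 1 → Q ^ 2 ≤ ρ * C →
    ∑ x ∈ Finset.Ioc ⌊C⌋₊ ⌊C * Real.exp ρ⌋₊, (om1 P Q x) ^ 2 ≤ A * ρ * C * (Ls P Q + 1) ^ 2 := by
  refine ⟨3, by norm_num, ?_⟩
  intro P Q C ρ hP hPQ hρ hρ1 hQC
  have hQ : 2 ≤ Q := hP.trans hPQ
  have hρC : 0 < ρ * C := lt_of_lt_of_le (by positivity) hQC
  have hC0 : 0 < C := pos_of_mul_pos_right hρC hρ.le
  have hL0 : 0 ≤ Ls P Q := Ls_nonneg P Q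
  have h1 : ∀ p ∈ pp P Q, (0 : ℝ) < p ∧ (p : ℝ) ≤ Q := fun p hp =>
    ⟨by exact_mod_cast (pp_prime hp).pos, (mem_pp.1 hp).2.2.2⟩
  have h2 : ∑ x ∈ Finset.Ioc ⌊C⌋₊ ⌊C * Real.exp ρ⌋₊, (om1 P Q x) ^ 2 ≤
      3 * ρ * C * Ls P Q + 3 * ρ * C * Ls P Q ^ 2 := by
    refine pair_bound P Q _ (3 * ρ * C) (by positivity) ?_ ?_
    · intro p hp
      refine card_ann C ρ hC0.le hρ hρ1 p (pp_prime hp).pos ?_
      nlinarith [(h1 p hp).2]
    · intro p hp q hq _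
      refine card_ann C ρ hC0.le hρ hρ1 (p * q) (Nat.mul_pos (pp_prime hp).pos (pp_prime hq).pos) ?_
      push_cast
      have h3 : (p : ℝ) * q ≤ Q * Q := mul_le_mul (h1 p hp).2 (h1 q hq).2 (h1 q hq).1.le (by linarith)
      nlinarith
  refine h2.trans ?_
  nlinarith

end Pool.Agent.SplM
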