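import Pool.Agent.Lib_MP_92ef0c_spm.StageIdS
import Pool.Agent.Lib_MP_92ef0c_spm.Tk1
import Pool.Agent.Lib_MP_92ef0c_spm.A2Sm

/-!
# one stage
-/

set_option autoImplicit false

namespace Pool.Agent.SplM

open Pool.Agent.GaussMR (fr mem_fr nv Ls)

/-- sums over subsets of a product whose first components lie in `I` -/
theorem stageS_fst (h : ℕ → ℝ) (hh : ∀ x, 0 ≤ h x) (I : Finset ℕ) (s : Finset (ℕ × ℕ)) (D : ℝ) (hD : 0 ≤ D)
    (hs : ∀ z ∈ s, z.1 ∈ I ∧ z.2 ∈ Finset.Icc 1 ⌊D⌋₊) : ∑ z ∈ s, h z.1 ≤ D * ∑ x ∈ I, h x := by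
  calc ∑ z ∈ s, h z.1 ≤ ∑ z ∈ I ×ˢ Finset.Icc 1 ⌊D⌋₊, h z.1 :=
        Finset.sum_le_sum_of_subset_of_nonneg (fun z hz => Finset.mem_product.2 (hs z hz)) (fun _ _ _ => hh _)
    _ = ⌊D⌋₊ * ∑ x ∈ I, h x := by
        rw [Finset.sum_product, Finset.mul_sum]
        refine Finset.sum_congr rfl fun x _ => ?_
        show ∑ _y ∈ Finset.Icc 1 ⌊D⌋₊, h x = _
        rw [Finset.sum_const, Nat.card_Icc, nsmul_eq_mul]
        simp
    _ ≤ D * ∑ x ∈ I, h x :=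
        mul_le_mul_of_nonneg_right (Nat.floor_le hD) (Finset.sum_nonneg fun x _ => hh x)

theorem stageS_third (f g : ℕ → ℂ) (N : ℕ) (P Q ρ C D : ℝ) (k : ℤ) (hρ : 0 < ρ) (hC : 0 ≤ C) :
    A3S f g N P Q ρ C D k = ∑ z ∈ Spl.PB (C * Real.exp ρ) D,
      (if z ∈ Spl.PB C D then 0 else f z.1 * g z.2 * (mS P Q ρ C z.1 : ℂ)) * ch ((k : ℝ) / N) z := by
  classical
  have hexp1 : 1 ≤ Real.exp ρ := Real.one_le_exp hρ.le
  have hsub : Spl.PB C D ⊆ Spl.PB (C * Real.exp ρ) D := by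
    intro z hz
    rw [Spl.mem_PB] at hz ⊢
    exact ⟨⟨hz.1.1, hz.1.2.trans (by nlinarith)⟩, hz.2⟩
  rw [← Finset.sum_sdiff hsub, A3S]
  have e2 : ∑ z ∈ Spl.PB C D,
      (if z ∈ Spl.PB C D then 0 else f z.1 * g z.2 * (mS P Q ρ C z.1 : ℂ)) * ch ((k : ℝ) / N) z = 0 := by
    refine Finset.sum_eq_zero fun z hz => ?_
    rw [if_pos hz, zero_mul]
  rw [e2, add_zero]
  refine Finset.sum_congr rfl fun z hz => ?_
  rw [if_neg (Finset.mem_sdiff.mp hz).2]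

/-- Cf. `stageM` (Lib_MP_f1a94e_ecc/Stage.lean): by `stage_idS` the difference is
`∑_{PB C D} f g (L - om1 x) ch - A2S - A3S`. First part: `lsB` with `Y = X`, `∑_z (om1 x - L)² ≤ D ∑_x (om1 x - L)²`
(the number of `y ≤ D` is at most `D`) and `tk1`. Second part: `A2_smallS`. Third part: `lsB` on
`PB (C e^ρ) D` with `Y = 3 X`, `mS ≤ om1` and `ann1`. -/
theorem stageS : ∃ A : ℝ, 0 < A ∧ ∀ (f g : ℕ → ℂ), CMN f → (∀ n, ‖g n‖ ≤ 1) →
    ∀ (P Q ρ C D X : ℝ) (N T : ℕ), 2 ≤ P → P ≤ Q → 1 ≤ N → 1 ≤ D → C * D ≤ X → Q ^ 2 ≤ ρ * C → 0 < ρ → ρ ≤ 1 →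
    Real.log (3 * X) ≤ 3 * N → (T : ℝ) ≤ N * X → 1 ≤ Ls P Q →
    ∑ k ∈ fr T, ‖(Ls P Q : ℂ) * Ps f g C D ((k : ℝ) / N) - UZs f g N P Q ρ C D k‖ ^ 2 ≤
      A * N * X ^ 2 * Ls P Q ^ 2 * (1 / Ls P Q + ρ) := by
  classical
  obtain ⟨C1, hC1, hls⟩ := lsB
  obtain ⟨C2, hC2, htk⟩ := tk1
  obtain ⟨C3, hC3, hann⟩ := ann1
  obtain ⟨C4, hC4, hA2s⟩ := A2_smallS
  refine ⟨3 * (4 * C1 * C2 + C4 + 16 * C1 * C3), by positivity, ?_⟩
  intro f g hf hgb P Q ρ C D X N T hP hPQ hN hD hCD hQC hρ hρ1 hlog hTX hLs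
  have hQ2 : 2 ≤ Q := hP.trans hPQ
  have hD0 : 0 ≤ D := by linarith
  have hρC : 4 ≤ ρ * C := by nlinarith
  have hC0 : 0 < C := by
    rcases lt_trichotomy C 0 with h | h | h
    · nlinarith
    · rw [h, mul_zero] at hρC
      linarith
    · exact h
  have hC4' : 4 ≤ C := by nlinarith
  have hQC' : Q ^ 2 ≤ C := by nlinarith
  have hX1 : 1 ≤ X := by nlinarith
  have hX0 : 0 < X := by linarith
  have hNr : (1 : ℝ) ≤ N := by exact_mod_cast hN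
  have hN0 : (0 : ℝ) < N := by linarith
  have hLs0 : 0 < Ls P Q := by linarith
  have hT0 : (0 : ℝ) ≤ T := Nat.cast_nonneg _
  set L := Ls P Q with hL
  have hlogX : Real.log X ≤ 3 * N := (Real.log_le_log hX0 (by linarith)).trans hlog
  have hL1 : L + 1 ≤ 2 * L := by linarith
  -- the three parts
  have hdec : ∀ k : ℤ, (L : ℂ) * Ps f g C D ((k : ℝ) / N) - UZs f g N P Q ρ C D k =
      ∑ z ∈ Spl.PB C D, (f z.1 * g z.2 * ((L - om1 P Q z.1 : ℝ) : ℂ)) * ch ((k : ℝ) / N) z -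
        A2S f g N P Q ρ C D k - A3S f g N P Q ρ C D k := by
    intro k
    rw [stage_idS f g hf N P Q ρ C D k (by linarith) hPQ hρ hC0.le]
    have e1 : ∑ z ∈ Spl.PB C D, (f z.1 * g z.2 * ((L - om1 P Q z.1 : ℝ) : ℂ)) * ch ((k : ℝ) / N) z =
        (L : ℂ) * Ps f g C D ((k : ℝ) / N) -
          ∑ z ∈ Spl.PB C D, f z.1 * g z.2 * (om1 P Q z.1 : ℂ) * ch ((k : ℝ) / N) z := by
      rw [Ps, Finset.mul_sum, ← Finset.sum_sub_distrib]
      refine Finset.sum_congr rfl fun z _ => ?_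
      push_cast
      ring
    rw [e1]
    ring
  have h3 : ∀ a b c : ℂ, ‖a - b - c‖ ^ 2 ≤ 3 * (‖a‖ ^ 2 + ‖b‖ ^ 2 + ‖c‖ ^ 2) := by
    intro a b c
    have e1 : ‖a - b - c‖ ≤ ‖a‖ + ‖b‖ + ‖c‖ := by
      have g1 := norm_sub_le (a - b) c
      have g2 := norm_sub_le a b
      linarith
    have e2 := pow_le_pow_left₀ (norm_nonneg _) e1 2
    nlinarith [sq_nonneg (‖a‖ - ‖b‖), sq_nonneg (‖b‖ - ‖c‖), sq_nonneg (‖a‖ - ‖c‖)]
  -- first part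
  have hA1 : ∑ k ∈ fr T, ‖∑ z ∈ Spl.PB C D, (f z.1 * g z.2 * ((L - om1 P Q z.1 : ℝ) : ℂ)) *
      ch ((k : ℝ) / N) z‖ ^ 2 ≤ 4 * C1 * C2 * N * X ^ 2 * L := by
    refine (hls N C D X T (fun z => f z.1 * g z.2 * ((L - om1 P Q z.1 : ℝ) : ℂ)) hN hX1 hCD hlogX).trans ?_
    have e1 : ∑ z ∈ Spl.PB C D, ‖f z.1 * g z.2 * ((L - om1 P Q z.1 : ℝ) : ℂ)‖ ^ 2 ≤
        ∑ z ∈ Spl.PB C D, (om1 P Q z.1 - L) ^ 2 := by
      refine Finset.sum_le_sum fun z _ => ?_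
      rw [norm_mul, norm_mul, Complex.norm_real, Real.norm_eq_abs, mul_pow, sq_abs]
      have g1 : (‖f z.1‖ * ‖g z.2‖) ^ 2 ≤ 1 :=
        pow_le_one₀ (by positivity) (mul_le_one₀ (hf.bd _) (norm_nonneg _) (hgb _))
      calc (‖f z.1‖ * ‖g z.2‖) ^ 2 * (L - om1 P Q z.1) ^ 2 ≤ 1 * (L - om1 P Q z.1) ^ 2 :=
            mul_le_mul_of_nonneg_right g1 (sq_nonneg _)
        _ = (om1 P Q z.1 - L) ^ 2 := by ring
    have e2 : ∑ z ∈ Spl.PB C D, (om1 P Q z.1 - L) ^ 2 ≤ D * (C2 * C * (L + 1)) := by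
      refine (stageS_fst (fun x => (om1 P Q x - L) ^ 2) (fun _ => sq_nonneg _) (Finset.Icc 1 ⌊C⌋₊)
        (Spl.PB C D) D hD0 ?_).trans ?_
      · intro z hz
        unfold Spl.PB at hz
        exact Finset.mem_product.1 (Finset.mem_filter.1 hz).1
      · exact mul_le_mul_of_nonneg_left (htk P Q C hP hPQ hQC') hD0
    have e3 : D * (C2 * C * (L + 1)) ≤ C2 * X * (2 * L) := by
      calc D * (C2 * C * (L + 1)) = C2 * (C * D) * (L + 1) := by ring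
        _ ≤ C2 * X * (2 * L) := by
          apply mul_le_mul _ hL1 (by linarith) (by positivity)
          exact mul_le_mul_of_nonneg_left hCD hC2.le
    calc C1 * (T + N * X) * ∑ z ∈ Spl.PB C D, ‖f z.1 * g z.2 * ((L - om1 P Q z.1 : ℝ) : ℂ)‖ ^ 2
        ≤ C1 * (N * X + N * X) * (C2 * X * (2 * L)) := by
          apply mul_le_mul _ (e1.trans (e2.trans e3)) (Finset.sum_nonneg fun _ _ => by positivity) (by positivity)
          apply mul_le_mul_of_nonneg_left _ hC1.le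
          linarith
      _ = 4 * C1 * C2 * N * X ^ 2 * L := by ring
  -- third part
  have hA3 : ∑ k ∈ fr T, ‖A3S f g N P Q ρ C D k‖ ^ 2 ≤ 16 * C1 * C3 * N * X ^ 2 * L ^ 2 * ρ := by
    have hexp : Real.exp ρ ≤ 3 := by
      have := Real.exp_one_lt_d9
      exact (Real.exp_le_exp.mpr hρ1).trans (by linarith)
    have hexp1 : 1 ≤ Real.exp ρ := Real.one_le_exp hρ.le
    have hCeD : C * Real.exp ρ * D ≤ 3 * X := by
      calc C * Real.exp ρ * D = (C * D) * Real.exp ρ := by ring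
        _ ≤ X * 3 := mul_le_mul hCD hexp (Real.exp_pos _).le hX0.le
        _ = 3 * X := by ring
    set a : ℕ × ℕ → ℂ := fun z => if z ∈ Spl.PB C D then 0 else f z.1 * g z.2 * (mS P Q ρ C z.1 : ℂ) with ha
    have e1 : ∀ k : ℤ, A3S f g N P Q ρ C D k =
        ∑ z ∈ Spl.PB (C * Real.exp ρ) D, a z * ch ((k : ℝ) / N) z := fun k =>
      stageS_third f g N P Q ρ C D k hρ hC0.le
    have hsub : Spl.PB C D ⊆ Spl.PB (C * Real.exp ρ) D := by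
      intro z hz
      rw [Spl.mem_PB] at hz ⊢
      exact ⟨⟨hz.1.1, hz.1.2.trans (by nlinarith)⟩, hz.2⟩
    have e2 : ∑ z ∈ Spl.PB (C * Real.exp ρ) D, ‖a z‖ ^ 2 ≤ C3 * ρ * X * (2 * L) ^ 2 := by
      rw [← Finset.sum_sdiff hsub]
      have e3 : ∑ z ∈ Spl.PB C D, ‖a z‖ ^ 2 = 0 := by
        refine Finset.sum_eq_zero fun z hz => ?_
        rw [ha]
        simp [hz]
      rw [e3, add_zero]
      calc ∑ z ∈ Spl.PB (C * Real.exp ρ) D \ Spl.PB C D, ‖a z‖ ^ 2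
          ≤ ∑ z ∈ Spl.PB (C * Real.exp ρ) D \ Spl.PB C D, (om1 P Q z.1) ^ 2 := by
            refine Finset.sum_le_sum fun z hz => ?_
            have e4 : z ∉ Spl.PB C D := (Finset.mem_sdiff.mp hz).2
            have e6 : ‖a z‖ ≤ mS P Q ρ C z.1 := by
              rw [ha]
              simp only [e4, if_false]
              rw [norm_mul, Complex.norm_natCast, norm_mul]
              exact mul_le_of_le_one_left (Nat.cast_nonneg _) (mul_le_one₀ (hf.bd _) (norm_nonneg _) (hgb _))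
            exact pow_le_pow_left₀ (norm_nonneg _) (e6.trans (mS_le P Q ρ C hρ z.1)) 2
        _ ≤ D * ∑ x ∈ Finset.Ioc ⌊C⌋₊ ⌊C * Real.exp ρ⌋₊, (om1 P Q x) ^ 2 := by
            refine stageS_fst (fun x => (om1 P Q x) ^ 2) (fun _ => sq_nonneg _)
              (Finset.Ioc ⌊C⌋₊ ⌊C * Real.exp ρ⌋₊) (Spl.PB (C * Real.exp ρ) D \ Spl.PB C D) D hD0 ?_
            intro z hz
            obtain ⟨hz1, hz2⟩ := Finset.mem_sdiff.1 hz
            have hz3 := Spl.mem_PB.1 hz1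
            have hz4 : ¬ ((z.1 : ℝ) ≤ C) := fun h => hz2 (Spl.mem_PB.2 ⟨⟨hz3.1.1, h⟩, hz3.2⟩)
            refine ⟨Finset.mem_Ioc.2 ⟨?_, Nat.le_floor hz3.1.2⟩,
              Finset.mem_Icc.2 ⟨hz3.2.1.1, Nat.le_floor hz3.2.1.2⟩⟩
            rw [Nat.floor_lt hC0.le]
            exact not_le.1 hz4
        _ ≤ D * (C3 * ρ * C * (L + 1) ^ 2) :=
            mul_le_mul_of_nonneg_left (hann P Q C ρ hP hPQ hρ hρ1 hQC) hD0
        _ = C3 * ρ * (C * D) * (L + 1) ^ 2 := by ring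
        _ ≤ C3 * ρ * X * (2 * L) ^ 2 := by
            apply mul_le_mul _ _ (by positivity) (by positivity)
            · exact mul_le_mul_of_nonneg_left hCD (by positivity)
            · exact pow_le_pow_left₀ (by linarith) hL1 2
    simp only [e1]
    refine (hls N (C * Real.exp ρ) D (3 * X) T a hN (by linarith) hCeD hlog).trans ?_
    calc C1 * (T + N * (3 * X)) * ∑ z ∈ Spl.PB (C * Real.exp ρ) D, ‖a z‖ ^ 2
        ≤ C1 * (N * X + N * (3 * X)) * (C3 * ρ * X * (2 * L) ^ 2) := by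
          apply mul_le_mul _ e2 (Finset.sum_nonneg fun _ _ => by positivity) (by positivity)
          apply mul_le_mul_of_nonneg_left _ hC1.le
          linarith
      _ = 16 * C1 * C3 * N * X ^ 2 * L ^ 2 * ρ := by ring
  -- second part
  have hA2 : ∑ k ∈ fr T, ‖A2S f g N P Q ρ C D k‖ ^ 2 ≤ C4 * N * X ^ 2 * L :=
    hA2s f g hf hgb P Q ρ C D X N T (by linarith) hρ hρ1 hN hX1 hC0.le hD0 hCD hlogX hTX
  calc ∑ k ∈ fr T, ‖(L : ℂ) * Ps f g C D ((k : ℝ) / N) - UZs f g N P Q ρ C D k‖ ^ 2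
      ≤ ∑ k ∈ fr T, 3 * (‖∑ z ∈ Spl.PB C D, (f z.1 * g z.2 * ((L - om1 P Q z.1 : ℝ) : ℂ)) *
          ch ((k : ℝ) / N) z‖ ^ 2 + ‖A2S f g N P Q ρ C D k‖ ^ 2 + ‖A3S f g N P Q ρ C D k‖ ^ 2) := by
        refine Finset.sum_le_sum fun k _ => ?_
        rw [hdec]
        exact h3 _ _ _
    _ = 3 * (∑ k ∈ fr T, ‖∑ z ∈ Spl.PB C D, (f z.1 * g z.2 * ((L - om1 P Q z.1 : ℝ) : ℂ)) *
          ch ((k : ℝ) / N) z‖ ^ 2 + ∑ k ∈ fr T, ‖A2S f g N P Q ρ C D k‖ ^ 2 +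
          ∑ k ∈ fr T, ‖A3S f g N P Q ρ C D k‖ ^ 2) := by
        rw [← Finset.mul_sum, Finset.sum_add_distrib, Finset.sum_add_distrib]
    _ ≤ 3 * (4 * C1 * C2 * N * X ^ 2 * L + C4 * N * X ^ 2 * L +
          16 * C1 * C3 * N * X ^ 2 * L ^ 2 * ρ) := by linarith
    _ ≤ 3 * (4 * C1 * C2 + C4 + 16 * C1 * C3) * N * X ^ 2 * L ^ 2 * (1 / L + ρ) := by
        have e1 : X ^ 2 * L ^ 2 * (1 / L) = X ^ 2 * L := by field_simp
        have e4 : 3 * (4 * C1 * C2 + C4 + 16 * C1 * C3) * N * X ^ 2 * L ^ 2 *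
            (1 / L + ρ) = 3 * (4 * C1 * C2 + C4 + 16 * C1 * C3) * N *
              (X ^ 2 * L + X ^ 2 * L ^ 2 * ρ) := by
          rw [← e1]
          ring
        rw [e4]
        have p2 : 0 ≤ C1 * C2 * N * (X ^ 2 * L ^ 2 * ρ) := by positivity
        have p4 : 0 ≤ C4 * N * (X ^ 2 * L ^ 2 * ρ) := by positivity
        have p6 : 0 ≤ C1 * C3 * N * (X ^ 2 * L) := by positivity
        nlinarith

end Pool.Agent.SplM
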