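import Pool.Agent.Lib_MP_92ef0c_spm.Small1S
import Pool.Agent.Lib_MP_92ef0c_spm.SmallMS
import Pool.Agent.Lib_MP_92ef0c_spm.StageS
import Pool.Agent.Lib_MP_f1a94e_mu.Chain

/-!
# all stages together
-/

set_option autoImplicit false

namespace Pool.Agent.SplM

open Pool.Agent.GaussMR (fr mem_fr nv Ls Err Adm chain_split)

/-- Copy of `chain` (Lib_MP_f1a94e_ecc/Chain.lean) with the additional factor `N`. `Q_j² ≤ r_j C`: `Q_j² ≤ X^(1/10)`,
`r_j C ≥ X^(-1/4) X^(2/5) = X^(3/20)`. `l + 1 + log Q_j + log X ≤ N + (21 / 20) (3 / 2) N ≤ 3 N`. -/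
theorem chainS0 : ∃ A : ℝ, 0 < A ∧ ∀ (f g : ℕ → ℂ), CMN f → (∀ n, ‖g n‖ ≤ 1) →
    ∀ (C D X : ℝ) (N T J : ℕ) (P Q r a l : ℕ → ℝ), Adm X J P Q r a l → 1 ≤ N → 1 ≤ D → C * D ≤ X →
    X ^ (2 / 5 : ℝ) ≤ C → Real.log X ≤ 3 / 2 * N → (∀ j < J, l j + 1 ≤ N) → (T : ℝ) ≤ N * X / Q 0 →
    ∑ k ∈ smallS f N T (P J) (Q J) (r J) (a J), ‖Ps f g C D ((k : ℝ) / N)‖ ^ 2 ≤
      A * N * X ^ 2 * Err A J P Q r a l := by
  classical
  obtain ⟨C1, hC1, hstage⟩ := stageS
  obtain ⟨C2, hC2, hsmall1⟩ := small1S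
  obtain ⟨C3, hC3, hsmallM⟩ := smallMS
  set A : ℝ := 2 * C1 + 2 * C2 + C3 + 2 with hC
  refine ⟨A, by positivity, ?_⟩
  intro f g hf hg C D X N T J P Q r a l hadm hN1 hD1 hCD hXC hlX hlN hT
  obtain ⟨hA, hB⟩ := hadm
  -- general facts
  have hPge : ∀ j ≤ J, 2 ≤ P j := by
    intro j hj
    have h1 := (hA j hj).1
    have h2 := Real.add_one_le_exp (2 : ℝ)
    linarith
  have hQge : ∀ j ≤ J, 1 ≤ Q j := by
    intro j hj
    have h1 := hPge j hj
    have h2 := (hA j hj).2.1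
    linarith
  have hQX : ∀ j ≤ J, Q j ≤ X := by
    intro j hj
    have h1 := hQge j hj
    have h2 := (hA j hj).2.2.1
    calc Q j = Q j ^ 1 := (pow_one _).symm
      _ ≤ Q j ^ 20 := pow_le_pow_right₀ h1 (by norm_num)
      _ ≤ X := h2
  have hX1 : 1 ≤ X := (hQge 0 (Nat.zero_le _)).trans (hQX 0 (Nat.zero_le _))
  have hN0 : (0 : ℝ) < N := by exact_mod_cast hN1
  have hN1' : (1 : ℝ) ≤ N := by exact_mod_cast hN1
  have hTX : (T : ℝ) ≤ N * X := by
    have h1 := hQge 0 (Nat.zero_le _)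
    exact hT.trans (div_le_self (mul_nonneg hN0.le (by linarith)) h1)
  have hX0 : 0 < X := by linarith
  have hC0 : 0 < C := (Real.rpow_pos_of_pos hX0 _).trans_le hXC
  have hlX3 : Real.log (3 * X) ≤ 3 * N := by
    rw [Real.log_mul (by norm_num) hX0.ne']
    have h1 : Real.log 3 ≤ 3 / 2 := by
      rw [Real.log_le_iff_le_exp (by norm_num)]
      have := Real.quadratic_le_exp_of_nonneg (show (0 : ℝ) ≤ 3 / 2 by norm_num)
      norm_num at this ⊢
      linarith
    linarith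
  have hlQ20 : ∀ j ≤ J, 20 * Real.log (Q j) ≤ Real.log X := by
    intro j hj
    have h1 := hQge j hj
    have h2 := Real.log_le_log (by positivity) (hA j hj).2.2.1
    rw [Real.log_pow] at h2
    push_cast at h2
    exact h2
  have hlX3' : Real.log X ≤ 3 * N := by linarith
  have hQC : ∀ j ≤ J, Q j ^ 2 ≤ r j * C := by
    intro j hj
    obtain ⟨-, -, h20, -, -, hr, -⟩ := hA j hj
    have h1 := hQge j hj
    have hq : Q j ^ 2 ≤ X ^ (1 / 10 : ℝ) := by
      have h2 : Q j ^ 2 = (Q j ^ 20) ^ (1 / 10 : ℝ) := by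
        rw [← Real.rpow_natCast, ← Real.rpow_natCast, ← Real.rpow_mul (by linarith)]
        norm_num
      rw [h2]
      exact Real.rpow_le_rpow (by positivity) h20 (by norm_num)
    have hr' : X ^ (3 / 20 : ℝ) ≤ r j * C := by
      have h2 : X ^ (3 / 20 : ℝ) = X ^ (-(1 / 4 : ℝ)) * X ^ (2 / 5 : ℝ) := by
        rw [← Real.rpow_add hX0]
        norm_num
      rw [h2]
      exact mul_le_mul hr hXC (Real.rpow_pos_of_pos hX0 _).le
        ((Real.rpow_pos_of_pos hX0 _).le.trans hr)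
    exact hq.trans ((Real.rpow_le_rpow_of_exponent_le hX1 (by norm_num)).trans hr')
  -- one stage
  have hone : ∀ j ≤ J, ∀ (S : Finset ℤ), S ⊆ fr T → ∀ (B : ℝ),
      ∑ k ∈ S, ‖UZs f g N (P j) (Q j) (r j) C D k‖ ^ 2 ≤ B →
      ∑ k ∈ S, ‖Ps f g C D ((k : ℝ) / N)‖ ^ 2 ≤ 2 * C1 * (N * X ^ 2) * (1 / Ls (P j) (Q j) + r j) + 2 * B := by
    intro j hj S hS B hB'
    obtain ⟨g1, g2, g3, g4, g5, g6, g7, g8, g9⟩ := hA j hj
    have h1 := hstage f g hf hg (P j) (Q j) (r j) C D X N T (hPge j hj) g2 hN1 hD1 hCD (hQC j hj) g4 g5 hlX3 hTX g7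
    set L : ℝ := Ls (P j) (Q j) with hL
    have hL0 : 0 < L := by linarith
    have h2 : ∑ k ∈ S, ‖(L : ℂ) * Ps f g C D ((k : ℝ) / N) - UZs f g N (P j) (Q j) (r j) C D k‖ ^ 2 ≤
        C1 * N * X ^ 2 * L ^ 2 * (1 / L + r j) :=
      (Finset.sum_le_sum_of_subset_of_nonneg hS (fun _ _ _ => by positivity)).trans h1
    calc ∑ k ∈ S, ‖Ps f g C D ((k : ℝ) / N)‖ ^ 2
        ≤ ∑ k ∈ S, (2 / L ^ 2 * ‖(L : ℂ) * Ps f g C D ((k : ℝ) / N) - UZs f g N (P j) (Q j) (r j) C D k‖ ^ 2 +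
            2 * ‖UZs f g N (P j) (Q j) (r j) C D k‖ ^ 2) :=
          Finset.sum_le_sum fun k _ => chain_split L g7 _ _
      _ = 2 / L ^ 2 * ∑ k ∈ S, ‖(L : ℂ) * Ps f g C D ((k : ℝ) / N) - UZs f g N (P j) (Q j) (r j) C D k‖ ^ 2 +
            2 * ∑ k ∈ S, ‖UZs f g N (P j) (Q j) (r j) C D k‖ ^ 2 := by
          rw [Finset.sum_add_distrib, ← Finset.mul_sum, ← Finset.mul_sum]
      _ ≤ 2 / L ^ 2 * (C1 * N * X ^ 2 * L ^ 2 * (1 / L + r j)) + 2 * B := by gcongr
      _ = 2 * C1 * (N * X ^ 2) * (1 / L + r j) + 2 * B := by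
          congr 1
          field_simp
  have hsub : ∀ j, smallS f N T (P j) (Q j) (r j) (a j) ⊆ fr T := fun j => Finset.filter_subset _ _
  have main : ∀ J' ≤ J, ∑ k ∈ smallS f N T (P J') (Q J') (r J') (a J'), ‖Ps f g C D ((k : ℝ) / N)‖ ^ 2 ≤
      A * (N * X ^ 2) * Err A J' P Q r a l := by
    intro J'
    induction J' with
    | zero =>
      intro h0
      obtain ⟨g1, g2, g3, g4, g5, g6, g7, g8, g9⟩ := hA 0 h0
      have h1 := hsmall1 f g hf hg (P 0) (Q 0) (r 0) C D X (a 0) N T _ (hPge 0 h0) g2 (hQX 0 h0) g4 g5 g8 g9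
        hN1 hC0.le (by linarith) hCD hlX3' hT (hsub 0) (fun k hk v => (Finset.mem_filter.mp hk).2 v)
      have h2 := hone 0 h0 _ (hsub 0) _ h1
      refine h2.trans ?_
      unfold Err
      simp only [zero_add, Finset.range_one, Finset.sum_singleton, Finset.range_zero,
        Finset.sum_empty, add_zero]
      have e1 : 0 ≤ 1 / Ls (P 0) (Q 0) + r 0 := by
        have : 0 ≤ 1 / Ls (P 0) (Q 0) := by
          apply div_nonneg zero_le_one
          linarith
        linarith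
      have e2 : 0 ≤ (Real.log (Q 0) / r 0 + 1) ^ 2 * P 0 ^ (-(2 * a 0)) := by
        have := hPge 0 h0
        positivity
      have e3 : 2 * C1 * (N * X ^ 2) * (1 / Ls (P 0) (Q 0) + r 0) ≤
          A * (N * X ^ 2) * (1 / Ls (P 0) (Q 0) + r 0) := by
        have : 2 * C1 ≤ A := by rw [hC]; linarith
        gcongr
      have e4 : 2 * (C2 * N * X ^ 2 * (Real.log (Q 0) / r 0 + 1) ^ 2 * P 0 ^ (-(2 * a 0))) ≤
          A * (N * X ^ 2) * ((Real.log (Q 0) / r 0 + 1) ^ 2 * P 0 ^ (-(2 * a 0))) := by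
        have h3 : 2 * C2 ≤ A := by rw [hC]; linarith
        calc 2 * (C2 * N * X ^ 2 * (Real.log (Q 0) / r 0 + 1) ^ 2 * P 0 ^ (-(2 * a 0)))
            = (2 * C2) * (N * X ^ 2) * ((Real.log (Q 0) / r 0 + 1) ^ 2 * P 0 ^ (-(2 * a 0))) := by ring
          _ ≤ A * (N * X ^ 2) * ((Real.log (Q 0) / r 0 + 1) ^ 2 * P 0 ^ (-(2 * a 0))) := by gcongr
      linarith
    | succ J' ih =>
      intro hJ
      have hJ' : J' ≤ J := by omega
      have ihJ := ih hJ'
      obtain ⟨g1, g2, g3, g4, g5, g6, g7, g8, g9⟩ := hA (J' + 1) hJ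
      obtain ⟨f1, f2, f3, f4, f5, f6, f7, f8, f9⟩ := hA J' hJ'
      obtain ⟨b1, b2, b3⟩ := hB J' (by omega)
      set S1 : Finset ℤ := smallS f N T (P (J' + 1)) (Q (J' + 1)) (r (J' + 1)) (a (J' + 1)) with hS1
      set S0 : Finset ℤ := smallS f N T (P J') (Q J') (r J') (a J') with hS0
      set B : ℝ := N * X ^ 2 * (Real.log (Q (J' + 1)) / r (J' + 1) + 1) ^ 2 * (Real.log (Q J') / r J' + 1) *
        Q J' ^ 2 * Real.exp (C3 * (l J' + 2) * Real.log (l J' + 2)) *
        P (J' + 1) ^ (-(2 * (a (J' + 1) - a J'))) with hBdef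
      have hlN' : l J' + 1 + Real.log (Q J') + Real.log X ≤ 3 * N := by
        have i1 := hlN J' (by omega)
        have i2 := hlQ20 J' hJ'
        linarith
      have h1 : ∑ k ∈ S1 \ S0, ‖UZs f g N (P (J' + 1)) (Q (J' + 1)) (r (J' + 1)) C D k‖ ^ 2 ≤ B := by
        refine hsmallM f g hf hg (P J') (Q J') (P (J' + 1)) (Q (J' + 1)) (r J') (r (J' + 1)) C D X (a J')
          (a (J' + 1)) (l J') N T (S1 \ S0) f1 f2 (hQX J' hJ') (by have := hPge (J' + 1) hJ; linarith)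
          g2 (hQX _ hJ) b2 b3 f4 f5 g4 g5 f8 b1 g9 hN1 hC0.le (by linarith) hCD hlN' hTX
          (Finset.sdiff_subset.trans (hsub _)) ?_ ?_
        · intro k hk
          rw [Finset.mem_sdiff] at hk
          by_contra hc
          push Not at hc
          apply hk.2
          rw [hS0]
          exact Finset.mem_filter.mpr ⟨hsub _ hk.1, hc⟩
        · intro k hk v
          rw [Finset.mem_sdiff] at hk
          exact (Finset.mem_filter.mp hk.1).2 v
      have h2 := hone (J' + 1) hJ (S1 \ S0) (Finset.sdiff_subset.trans (hsub _)) B h1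
      have h3 : ∑ k ∈ S1, ‖Ps f g C D ((k : ℝ) / N)‖ ^ 2 ≤
          ∑ k ∈ S1 \ S0, ‖Ps f g C D ((k : ℝ) / N)‖ ^ 2 + ∑ k ∈ S0, ‖Ps f g C D ((k : ℝ) / N)‖ ^ 2 := by
        have h4 : S1 ⊆ (S1 \ S0) ∪ S0 := by
          intro k hk
          rw [Finset.mem_union, Finset.mem_sdiff]
          by_cases h : k ∈ S0
          · exact Or.inr h
          · exact Or.inl ⟨hk, h⟩
        rw [← Finset.sum_union Finset.sdiff_disjoint]
        exact Finset.sum_le_sum_of_subset_of_nonneg h4 (fun _ _ _ => by positivity)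
      have h5 : Err A (J' + 1) P Q r a l = Err A J' P Q r a l +
          (1 / Ls (P (J' + 1)) (Q (J' + 1)) + r (J' + 1)) +
          (Real.log (Q (J' + 1)) / r (J' + 1) + 1) ^ 2 * (Real.log (Q J') / r J' + 1) *
          Q J' ^ 2 * Real.exp (A * (l J' + 2) * Real.log (l J' + 2)) *
          P (J' + 1) ^ (-(2 * (a (J' + 1) - a J'))) := by
        have hh : ∀ (u v : ℕ → ℝ) (b : ℝ),
            (∑ j ∈ Finset.range (J' + 1 + 1), u j) + b + ∑ j ∈ Finset.range (J' + 1), v j =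
            ((∑ j ∈ Finset.range (J' + 1), u j) + b + ∑ j ∈ Finset.range J', v j) + u (J' + 1) +
              v J' := by
          intro u v b
          rw [Finset.sum_range_succ u (J' + 1), Finset.sum_range_succ v J']
          ring
        exact hh _ _ _
      have e1 : 2 * C1 * (N * X ^ 2) * (1 / Ls (P (J' + 1)) (Q (J' + 1)) + r (J' + 1)) ≤
          A * (N * X ^ 2) * (1 / Ls (P (J' + 1)) (Q (J' + 1)) + r (J' + 1)) := by
        have h6 : 0 ≤ 1 / Ls (P (J' + 1)) (Q (J' + 1)) + r (J' + 1) := by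
          have : 0 ≤ 1 / Ls (P (J' + 1)) (Q (J' + 1)) := by
            apply div_nonneg zero_le_one
            linarith
          linarith
        have : 2 * C1 ≤ A := by rw [hC]; linarith
        gcongr
      have e2 : 2 * B ≤ A * (N * X ^ 2) * ((Real.log (Q (J' + 1)) / r (J' + 1) + 1) ^ 2 *
          (Real.log (Q J') / r J' + 1) *
          Q J' ^ 2 * Real.exp (A * (l J' + 2) * Real.log (l J' + 2)) *
          P (J' + 1) ^ (-(2 * (a (J' + 1) - a J')))) := by
        have hlog : 0 ≤ Real.log (l J' + 2) := Real.log_nonneg (by linarith)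
        have hC3C : C3 ≤ A := by rw [hC]; linarith
        have h2C : (2 : ℝ) ≤ A := by rw [hC]; linarith
        have hexp : Real.exp (C3 * (l J' + 2) * Real.log (l J' + 2)) ≤
            Real.exp (A * (l J' + 2) * Real.log (l J' + 2)) := by
          rw [Real.exp_le_exp]
          have : 0 ≤ l J' + 2 := by linarith
          gcongr
        have hlQ : 0 ≤ Real.log (Q J') / r J' + 1 := by
          have : 0 ≤ Real.log (Q J') := Real.log_nonneg (hQge _ hJ')
          positivity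
        have hPp : 0 < P (J' + 1) := by have := hPge _ hJ; linarith
        rw [hBdef]
        calc 2 * (N * X ^ 2 * (Real.log (Q (J' + 1)) / r (J' + 1) + 1) ^ 2 * (Real.log (Q J') / r J' + 1) *
              Q J' ^ 2 * Real.exp (C3 * (l J' + 2) * Real.log (l J' + 2)) *
              P (J' + 1) ^ (-(2 * (a (J' + 1) - a J'))))
            = 2 * (N * X ^ 2) * ((Real.log (Q (J' + 1)) / r (J' + 1) + 1) ^ 2 *
              (Real.log (Q J') / r J' + 1) *
              Q J' ^ 2 * Real.exp (C3 * (l J' + 2) * Real.log (l J' + 2)) *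
              P (J' + 1) ^ (-(2 * (a (J' + 1) - a J')))) := by ring
          _ ≤ A * (N * X ^ 2) * ((Real.log (Q (J' + 1)) / r (J' + 1) + 1) ^ 2 *
              (Real.log (Q J') / r J' + 1) *
              Q J' ^ 2 * Real.exp (A * (l J' + 2) * Real.log (l J' + 2)) *
              P (J' + 1) ^ (-(2 * (a (J' + 1) - a J')))) := by gcongr
      rw [h5]
      have e3 : A * (N * X ^ 2) * (Err A J' P Q r a l +
          (1 / Ls (P (J' + 1)) (Q (J' + 1)) + r (J' + 1)) +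
          (Real.log (Q (J' + 1)) / r (J' + 1) + 1) ^ 2 * (Real.log (Q J') / r J' + 1) *
          Q J' ^ 2 * Real.exp (A * (l J' + 2) * Real.log (l J' + 2)) *
          P (J' + 1) ^ (-(2 * (a (J' + 1) - a J')))) =
          A * (N * X ^ 2) * Err A J' P Q r a l +
          A * (N * X ^ 2) * (1 / Ls (P (J' + 1)) (Q (J' + 1)) + r (J' + 1)) +
          A * (N * X ^ 2) * ((Real.log (Q (J' + 1)) / r (J' + 1) + 1) ^ 2 * (Real.log (Q J') / r J' + 1) *
          Q J' ^ 2 * Real.exp (A * (l J' + 2) * Real.log (l J' + 2)) *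
          P (J' + 1) ^ (-(2 * (a (J' + 1) - a J')))) := by ring
      rw [e3]
      linarith
  have hfin := main J le_rfl
  rw [mul_assoc A (N : ℝ) (X ^ 2)]
  exact hfin

end Pool.Agent.SplM
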