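import Mathlib

/-!
# tuples of primes with the same product
-/

set_option autoImplicit false

namespace Pool.Agent.SplM

private theorem permN_exists {α : Type*} {l : ℕ} (x y : Fin l → α)
    (h : Multiset.map y Finset.univ.val = Multiset.map x Finset.univ.val) :
    ∃ σ : Equiv.Perm (Fin l), y = x ∘ σ := by
  classical
  have hc : ∀ c : α, Nonempty ({a // y a = c} ≃ {b // x b = c}) := by
    intro c
    apply Fintype.card_eq.1
    have h1 := congrArg (Multiset.count c) h
    rw [Multiset.count_map, Multiset.count_map] at h1
    rw [Fintype.card_subtype, Fintype.card_subtype]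
    have e1 : (Finset.univ.filter (fun a : Fin l => y a = c)).card =
        (Multiset.filter (fun a => c = y a) Finset.univ.val).card := by
      rw [← Finset.filter_val, Finset.card_def]
      congr 2
      ext a
      simp [eq_comm]
    have e2 : (Finset.univ.filter (fun a : Fin l => x a = c)).card =
        (Multiset.filter (fun a => c = x a) Finset.univ.val).card := by
      rw [← Finset.filter_val, Finset.card_def]
      congr 2
      ext a
      simp [eq_comm]
    rw [e1, e2]
    exact h1
  refine ⟨Equiv.ofFiberEquiv (f := y) (g := x) (fun c => (hc c).some), ?_⟩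
  funext i
  exact (Equiv.ofFiberEquiv_map (f := y) (g := x) (fun c => (hc c).some) i).symm

/-- Tuples `y` of primes with `∏ y = ∏ x` are permutations of `x` (`List.ofFn`, `Nat.perm_of_prod_eq..` or
`Nat.primeFactorsList_unique`); cf. `prod_fiber` in Lib_MP_f1a94e_mr/Perm.lean. -/
theorem prod_fiberN {l : ℕ} (x : Fin l → ℕ) (hx : ∀ i, (x i).Prime) :
    Set.ncard {y : Fin l → ℕ | (∀ i, (y i).Prime) ∧ ∏ i, y i = ∏ i, x i} ≤ l.factorial := by
  have hsub : {y : Fin l → ℕ | (∀ i, (y i).Prime) ∧ ∏ i, y i = ∏ i, x i} ⊆
      Set.range (fun σ : Equiv.Perm (Fin l) => x ∘ σ) := by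
    rintro y ⟨hy, hprod⟩
    have hrel : Multiset.Rel Associated (Multiset.map y Finset.univ.val)
        (Multiset.map x Finset.univ.val) := by
      apply prime_factors_unique
      · intro a ha
        obtain ⟨i, -, rfl⟩ := Multiset.mem_map.1 ha
        exact (hy i).prime
      · intro a ha
        obtain ⟨i, -, rfl⟩ := Multiset.mem_map.1 ha
        exact (hx i).prime
      · have e : (Multiset.map y Finset.univ.val).prod = (Multiset.map x Finset.univ.val).prod :=
          hprod
        rw [e]
        exact Associated.refl _
    have heq : Multiset.map y Finset.univ.val = Multiset.map x Finset.univ.val := by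
      rw [← Multiset.rel_eq]
      refine hrel.mono ?_
      intro a _ b _ hab
      exact associated_iff_eq.1 hab
    obtain ⟨σ, hσ⟩ := permN_exists x y heq
    exact ⟨σ, hσ.symm⟩
  refine (Set.ncard_le_ncard hsub (Set.finite_range _)).trans ?_
  rw [← Set.image_univ]
  refine (Set.ncard_image_le (Set.finite_univ)).trans ?_
  rw [Set.ncard_univ, Nat.card_eq_fintype_card, Fintype.card_perm, Fintype.card_fin]

end Pool.Agent.SplM
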