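import Pool.Agent.Lib_MP_f1a94e_mu.Params
import Pool.Agent.Lib_MP_92ef0c_spm.ChainS
import Pool.Agent.Lib_MP_92ef0c_spm.FewS

/-!
# the chain theorem
-/

set_option autoImplicit false

namespace Pool.Agent.SplM

open Pool.Agent.GaussMR (fr mem_fr nv Ls Err Adm params)

/-- one term of the last sum of `Err` -/
theorem err_term {C X : ℝ} {J : ℕ} {P Q r a l : ℕ → ℝ} (hadm : Adm X J P Q r a l) {j : ℕ} (hj : j < J) :
    Real.exp (C * (l j + 2) * Real.log (l j + 2)) * P (j + 1) ^ (-2 : ℝ) ≤ Err C J P Q r a l := by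
  obtain ⟨hA, hB⟩ := hadm
  have hPge : ∀ i ≤ J, 1 ≤ P i := by
    intro i hi
    have h1 := (hA i hi).1
    have h2 := Real.add_one_le_exp (2 : ℝ)
    linarith
  have hQge : ∀ i ≤ J, 1 ≤ Q i := fun i hi => (hPge i hi).trans (hA i hi).2.1
  have hlQ : ∀ i ≤ J, 0 ≤ Real.log (Q i) := fun i hi => Real.log_nonneg (hQge i hi)
  have hf : ∀ i ∈ Finset.range J, 0 ≤ (Real.log (Q (i + 1)) / r (i + 1) + 1) ^ 2 * (Real.log (Q i) / r i + 1) *
      Q i ^ 2 * Real.exp (C * (l i + 2) * Real.log (l i + 2)) * P (i + 1) ^ (-(2 * (a (i + 1) - a i))) := by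
    intro i hi
    rw [Finset.mem_range] at hi
    have h1 := hlQ i hi.le
    have h2 := hlQ (i + 1) hi
    have h3 := (hA i hi.le).2.2.2.1
    have h4 := (hA (i + 1) hi).2.2.2.1
    have h5 := hPge (i + 1) hi
    have h6 : 0 ≤ P (i + 1) ^ (-(2 * (a (i + 1) - a i))) := Real.rpow_nonneg (by linarith) _
    positivity
  have h1 := Finset.single_le_sum hf (Finset.mem_range.2 hj)
  have h2 : 0 ≤ ∑ i ∈ Finset.range (J + 1), (1 / Ls (P i) (Q i) + r i) := by
    refine Finset.sum_nonneg fun i hi => ?_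
    rw [Finset.mem_range] at hi
    have h3 := (hA i (by omega)).2.2.2.1
    have h4 : 0 ≤ 1 / Ls (P i) (Q i) := by
      have := (hA i (by omega)).2.2.2.2.2.2.1
      exact div_nonneg zero_le_one (by linarith)
    linarith
  have h3 : 0 ≤ (Real.log (Q 0) / r 0 + 1) ^ 2 * P 0 ^ (-(2 * a 0)) := by
    have := hPge 0 (by omega)
    have h4 : 0 ≤ P 0 ^ (-(2 * a 0)) := Real.rpow_nonneg (by linarith) _
    positivity
  have hle : (Real.log (Q (j + 1)) / r (j + 1) + 1) ^ 2 * (Real.log (Q j) / r j + 1) *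
      Q j ^ 2 * Real.exp (C * (l j + 2) * Real.log (l j + 2)) * P (j + 1) ^ (-(2 * (a (j + 1) - a j))) ≤
      Err C J P Q r a l := by
    unfold Err
    linarith
  refine le_trans ?_ hle
  have g1 : 1 ≤ (Real.log (Q (j + 1)) / r (j + 1) + 1) ^ 2 := by
    apply one_le_pow₀
    have := div_nonneg (hlQ (j + 1) hj) (hA (j + 1) hj).2.2.2.1.le
    linarith
  have g2 : 1 ≤ Real.log (Q j) / r j + 1 := by
    have := div_nonneg (hlQ j hj.le) (hA j hj.le).2.2.2.1.le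
    linarith
  have g3 : 1 ≤ Q j ^ 2 := one_le_pow₀ (hQge j hj.le)
  have g4 : P (j + 1) ^ (-2 : ℝ) ≤ P (j + 1) ^ (-(2 * (a (j + 1) - a j))) := by
    apply Real.rpow_le_rpow_of_exponent_le (hPge (j + 1) hj)
    have e1 := (hA (j + 1) hj).2.2.2.2.2.2.2.2
    have e2 := (hA j hj.le).2.2.2.2.2.2.2.1
    linarith
  have g5 : 1 ≤ (Real.log (Q (j + 1)) / r (j + 1) + 1) ^ 2 * (Real.log (Q j) / r j + 1) * Q j ^ 2 :=
    one_le_mul_of_one_le_of_one_le (one_le_mul_of_one_le_of_one_le g1 g2) g3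
  have hexp := Real.exp_pos (C * (l j + 2) * Real.log (l j + 2))
  have hPp : 0 ≤ P (j + 1) ^ (-2 : ℝ) := Real.rpow_nonneg (by have := hPge (j + 1) hj; linarith) _
  calc Real.exp (C * (l j + 2) * Real.log (l j + 2)) * P (j + 1) ^ (-2 : ℝ)
      = 1 * Real.exp (C * (l j + 2) * Real.log (l j + 2)) * P (j + 1) ^ (-2 : ℝ) := by ring
    _ ≤ (Real.log (Q (j + 1)) / r (j + 1) + 1) ^ 2 * (Real.log (Q j) / r j + 1) * Q j ^ 2 *
          Real.exp (C * (l j + 2) * Real.log (l j + 2)) * P (j + 1) ^ (-(2 * (a (j + 1) - a j))) := by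
        gcongr

/-- `Err` is monotone in the constant -/
theorem err_mono {C C' X : ℝ} (hC : C ≤ C') {J : ℕ} {P Q r a l : ℕ → ℝ} (hadm : Adm X J P Q r a l) :
    Err C J P Q r a l ≤ Err C' J P Q r a l := by
  obtain ⟨hA, hB⟩ := hadm
  unfold Err
  refine add_le_add le_rfl (Finset.sum_le_sum fun i hi => ?_)
  rw [Finset.mem_range] at hi
  have hPge : ∀ i ≤ J, 1 ≤ P i := by
    intro i hi
    have h1 := (hA i hi).1
    have h2 := Real.add_one_le_exp (2 : ℝ)
    linarith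
  have hQge : ∀ i ≤ J, 1 ≤ Q i := fun i hi => (hPge i hi).trans (hA i hi).2.1
  have h1 : 0 ≤ Real.log (Q i) := Real.log_nonneg (hQge i hi.le)
  have h3 := (hA i hi.le).2.2.2.1
  have h6 : 0 ≤ P (i + 1) ^ (-(2 * (a (i + 1) - a i))) :=
    Real.rpow_nonneg (by have := hPge (i + 1) hi; linarith) _
  have hl := (hB i hi).2.1
  have hlog : 0 ≤ Real.log (l i + 2) := Real.log_nonneg (by linarith)
  have hexp : Real.exp (C * (l i + 2) * Real.log (l i + 2)) ≤ Real.exp (C' * (l i + 2) * Real.log (l i + 2)) := by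
    rw [Real.exp_le_exp]
    have : 0 ≤ l i + 2 := by linarith
    gcongr
  have h7 : 0 ≤ (Real.log (Q (i + 1)) / r (i + 1) + 1) ^ 2 * (Real.log (Q i) / r i + 1) * Q i ^ 2 := by
    positivity
  gcongr

/-- Copy of `chainC` (Lib_MP_f1a94e_ecc/Main.lean). `l j + 1 ≤ N`: the `j`-th term of the last sum of `Err` is at
least `exp (A (l+2) log (l+2)) Q_(j+1)^(-2)`, and `Err ≤ 1`, `A ≥ 1`, `Q_(j+1)² ≤ X^(1/10)`. -/
theorem chainS (ε δ : ℝ) (hε : 0 < ε) (hδ : 0 < δ) : ∃ Q0 X0 : ℝ, 1 ≤ Q0 ∧ ∀ X : ℝ, X0 ≤ X →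
    ∀ C D : ℝ, X ^ (2 / 5 : ℝ) ≤ C → 1 ≤ D → C * D ≤ X → ∀ N : ℕ, Real.log X ≤ 3 / 2 * N → (N : ℝ) ≤ 3 * Real.log X →
    ∀ f g : ℕ → ℂ, CMN f → (∀ n, ‖g n‖ ≤ 1) → ∀ T : ℕ, (T : ℝ) ≤ N * X / Q0 →
    ∃ S : Finset ℤ, S ⊆ fr T ∧ (S.card : ℝ) ≤ X ^ δ ∧
      ∑ k ∈ fr T \ S, ‖Ps f g C D ((k : ℝ) / N)‖ ^ 2 ≤ ε * N * X ^ 2 := by
  classical
  obtain ⟨A, hA, hchain⟩ := chainS0
  set CS : ℝ := A + 1 with hCSdef
  have hCS : 0 < CS := by positivity
  set δ' : ℝ := min δ 1 with hδ'def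
  have hδ' : 0 < δ' := lt_min hδ one_pos
  have hδ'1 : δ' ≤ 1 := min_le_right _ _
  have hδ'K : δ' ≤ δ := min_le_left _ _
  set α : ℝ := δ' / 8 with hαdef
  set C2 : ℝ := 32 / δ' with hC2def
  have hα : 0 < α := by positivity
  have hαq : α ≤ 1 / 4 := by rw [hαdef]; linarith
  have hα1 : α ≤ 1 := by linarith
  have hC2 : 32 ≤ C2 := by
    rw [hC2def, le_div_iff₀ hδ']
    linarith
  have hC2δ : 1 / C2 = δ' / 32 := by
    rw [hC2def]
    field_simp
  have hε1 : 0 < min (ε / CS) 1 := lt_min (by positivity) one_pos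
  obtain ⟨M, ρ, Q0, hM1, hρ, hρ1, hQ0, XP, hparams⟩ :=
    params CS α C2 (min (ε / CS) 1) hCS hα hα1 (by linarith) hε1
  obtain ⟨XF, hfew⟩ := fewS α C2 M ρ (δ' / 4) hα hαq (by linarith) hM1 hρ hρ1 (by positivity)
  refine ⟨Q0, max 3 (max XP XF), hQ0, fun X hX C D hC hD hCD N hN1 hN2 f g hf hg T hT => ?_⟩
  simp only [max_le_iff] at hX
  obtain ⟨hX3, hXP, hXF⟩ := hX
  have hXpos : 0 < X := by linarith
  have hX1 : 1 ≤ X := by linarith
  have hlogX : 0 < Real.log X := Real.log_pos (by linarith)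
  have hN0 : (0 : ℝ) < N := by linarith
  have hNpos : 1 ≤ N := by exact_mod_cast hN0
  have hTX : (T : ℝ) ≤ N * X := hT.trans (div_le_self (by positivity) hQ0)
  obtain ⟨J, P, Q, r, a, l, hadm, hQ0', hPJ, hQJ, hrJ, haJ, herr⟩ := hparams X hXP
  have hlN : ∀ j < J, l j + 1 ≤ N := by
    intro j hj
    obtain ⟨hA', hB'⟩ := hadm
    have h1 := err_term (C := CS) ⟨hA', hB'⟩ hj
    have h2 : Real.exp (CS * (l j + 2) * Real.log (l j + 2)) * P (j + 1) ^ (-2 : ℝ) ≤ 1 :=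
      h1.trans (herr.trans (min_le_right _ _))
    have hP1 : Real.exp 2 ≤ P (j + 1) := (hA' (j + 1) hj).1
    have hP0 : 0 < P (j + 1) := (Real.exp_pos 2).trans_le hP1
    have hPQ := (hA' (j + 1) hj).2.1
    have hQX := (hA' (j + 1) hj).2.2.1
    have hQ0'' : 0 < Q (j + 1) := hP0.trans_le hPQ
    have hl1 : 1 ≤ l j := (hB' j hj).2.1
    have h3 : Real.exp (CS * (l j + 2) * Real.log (l j + 2)) ≤ Real.exp (2 * Real.log (P (j + 1))) := by
      have e1 : P (j + 1) ^ (-2 : ℝ) = Real.exp (-(2 * Real.log (P (j + 1)))) := by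
        rw [Real.rpow_def_of_pos hP0]
        congr 1
        ring
      rw [e1, ← Real.exp_add, Real.exp_le_one_iff] at h2
      rw [Real.exp_le_exp]
      linarith
    rw [Real.exp_le_exp] at h3
    have h4 : Real.log (P (j + 1)) ≤ Real.log (Q (j + 1)) := Real.log_le_log hP0 hPQ
    have h5 : 20 * Real.log (Q (j + 1)) ≤ Real.log X := by
      have := Real.log_le_log (by positivity) hQX
      rw [Real.log_pow] at this
      exact_mod_cast this
    have h6 : (1 : ℝ) ≤ Real.log (l j + 2) := by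
      rw [Real.le_log_iff_exp_le (by linarith)]
      have := Real.exp_one_lt_d9
      linarith
    have h7 : l j + 2 ≤ CS * (l j + 2) * Real.log (l j + 2) := by
      have e1 : 1 ≤ CS := by rw [hCSdef]; linarith
      have e2 : 0 ≤ l j + 2 := by linarith
      calc l j + 2 = 1 * (l j + 2) * 1 := by ring
        _ ≤ CS * (l j + 2) * Real.log (l j + 2) := by gcongr
    linarith
  have hch := hchain f g hf hg C D X N T J P Q r a l hadm hNpos hD hCD hC hN1 hlN (by rw [hQ0']; exact hT)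
  have hErr : Err A J P Q r a l ≤ ε / CS :=
    (err_mono (by rw [hCSdef]; linarith) hadm).trans (herr.trans (min_le_left _ _))
  have hb : ∑ k ∈ smallS f N T (P J) (Q J) (r J) (a J), ‖Ps f g C D ((k : ℝ) / N)‖ ^ 2 ≤ ε * N * X ^ 2 := by
    refine hch.trans ?_
    calc A * N * X ^ 2 * Err A J P Q r a l ≤ A * N * X ^ 2 * (ε / CS) :=
          mul_le_mul_of_nonneg_left hErr (by positivity)
      _ = (A / CS) * (ε * N * X ^ 2) := by field_simp
      _ ≤ 1 * (ε * N * X ^ 2) := by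
          refine mul_le_mul_of_nonneg_right ?_ (by positivity)
          rw [div_le_one hCS, hCSdef]
          linarith
      _ = ε * N * X ^ 2 := one_mul _
  rw [hPJ, hQJ, hrJ, haJ] at hb
  set S : Finset ℤ := (fr T).filter (fun k => ¬∀ v : ℕ,
    ‖Up f N (Real.log X ^ C2) (Real.log X ^ (C2 * M)) ρ v k‖ ≤ Real.exp ((1 - α) * (v * ρ))) with hSdef
  have hSsub : S ⊆ fr T := Finset.filter_subset _ _
  refine ⟨S, hSsub, ?_, ?_⟩
  · have h1 := hfew X hXF f hf N T hN1 hN2 hTX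
    have hfinS : {k : ℤ | k ∈ fr T ∧ ∃ v : ℕ, Real.exp ((1 - α) * (v * ρ)) <
        ‖Up f N (Real.log X ^ C2) (Real.log X ^ (C2 * M)) ρ v k‖}.Finite :=
      (fr T).finite_toSet.subset fun k hk => hk.1
    have h2' : S.card ≤ Set.ncard {k : ℤ | k ∈ fr T ∧ ∃ v : ℕ,
        Real.exp ((1 - α) * (v * ρ)) <
        ‖Up f N (Real.log X ^ C2) (Real.log X ^ (C2 * M)) ρ v k‖} := by
      rw [← Set.ncard_coe_finset S]
      refine Set.ncard_le_ncard (fun k hk => ?_) hfinS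
      have hk' : k ∈ S := hk
      have h3 := (Finset.mem_filter.1 hk').2
      push Not at h3
      exact ⟨hSsub hk', h3⟩
    have h2 : (S.card : ℝ) ≤ (Set.ncard {k : ℤ | k ∈ fr T ∧ ∃ v : ℕ,
        Real.exp ((1 - α) * (v * ρ)) <
        ‖Up f N (Real.log X ^ C2) (Real.log X ^ (C2 * M)) ρ v k‖} : ℝ) := by
      exact_mod_cast h2'
    refine (h2.trans h1).trans ?_
    apply Real.rpow_le_rpow_of_exponent_le hX1
    rw [hC2δ, hαdef]
    linarith
  · refine le_trans (le_of_eq ?_) hb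
    apply Finset.sum_congr _ (fun _ _ => rfl)
    unfold smallS
    ext k
    simp only [hSdef, Finset.mem_sdiff, Finset.mem_filter]
    tauto

end Pool.Agent.SplM
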