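import Pool.Agent.Lib_MP_92ef0c_sp.SDefs0
import Pool.Agent.Lib_MP_f1a94e_mr.StageId

/-!
# MP_92ef0c_nt, split twin, block M: definitions

Sums over coprime pairs `(x, y)` in a box with the characters `(y / x) ^ (i t)`, `t = k / N`. The primes which are
extracted divide `x`; they are the primes `1 mod 4`, indexed as in `Lib_MP_f1a94e_mr` (so that `Ls` is reused).
-/

set_option autoImplicit false

namespace Pool.Agent.SplM

open Pool.Agent.GaussMR (fr mem_fr nm nv Ls)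

/-- completely multiplicative functions bounded by one -/
structure CMN (f : ℕ → ℂ) : Prop where
  mul : ∀ m n, f (m * n) = f m * f n
  bd : ∀ n, ‖f n‖ ≤ 1

/-- `n ^ (i t)` -/
noncomputable def nit (t : ℝ) (n : ℕ) : ℂ := Complex.exp ((t * Real.log n : ℝ) * Complex.I)

/-- `(y / x) ^ (i t)` -/
noncomputable def ch (t : ℝ) (z : ℕ × ℕ) : ℂ := Complex.exp ((t * Spl.dirn z : ℝ) * Complex.I)

/-- the sum over the coprime pairs of a box -/
noncomputable def Ps (f g : ℕ → ℂ) (C D t : ℝ) : ℂ := ∑ z ∈ Spl.PB C D, f z.1 * g z.2 * ch t z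

/-- the primes `1 mod 4` with `P < p ≤ Q` -/
noncomputable def pp (P Q : ℝ) : Finset ℕ := (GaussMR.PP P Q).image nm

/-- the block of `pp P Q` in `(exp (v ρ), exp ((v + 1) ρ)]` -/
noncomputable def bk (P Q ρ : ℝ) (v : ℕ) : Finset ℕ := (GaussMR.blk P Q ρ v).image nm

/-- the number of primes of `pp P Q` dividing `x` -/
noncomputable def om1 (P Q : ℝ) (x : ℕ) : ℝ := (((pp P Q).filter (fun p => p ∣ x)).card : ℝ)

/-- the prime polynomial of a block -/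
noncomputable def Up (f : ℕ → ℂ) (N : ℕ) (P Q ρ : ℝ) (v : ℕ) (k : ℤ) : ℂ :=
  ∑ p ∈ bk P Q ρ v, f p * nit (-((k : ℝ) / N)) p

/-- the factorised main term of a stage -/
noncomputable def UZs (f g : ℕ → ℂ) (N : ℕ) (P Q ρ C D : ℝ) (k : ℤ) : ℂ :=
  ∑ v ∈ Finset.range (nv Q ρ), Up f N P Q ρ v k * Ps f g (C * Real.exp (-(v * ρ))) D ((k : ℝ) / N)

/-- terms `(p x, y)` with `p ∣ y` -/
noncomputable def A2S (f g : ℕ → ℂ) (N : ℕ) (P Q ρ C D : ℝ) (k : ℤ) : ℂ :=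
  ∑ v ∈ Finset.range (nv Q ρ), ∑ p ∈ bk P Q ρ v, f p * nit (-((k : ℝ) / N)) p *
    ∑ z ∈ (Spl.PB (C * Real.exp (-(v * ρ))) D).filter (fun z => p ∣ z.2), f z.1 * g z.2 * ch ((k : ℝ) / N) z

open Classical in
/-- number of representations `x = p x'` with `p` in block `v`, `x' ≤ C exp (-(v ρ))` -/
noncomputable def mS (P Q ρ C : ℝ) (x : ℕ) : ℕ :=
  ∑ v ∈ Finset.range (nv Q ρ), ((bk P Q ρ v).filter (fun p => p ∣ x ∧
    (x : ℝ) ≤ C * Real.exp (-(v * ρ)) * p)).card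

/-- terms `(p x, y)` with `p x > C` -/
noncomputable def A3S (f g : ℕ → ℂ) (N : ℕ) (P Q ρ C D : ℝ) (k : ℤ) : ℂ :=
  ∑ z ∈ Spl.PB (C * Real.exp ρ) D \ Spl.PB C D, f z.1 * g z.2 * (mS P Q ρ C z.1 : ℂ) * ch ((k : ℝ) / N) z

open Classical in
/-- frequencies for which all prime polynomials of stage `j` are small -/
noncomputable def smallS (f : ℕ → ℂ) (N T : ℕ) (P Q r a : ℝ) : Finset ℤ :=
  (fr T).filter (fun k => ∀ v : ℕ, ‖Up f N P Q r v k‖ ≤ Real.exp ((1 - a) * (v * r)))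

/-! ### basic lemmas -/

theorem mem_pp {P Q : ℝ} {p : ℕ} : p ∈ pp P Q ↔ p.Prime ∧ p % 4 = 1 ∧ P < p ∧ (p : ℝ) ≤ Q := by
  unfold pp
  rw [Finset.mem_image]
  constructor
  · rintro ⟨w, hw, rfl⟩
    have h1 := GaussMR.mem_PP.1 hw
    have h2 := GaussMR.PP_spl hw
    exact ⟨h2.1, h2.2, h1.1, h1.2.1⟩
  · rintro ⟨h1, h2, h3, h4⟩
    exact GaussMR.PP_exists h1 h2 h3 h4

theorem mem_bk {P Q ρ : ℝ} {v p : ℕ} : p ∈ bk P Q ρ v ↔ p ∈ pp P Q ∧ Real.exp (v * ρ) < p ∧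
    (p : ℝ) ≤ Real.exp ((v + 1) * ρ) := by
  unfold bk pp
  rw [Finset.mem_image, Finset.mem_image]
  constructor
  · rintro ⟨w, hw, rfl⟩
    have h1 := GaussMR.mem_blk.1 hw
    exact ⟨⟨w, h1.1, rfl⟩, h1.2⟩
  · rintro ⟨⟨w, hw, rfl⟩, h1⟩
    exact ⟨w, GaussMR.mem_blk.2 ⟨hw, h1⟩, rfl⟩

theorem pp_prime {P Q : ℝ} {p : ℕ} (h : p ∈ pp P Q) : p.Prime := (mem_pp.1 h).1

theorem bk_prime {P Q ρ : ℝ} {v p : ℕ} (h : p ∈ bk P Q ρ v) : p.Prime := pp_prime (mem_bk.1 h).1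

theorem nm_injOn (P Q : ℝ) : Set.InjOn nm (GaussMR.PP P Q : Set GaussMR.G) := fun _ ha _ hb h =>
  GaussMR.PP_inj (Finset.mem_coe.1 ha) (Finset.mem_coe.1 hb) h

theorem sum_pp (P Q : ℝ) : ∑ p ∈ pp P Q, 1 / (p : ℝ) = Ls P Q := by
  unfold pp Ls
  rw [Finset.sum_image (nm_injOn P Q)]

theorem Ls_nonneg (P Q : ℝ) : 0 ≤ Ls P Q := Finset.sum_nonneg fun w _ => by positivity

theorem bk_unique {P Q ρ : ℝ} {v v' p : ℕ} (hρ : 0 < ρ) (h : p ∈ bk P Q ρ v) (h' : p ∈ bk P Q ρ v') : v = v' := by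
  unfold bk at h h'
  rw [Finset.mem_image] at h h'
  obtain ⟨w, hw, rfl⟩ := h
  obtain ⟨w', hw', h1⟩ := h'
  have h2 : w' = w := GaussMR.PP_inj (GaussMR.mem_blk.1 hw').1 (GaussMR.mem_blk.1 hw).1 h1
  subst h2
  exact GaussMR.blk_unique hρ hw hw'

theorem bk_exists {P Q ρ : ℝ} {p : ℕ} (hP : 1 ≤ P) (hρ : 0 < ρ) (h : p ∈ pp P Q) :
    ∃ v ∈ Finset.range (nv Q ρ), p ∈ bk P Q ρ v := by
  unfold pp at h
  rw [Finset.mem_image] at h
  obtain ⟨w, hw, rfl⟩ := h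
  obtain ⟨v, hv, hvw⟩ := GaussMR.blk_exists hP hρ hw
  exact ⟨v, hv, Finset.mem_image_of_mem _ hvw⟩

theorem norm_nit (t : ℝ) (n : ℕ) : ‖nit t n‖ = 1 := by
  unfold nit
  exact Complex.norm_exp_ofReal_mul_I _

theorem norm_ch (t : ℝ) (z : ℕ × ℕ) : ‖ch t z‖ = 1 := by
  unfold ch
  exact Complex.norm_exp_ofReal_mul_I _

theorem ch_mul (t : ℝ) {p x : ℕ} (y : ℕ) (hp : 0 < p) (hx : 0 < x) : ch t (p * x, y) = nit (-t) p * ch t (x, y) := by
  unfold ch nit Spl.dirn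
  rw [← Complex.exp_add]
  congr 1
  simp only
  have h1 : Real.log ((p * x : ℕ) : ℝ) = Real.log p + Real.log x := by
    push_cast
    exact Real.log_mul (by exact_mod_cast hp.ne') (by exact_mod_cast hx.ne')
  rw [h1]
  push_cast
  ring

theorem ch_mul' (t : ℝ) {p x y : ℕ} (hp : 0 < p) (hy : 0 < y) : nit (-t) p * ch t (x, p * y) = ch t (x, y) := by
  unfold ch nit Spl.dirn
  rw [← Complex.exp_add]
  congr 1
  simp only
  have h1 : Real.log ((p * y : ℕ) : ℝ) = Real.log p + Real.log y := by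
    push_cast
    exact Real.log_mul (by exact_mod_cast hp.ne') (by exact_mod_cast hy.ne')
  rw [h1]
  push_cast
  ring

theorem ch_eq (t : ℝ) (z : ℕ × ℕ) : ch t z = nit t z.2 * nit (-t) z.1 := by
  unfold ch nit Spl.dirn
  rw [← Complex.exp_add]
  congr 1
  push_cast
  ring

theorem nit_mul (t : ℝ) {m n : ℕ} (hm : 0 < m) (hn : 0 < n) : nit t (m * n) = nit t m * nit t n := by
  unfold nit
  rw [← Complex.exp_add]
  congr 1
  have h1 : Real.log ((m * n : ℕ) : ℝ) = Real.log m + Real.log n := by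
    push_cast
    exact Real.log_mul (by exact_mod_cast hm.ne') (by exact_mod_cast hn.ne')
  rw [h1]
  push_cast
  ring

/-- frequencies `k / N` are powers -/
theorem ch_zpow (N : ℕ) (k : ℤ) (z : ℕ × ℕ) : ch ((k : ℝ) / N) z = ch (1 / (N : ℝ)) z ^ k := by
  unfold ch
  rw [← Complex.exp_int_mul]
  congr 1
  push_cast
  ring

theorem card_PB_le (C D : ℝ) (hC : 0 ≤ C) (hD : 0 ≤ D) : ((Spl.PB C D).card : ℝ) ≤ C * D := by
  unfold Spl.PB
  have h1 : ((Finset.Icc 1 ⌊C⌋₊ ×ˢ Finset.Icc 1 ⌊D⌋₊).filter (fun z : ℕ × ℕ => z.1.Coprime z.2)).card ≤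
      ⌊C⌋₊ * ⌊D⌋₊ := by
    refine (Finset.card_filter_le _ _).trans ?_
    rw [Finset.card_product, Nat.card_Icc, Nat.card_Icc]
    simp
  have h2 : ((⌊C⌋₊ * ⌊D⌋₊ : ℕ) : ℝ) ≤ C * D := by
    push_cast
    exact mul_le_mul (Nat.floor_le hC) (Nat.floor_le hD) (Nat.cast_nonneg _) hC
  exact le_trans (by exact_mod_cast h1) h2

end Pool.Agent.SplM
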