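import Pool.Agent.Lib_MP_92ef0c_spm.LsGen
import Pool.Agent.Lib_MP_92ef0c_spm.SMDefs

/-!
# the large sieve for the directions of the coprime pairs of a box
-/

set_option autoImplicit false

namespace Pool.Agent.SplM

open Pool.Agent.GaussMR (fr mem_fr)

private theorem lsb_mem {C D : ℝ} {z : ℕ × ℕ} (hz : z ∈ Spl.PB C D) :
    1 ≤ z.1 ∧ 1 ≤ z.2 ∧ (z.1 : ℝ) ≤ C ∧ (z.2 : ℝ) ≤ D ∧ z.1.Coprime z.2 := by
  unfold Spl.PB at hz
  rw [Finset.mem_filter, Finset.mem_product, Finset.mem_Icc, Finset.mem_Icc] at hz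
  obtain ⟨⟨⟨h1, h2⟩, h3, h4⟩, h5⟩ := hz
  exact ⟨h1, h3, (Nat.le_floor_iff' (by omega)).1 h2, (Nat.le_floor_iff' (by omega)).1 h4, h5⟩

private theorem lsb_sub {C D : ℝ} {z w : ℕ × ℕ} (hz : z ∈ Spl.PB C D) (hw : w ∈ Spl.PB C D) :
    Spl.dirn z - Spl.dirn w = Real.log ((z.2 * w.1 : ℕ) : ℝ) - Real.log ((w.2 * z.1 : ℕ) : ℝ) := by
  obtain ⟨h1, h2, -, -, -⟩ := lsb_mem hz
  obtain ⟨h3, h4, -, -, -⟩ := lsb_mem hw
  have e1 : (z.1 : ℝ) ≠ 0 := by positivity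
  have e2 : (z.2 : ℝ) ≠ 0 := by positivity
  have e3 : (w.1 : ℝ) ≠ 0 := by positivity
  have e4 : (w.2 : ℝ) ≠ 0 := by positivity
  unfold Spl.dirn
  push_cast
  rw [Real.log_mul e2 e3, Real.log_mul e4 e1]
  ring

private theorem lsb_le {C D Y : ℝ} (hY : C * D ≤ Y) {z w : ℕ × ℕ} (hz : z ∈ Spl.PB C D) (hw : w ∈ Spl.PB C D) :
    1 ≤ z.2 * w.1 ∧ ((z.2 * w.1 : ℕ) : ℝ) ≤ Y := by
  obtain ⟨h1, h2, h5, h6, -⟩ := lsb_mem hz
  obtain ⟨h3, h4, h7, h8, -⟩ := lsb_mem hw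
  refine ⟨Nat.mul_pos h2 h3, ?_⟩
  push_cast
  have e2 : (0 : ℝ) ≤ z.2 := Nat.cast_nonneg _
  have e3 : (0 : ℝ) ≤ w.1 := Nat.cast_nonneg _
  calc (z.2 : ℝ) * w.1 ≤ D * C := mul_le_mul h6 h7 e3 (e2.trans h6)
    _ = C * D := mul_comm _ _
    _ ≤ Y := hY

private theorem lsb_log {a b : ℕ} {Y : ℝ} (ha : 1 ≤ a) (hab : a < b) (hb : (b : ℝ) ≤ Y) :
    1 / Y ≤ Real.log b - Real.log a := by
  have ha0 : (0 : ℝ) < a := by exact_mod_cast ha
  have hab' : (a : ℝ) + 1 ≤ b := by exact_mod_cast hab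
  have hb0 : (0 : ℝ) < b := by linarith
  rw [← Real.log_div hb0.ne' ha0.ne']
  have h1 := Real.one_sub_inv_le_log_of_pos (div_pos hb0 ha0)
  rw [inv_div] at h1
  refine le_trans ?_ h1
  have h2 : 1 / (b : ℝ) ≤ 1 - a / b := by
    rw [le_sub_iff_add_le, ← add_div, div_le_one hb0]
    linarith
  exact (one_div_le_one_div_of_le hb0 hb).trans h2

/-- Directions of distinct coprime pairs: `y x' ≠ y' x` are positive integers `≤ C D ≤ Y` (if `y x' = y' x` then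
`(x, y) = (x', y')` by coprimality), and `|log a - log b| ≥ 1 / max a b` for positive integers `a ≠ b`
(`log (b / a) ≥ 1 - a / b`). -/
theorem dirn_gap (C D Y : ℝ) (hY : C * D ≤ Y) (z w : ℕ × ℕ) (hz : z ∈ Spl.PB C D) (hw : w ∈ Spl.PB C D)
    (hne : z ≠ w) : 1 / Y ≤ |Spl.dirn z - Spl.dirn w| := by
  obtain ⟨h1, h2, -, -, h5⟩ := lsb_mem hz
  obtain ⟨h3, h4, -, -, h6⟩ := lsb_mem hw
  obtain ⟨ha, haY⟩ := lsb_le hY hz hw
  obtain ⟨hb, hbY⟩ := lsb_le hY hw hz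
  have hab : z.2 * w.1 ≠ w.2 * z.1 := by
    intro h
    have d1 : z.1 ∣ w.1 := by
      have : z.1 ∣ z.2 * w.1 := by rw [h]; exact Dvd.intro_left _ rfl
      exact h5.dvd_of_dvd_mul_left this
    have d2 : w.1 ∣ z.1 := by
      have : w.1 ∣ w.2 * z.1 := by rw [← h]; exact Dvd.intro_left _ rfl
      exact h6.dvd_of_dvd_mul_left this
    have e1 : z.1 = w.1 := Nat.dvd_antisymm d1 d2
    rw [e1] at h
    have e2 : z.2 = w.2 := Nat.eq_of_mul_eq_mul_right h3 h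
    exact hne (Prod.ext e1 e2)
  rw [lsb_sub hz hw]
  rcases lt_or_gt_of_ne hab with h | h
  · rw [abs_sub_comm]
    exact (lsb_log ha h hbY).trans (le_abs_self _)
  · exact (lsb_log hb h haY).trans (le_abs_self _)

/-- `|dirn z - dirn w| = |log (y x') - log (y' x)| ≤ log (C D) ≤ log Y`, as `1 ≤ y x' ≤ C D`. -/
theorem dirn_diam (C D Y : ℝ) (hY : C * D ≤ Y) (z w : ℕ × ℕ) (hz : z ∈ Spl.PB C D) (hw : w ∈ Spl.PB C D) :
    |Spl.dirn z - Spl.dirn w| ≤ Real.log Y := by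
  obtain ⟨ha, haY⟩ := lsb_le hY hz hw
  obtain ⟨hb, hbY⟩ := lsb_le hY hw hz
  rw [lsb_sub hz hw]
  have e1 : (1 : ℝ) ≤ ((z.2 * w.1 : ℕ) : ℝ) := by exact_mod_cast ha
  have e2 : (1 : ℝ) ≤ ((w.2 * z.1 : ℕ) : ℝ) := by exact_mod_cast hb
  have h1 := Real.log_nonneg e1
  have h2 := Real.log_nonneg e2
  have h3 := Real.log_le_log (by linarith) haY
  have h4 := Real.log_le_log (by linarith) hbY
  rw [abs_le]
  constructor
  · linarith
  · linarith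

private theorem lsb_chord {α β : ℝ} (h : |α - β| ≤ 3) :
    |α - β| / 2 ≤ ‖Complex.exp (α * Complex.I) - Complex.exp (β * Complex.I)‖ := by
  have h1 : Complex.exp (α * Complex.I) - Complex.exp (β * Complex.I) =
      Complex.exp (β * Complex.I) * (Complex.exp (Complex.I * ((α - β : ℝ) : ℂ)) - 1) := by
    rw [mul_sub, mul_one, ← Complex.exp_add]
    congr 2
    push_cast
    ring
  rw [h1, norm_mul, Complex.norm_exp_ofReal_mul_I, one_mul, Complex.norm_exp_I_mul_ofReal_sub_one,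
    Real.norm_eq_abs, abs_mul, abs_two]
  have hpi : 3 < Real.pi := Real.pi_gt_three
  have hpi4 : Real.pi ≤ 4 := Real.pi_le_four
  have h2 : |Real.sin ((α - β) / 2)| = Real.sin (|α - β| / 2) := by
    rcases abs_cases (α - β) with ⟨h3, h4⟩ | ⟨h3, h4⟩
    · rw [h3, abs_of_nonneg]
      exact Real.sin_nonneg_of_nonneg_of_le_pi (by linarith) (by linarith)
    · rw [h3, neg_div, Real.sin_neg, abs_of_nonpos]
      refine Real.sin_nonpos_of_nonpos_of_neg_pi_le (by linarith) (by linarith)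
  rw [h2]
  have h3 : 0 ≤ |α - β| := abs_nonneg _
  have h4 := Real.mul_le_sin (x := |α - β| / 2) (by linarith) (by linarith)
  have h5 : 1 / 2 ≤ 2 / Real.pi := by
    rw [div_le_div_iff₀ (by norm_num) Real.pi_pos]
    linarith
  nlinarith

/-- Large sieve. `ch (k / N) z = ch (1 / N) z ^ k` (`ch_zpow`), `‖ch (1 / N) z - ch (1 / N) w‖ = 2 |sin (θ / 2)|`
with `θ = (dirn z - dirn w) / N`, `|θ| ≤ log Y / N ≤ 3 ≤ π`, hence `≥ (2 / π) |θ| ≥ 1 / (2 N Y)` by `dirn_gap`.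
`ls_gen` with `δ = 1 / (2 N Y)`. Take `A = 4800`. -/
theorem lsB : ∃ A : ℝ, 0 < A ∧ ∀ (N : ℕ) (C D Y : ℝ) (T : ℕ) (a : ℕ × ℕ → ℂ), 1 ≤ N → 1 ≤ Y → C * D ≤ Y →
    Real.log Y ≤ 3 * N →
    ∑ k ∈ fr T, ‖∑ z ∈ Spl.PB C D, a z * ch ((k : ℝ) / N) z‖ ^ 2 ≤
      A * (T + N * Y) * ∑ z ∈ Spl.PB C D, ‖a z‖ ^ 2 := by
  refine ⟨4800, by norm_num, ?_⟩
  intro N C D Y T a hN hY hCD hlog
  have hN0 : (0 : ℝ) < N := by exact_mod_cast hN
  have hN1 : (1 : ℝ) ≤ N := by exact_mod_cast hN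
  have hY0 : 0 < Y := by linarith
  have hNY : 1 ≤ (N : ℝ) * Y := by nlinarith
  have hδ : 0 < 1 / (2 * (N * Y)) := by positivity
  have hδ1 : 1 / (2 * (N * Y)) ≤ 1 := by
    rw [div_le_one (by positivity)]
    linarith
  have hsep : ∀ z ∈ Spl.PB C D, ∀ w ∈ Spl.PB C D, z ≠ w →
      1 / (2 * (N * Y)) ≤ ‖ch (1 / (N : ℝ)) z - ch (1 / (N : ℝ)) w‖ := by
    intro z hz w hw hne
    have h1 := dirn_gap C D Y hCD z w hz hw hne
    have h2 := dirn_diam C D Y hCD z w hz hw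
    unfold ch
    have h3 : |1 / (N : ℝ) * Spl.dirn z - 1 / (N : ℝ) * Spl.dirn w| = |Spl.dirn z - Spl.dirn w| / N := by
      rw [← mul_sub, abs_mul, abs_of_pos (by positivity : (0 : ℝ) < 1 / N)]
      ring
    have h4 := lsb_chord (α := 1 / (N : ℝ) * Spl.dirn z) (β := 1 / (N : ℝ) * Spl.dirn w) (by
      rw [h3, div_le_iff₀ hN0]
      linarith)
    refine le_trans ?_ h4
    rw [h3]
    have h5 : 1 / (2 * ((N : ℝ) * Y)) = 1 / Y / N / 2 := by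
      field_simp
    rw [h5]
    gcongr
  have h := ls_gen (Spl.PB C D) (fun z => ch (1 / (N : ℝ)) z) (1 / (2 * (N * Y))) hδ hδ1
    (fun z _ => norm_ch _ z) hsep T a
  rw [one_div_one_div] at h
  have h6 : ∀ k : ℤ, ∑ z ∈ Spl.PB C D, a z * ch ((k : ℝ) / N) z =
      ∑ z ∈ Spl.PB C D, a z * ch (1 / (N : ℝ)) z ^ k := fun k =>
    Finset.sum_congr rfl fun z _ => by rw [ch_zpow]
  simp_rw [h6]
  refine h.trans ?_
  have hS : 0 ≤ ∑ z ∈ Spl.PB C D, ‖a z‖ ^ 2 := Finset.sum_nonneg fun z _ => by positivity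
  refine mul_le_mul_of_nonneg_right ?_ hS
  have hT : (0 : ℝ) ≤ T := Nat.cast_nonneg T
  linarith

end Pool.Agent.SplM
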