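import Pool.Agent.Lib_MP_92ef0c_spm.LsBox

/-!
# the large sieve for families of pairs
-/

set_option autoImplicit false

namespace Pool.Agent.SplM

open Pool.Agent.GaussMR (fr mem_fr)

/-- the primitive part of a pair -/
def prp (z : ℕ × ℕ) : ℕ × ℕ := (z.1 / z.1.gcd z.2, z.2 / z.1.gcd z.2)

theorem prp_spec (z : ℕ × ℕ) (h1 : 0 < z.1) :
    0 < z.1.gcd z.2 ∧ z.1.gcd z.2 * (prp z).1 = z.1 ∧ z.1.gcd z.2 * (prp z).2 = z.2 ∧
      (prp z).1.Coprime (prp z).2 := by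
  have hg : 0 < z.1.gcd z.2 := Nat.gcd_pos_of_pos_left _ h1
  exact ⟨hg, Nat.mul_div_cancel' (Nat.gcd_dvd_left _ _), Nat.mul_div_cancel' (Nat.gcd_dvd_right _ _),
    Nat.coprime_div_gcd_div_gcd hg⟩

theorem prp_pos (z : ℕ × ℕ) (h1 : 0 < z.1) (h2 : 0 < z.2) : 0 < (prp z).1 ∧ 0 < (prp z).2 := by
  obtain ⟨-, h3, h4, -⟩ := prp_spec z h1
  constructor
  · rcases Nat.eq_zero_or_pos (prp z).1 with h | h
    · rw [h] at h3
      omega
    · exact h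
  · rcases Nat.eq_zero_or_pos (prp z).2 with h | h
    · rw [h] at h4
      omega
    · exact h

theorem prp_mem (C D : ℝ) (z : ℕ × ℕ) (h1 : 0 < z.1) (h1' : (z.1 : ℝ) ≤ C) (h2 : 0 < z.2) (h2' : (z.2 : ℝ) ≤ D) :
    prp z ∈ Spl.PB C D := by
  obtain ⟨h3, h4⟩ := prp_pos z h1 h2
  refine Spl.mem_PB.2 ⟨⟨h3, le_trans ?_ h1'⟩, ⟨h4, le_trans ?_ h2'⟩, (prp_spec z h1).2.2.2⟩
  · exact_mod_cast Nat.div_le_self _ _
  · exact_mod_cast Nat.div_le_self _ _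

theorem dirn_prp (z : ℕ × ℕ) (h1 : 0 < z.1) (h2 : 0 < z.2) : Spl.dirn (prp z) = Spl.dirn z := by
  obtain ⟨h5, h6, h7, -⟩ := prp_spec z h1
  obtain ⟨h3, h4⟩ := prp_pos z h1 h2
  unfold Spl.dirn
  have e1 : Real.log (z.1 : ℝ) = Real.log (z.1.gcd z.2 : ℕ) + Real.log (prp z).1 := by
    rw [← Real.log_mul (by exact_mod_cast h5.ne') (by exact_mod_cast h3.ne')]
    congr 1
    exact_mod_cast h6.symm
  have e2 : Real.log (z.2 : ℝ) = Real.log (z.1.gcd z.2 : ℕ) + Real.log (prp z).2 := by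
    rw [← Real.log_mul (by exact_mod_cast h5.ne') (by exact_mod_cast h4.ne')]
    congr 1
    exact_mod_cast h7.symm
  rw [e1, e2]
  ring

theorem prp_eq_iff (z w : ℕ × ℕ) (hz : 0 < z.1) (hw : 0 < w.1) : prp z = prp w ↔ z.1 * w.2 = w.1 * z.2 := by
  obtain ⟨a1, a2, a3, a4⟩ := prp_spec z hz
  obtain ⟨b1, b2, b3, b4⟩ := prp_spec w hw
  constructor
  · intro h
    calc z.1 * w.2 = (z.1.gcd z.2 * (prp z).1) * (w.1.gcd w.2 * (prp w).2) := by rw [a2, b3]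
      _ = (w.1.gcd w.2 * (prp w).1) * (z.1.gcd z.2 * (prp z).2) := by
          rw [h]
          ring
      _ = w.1 * z.2 := by rw [b2, a3]
  · intro h
    have h1 : (prp z).1 * (prp w).2 = (prp w).1 * (prp z).2 := by
      have h2 : (z.1.gcd z.2 * w.1.gcd w.2) * ((prp z).1 * (prp w).2) =
          (z.1.gcd z.2 * w.1.gcd w.2) * ((prp w).1 * (prp z).2) := by
        calc (z.1.gcd z.2 * w.1.gcd w.2) * ((prp z).1 * (prp w).2) =
              (z.1.gcd z.2 * (prp z).1) * (w.1.gcd w.2 * (prp w).2) := by ring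
          _ = (w.1.gcd w.2 * (prp w).1) * (z.1.gcd z.2 * (prp z).2) := by rw [a2, a3, b2, b3, h]
          _ = (z.1.gcd z.2 * w.1.gcd w.2) * ((prp w).1 * (prp z).2) := by ring
      exact Nat.eq_of_mul_eq_mul_left (Nat.mul_pos a1 b1) h2
    have h3 : (prp z).1 ∣ (prp w).1 := a4.dvd_of_dvd_mul_right (h1 ▸ dvd_mul_right _ _)
    have h4 : (prp w).1 ∣ (prp z).1 := b4.dvd_of_dvd_mul_right (h1.symm ▸ dvd_mul_right _ _)
    have h5 : (prp z).1 = (prp w).1 := Nat.dvd_antisymm h3 h4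
    have h6 : 0 < (prp w).1 := by
      rcases Nat.eq_zero_or_pos (prp w).1 with h | h
      · rw [h] at b2
        omega
      · exact h
    have h7 : (prp w).2 = (prp z).2 := by
      rw [h5] at h1
      exact Nat.eq_of_mul_eq_mul_left h6 h1
    exact Prod.ext h5 h7.symm

theorem ch_prp (t : ℝ) (z : ℕ × ℕ) (h1 : 0 < z.1) (h2 : 0 < z.2) : ch t (prp z) = ch t z := by
  unfold ch
  rw [dirn_prp z h1 h2]

/-- Large sieve for a finite family of pairs. Copy of `large_sieve_fam` (Lib_MP_f1a94e_mr/LS.lean): group the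
indices `i` by the primitive pair `pr i = (x / d, y / d)`, `(x, y) = g i`, `d = gcd x y`, which lies in
`Spl.PB C D` and has the same direction (`log (y / d) - log (x / d)`), then `lsB`. Two pairs have the same
primitive pair iff `x y' = x' y`. -/
theorem lsF : ∃ A : ℝ, 0 < A ∧ ∀ (ι : Type) (s : Finset ι) (g : ι → ℕ × ℕ) (c : ι → ℂ) (N : ℕ) (C D Y : ℝ)
    (T : ℕ), 1 ≤ N → 1 ≤ Y → C * D ≤ Y → Real.log Y ≤ 3 * N → (∀ i ∈ s, ‖c i‖ ≤ 1) →
    (∀ i ∈ s, (0 < (g i).1 ∧ ((g i).1 : ℝ) ≤ C) ∧ 0 < (g i).2 ∧ ((g i).2 : ℝ) ≤ D) →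
    ∑ k ∈ fr T, ‖∑ i ∈ s, c i * ch ((k : ℝ) / N) (g i)‖ ^ 2 ≤
      A * (T + N * Y) *
        (Set.ncard {p : ι × ι | p.1 ∈ s ∧ p.2 ∈ s ∧ (g p.1).1 * (g p.2).2 = (g p.2).1 * (g p.1).2} : ℝ) := by
  classical
  obtain ⟨A, hA, hls⟩ := lsB
  refine ⟨A, hA, ?_⟩
  intro ι s g c N C D Y T hN hY hCD hlog hc hg
  set a : ℕ × ℕ → ℂ := fun z => ∑ i ∈ s.filter (fun i => prp (g i) = z), c i with ha
  have hmaps : ∀ i ∈ s, prp (g i) ∈ Spl.PB C D := fun i hi =>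
    prp_mem C D (g i) (hg i hi).1.1 (hg i hi).1.2 (hg i hi).2.1 (hg i hi).2.2
  have h1 : ∀ k : ℤ, ∑ i ∈ s, c i * ch ((k : ℝ) / N) (g i) = ∑ z ∈ Spl.PB C D, a z * ch ((k : ℝ) / N) z := by
    intro k
    rw [← Finset.sum_fiberwise_of_maps_to hmaps]
    refine Finset.sum_congr rfl fun z hz => ?_
    rw [ha, Finset.sum_mul]
    refine Finset.sum_congr rfl fun i hi => ?_
    obtain ⟨hi1, hi2⟩ := Finset.mem_filter.1 hi
    rw [← hi2, ch_prp _ _ (hg i hi1).1.1 (hg i hi1).2.1]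
  have h2 := hls N C D Y T a hN hY hCD hlog
  simp_rw [h1]
  refine h2.trans ?_
  have hT : (0 : ℝ) ≤ T := Nat.cast_nonneg T
  have hN0 : (0 : ℝ) ≤ N := Nat.cast_nonneg N
  have hY0 : (0 : ℝ) ≤ Y := by linarith
  refine mul_le_mul_of_nonneg_left ?_ (by positivity)
  -- count the pairs
  have h3 : {p : ι × ι | p.1 ∈ s ∧ p.2 ∈ s ∧ (g p.1).1 * (g p.2).2 = (g p.2).1 * (g p.1).2} =
      (((s ×ˢ s).filter (fun p : ι × ι => prp (g p.1) = prp (g p.2)) : Finset (ι × ι)) :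
        Set (ι × ι)) := by
    ext p
    simp only [Set.mem_ofPred_eq, Finset.coe_filter, Finset.mem_product]
    constructor
    · rintro ⟨q1, q2, q3⟩
      exact ⟨⟨q1, q2⟩, (prp_eq_iff _ _ (hg _ q1).1.1 (hg _ q2).1.1).2 q3⟩
    · rintro ⟨⟨q1, q2⟩, q3⟩
      exact ⟨q1, q2, (prp_eq_iff _ _ (hg _ q1).1.1 (hg _ q2).1.1).1 q3⟩
  rw [h3, Set.ncard_coe_finset]
  have h4 : ((s ×ˢ s).filter (fun p : ι × ι => prp (g p.1) = prp (g p.2))).card =
      ∑ z ∈ Spl.PB C D, (s.filter (fun i => prp (g i) = z)).card ^ 2 := by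
    rw [Finset.card_eq_sum_card_fiberwise (f := fun p : ι × ι => prp (g p.1)) (t := Spl.PB C D)]
    · refine Finset.sum_congr rfl fun z hz => ?_
      rw [sq, ← Finset.card_product]
      congr 1
      ext p
      simp only [Finset.mem_filter, Finset.mem_product]
      constructor
      · rintro ⟨⟨⟨h1, h2⟩, h3⟩, h4⟩
        exact ⟨⟨h1, h4⟩, h2, h3 ▸ h4⟩
      · rintro ⟨⟨h1, h2⟩, h3, h4⟩
        exact ⟨⟨⟨h1, h3⟩, h2.trans h4.symm⟩, h2⟩
    · intro p hp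
      have hp' := Finset.mem_coe.1 hp
      simp only [Finset.mem_filter, Finset.mem_product] at hp'
      exact hmaps p.1 hp'.1.1
  rw [h4]
  push_cast
  refine Finset.sum_le_sum fun z hz => ?_
  have h5 : ‖a z‖ ≤ ((s.filter (fun i => prp (g i) = z)).card : ℝ) := by
    rw [ha]
    refine (norm_sum_le _ _).trans ?_
    calc ∑ i ∈ s.filter (fun i => prp (g i) = z), ‖c i‖ ≤
          ∑ i ∈ s.filter (fun i => prp (g i) = z), (1 : ℝ) :=
          Finset.sum_le_sum fun i hi => hc i (Finset.mem_filter.1 hi).1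
      _ = _ := by simp
  gcongr

end Pool.Agent.SplM
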