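import Pool.Agent.Lib_MP_f1a94e_mr.Basic
import Pool.Agent.Lib_MP_f1a94e_mr.Circ
import Pool.Agent.Lib_MP_f1a94e_mr.Fejer

/-!
# the large sieve on the circle for general separated points
-/

set_option autoImplicit false

namespace Pool.Agent.SplM

open Pool.Agent.GaussMR (fr mem_fr fej fej_eq fej_le fej_mul_le sum_kernel fej_nonneg)

private theorem lsg_ne {x : ℂ} (hx : ‖x‖ = 1) : x ≠ 0 := by
  intro h
  rw [h, norm_zero] at hx
  exact zero_ne_one hx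

private theorem lsg_conj {x : ℂ} (hx : ‖x‖ = 1) (k : ℤ) : (starRingEnd ℂ) (x ^ k) = (x ^ k)⁻¹ := by
  rw [map_zpow₀, ← Complex.inv_eq_conj hx, inv_zpow]

private theorem lsg_expand {ι : Type} (s : Finset ι) (u : ι → ℂ) (hu : ∀ i ∈ s, ‖u i‖ = 1) (M : ℕ) (hM : 1 ≤ M)
    (a : ι → ℂ) :
    ((∑ k ∈ fr M, (1 - |(k : ℝ)| / M) * ‖∑ i ∈ s, a i * u i ^ k‖ ^ 2 : ℝ) : ℂ) =
      ∑ i ∈ s, ∑ j ∈ s, a i * (starRingEnd ℂ) (a j) * ((fej M (u i / u j) : ℝ) : ℂ) := by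
  have h1 : ∀ k : ℤ, ((‖∑ i ∈ s, a i * u i ^ k‖ ^ 2 : ℝ) : ℂ) =
      ∑ i ∈ s, ∑ j ∈ s, a i * (starRingEnd ℂ) (a j) * (u i / u j) ^ k := by
    intro k
    rw [← Complex.normSq_eq_norm_sq, ← Complex.mul_conj, map_sum, Finset.sum_mul_sum]
    refine Finset.sum_congr rfl fun i hi => Finset.sum_congr rfl fun j hj => ?_
    rw [map_mul, lsg_conj (hu j hj), div_zpow, div_eq_mul_inv]
    ring
  have h2 : ((∑ k ∈ fr M, (1 - |(k : ℝ)| / M) * ‖∑ i ∈ s, a i * u i ^ k‖ ^ 2 : ℝ) : ℂ) =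
      ∑ k ∈ fr M, ((1 - |(k : ℝ)| / M : ℝ) : ℂ) *
        ∑ i ∈ s, ∑ j ∈ s, a i * (starRingEnd ℂ) (a j) * (u i / u j) ^ k := by
    rw [Complex.ofReal_sum]
    refine Finset.sum_congr rfl fun k _ => ?_
    rw [Complex.ofReal_mul, h1 k]
  rw [h2]
  simp_rw [Finset.mul_sum]
  rw [Finset.sum_comm]
  refine Finset.sum_congr rfl fun i hi => ?_
  rw [Finset.sum_comm]
  refine Finset.sum_congr rfl fun j hj => ?_
  have hn : ‖u i / u j‖ = 1 := by
    rw [norm_div, hu i hi, hu j hj, div_one]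
  rw [fej_eq M hM _ hn, Finset.mul_sum]
  refine Finset.sum_congr rfl fun k _ => ?_
  ring

private theorem lsg_le (M : ℕ) (hM : 1 ≤ M) (x y : ℂ) (hx : ‖x‖ = 1) (hy : ‖y‖ = 1) :
    fej M (x / y) ≤ M ∧ fej M (x / y) * (M * ‖x - y‖ ^ 2) ≤ 4 := by
  have hu : ‖x / y‖ = 1 := by
    rw [norm_div, hx, hy, div_one]
  refine ⟨fej_le M hM _ hu, ?_⟩
  have h1 := fej_mul_le M hM _ hu
  have h2 : x / y - 1 = (x - y) / y := by
    have := lsg_ne hy
    field_simp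
  rw [h2, norm_div, hy, div_one] at h1
  exact h1

/-- Copy of `large_sieve` (Lib_MP_f1a94e_mr/LS.lean) with `V X` replaced by a finite set `s` and the directions by
points `u i` of the unit circle at distance `≥ δ` from each other (use `u w / u z` in place of `dir w / dir z`;
`sum_kernel` is already general). -/
theorem ls_gen {ι : Type} (s : Finset ι) (u : ι → ℂ) (δ : ℝ) (hδ : 0 < δ) (hδ1 : δ ≤ 1) (hu : ∀ i ∈ s, ‖u i‖ = 1)
    (hs : ∀ i ∈ s, ∀ j ∈ s, i ≠ j → δ ≤ ‖u i - u j‖) (T : ℕ) (a : ι → ℂ) :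
    ∑ k ∈ fr T, ‖∑ i ∈ s, a i * u i ^ k‖ ^ 2 ≤ 2400 * (T + 1 / δ) * ∑ i ∈ s, ‖a i‖ ^ 2 := by
  set M : ℕ := 2 * T + 2 with hM
  have hM1 : 1 ≤ M := by omega
  have hMr : (M : ℝ) = 2 * T + 2 := by rw [hM]; push_cast; ring
  have hM0 : (0 : ℝ) < M := by rw [hMr]; positivity
  have hM1r : (1 : ℝ) ≤ M := by exact_mod_cast hM1
  set X : ℝ := 1 / δ with hX
  have hX1 : 1 ≤ X := by
    rw [hX, le_div_iff₀ hδ, one_mul]
    exact hδ1
  set B : ℝ := 400 * (M + X) with hB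
  have hX0 : 0 < X := by linarith
  have hker : ∀ j ∈ s, ∑ i ∈ s, fej M (u i / u j) ≤ B := by
    intro j hj
    exact sum_kernel s u δ hδ hu hs (u j) (hu j hj) M hM1r (fun i => fej M (u i / u j))
      (fun i hi => (lsg_le M hM1 _ _ (hu i hi) (hu j hj)).1)
      (fun i hi => (lsg_le M hM1 _ _ (hu i hi) (hu j hj)).2)
  have hker' : ∀ i ∈ s, ∑ j ∈ s, fej M (u i / u j) ≤ B := by
    intro i hi
    exact sum_kernel s u δ hδ hu hs (u i) (hu i hi) M hM1r (fun j => fej M (u i / u j))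
      (fun j hj => (lsg_le M hM1 _ _ (hu i hi) (hu j hj)).1)
      (fun j hj => by
        rw [norm_sub_rev]
        exact (lsg_le M hM1 _ _ (hu i hi) (hu j hj)).2)
  -- smoothing
  have hsm : ∑ k ∈ fr T, ‖∑ i ∈ s, a i * u i ^ k‖ ^ 2 ≤
      2 * ∑ k ∈ fr M, (1 - |(k : ℝ)| / M) * ‖∑ i ∈ s, a i * u i ^ k‖ ^ 2 := by
    rw [Finset.mul_sum]
    have hsub : fr T ⊆ fr M := by
      intro k hk
      rw [mem_fr] at hk ⊢
      omega
    calc ∑ k ∈ fr T, ‖∑ i ∈ s, a i * u i ^ k‖ ^ 2 ≤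
          ∑ k ∈ fr T, 2 * ((1 - |(k : ℝ)| / M) * ‖∑ i ∈ s, a i * u i ^ k‖ ^ 2) := by
          refine Finset.sum_le_sum fun k hk => ?_
          rw [mem_fr] at hk
          have h1 : |(k : ℝ)| ≤ T := by
            rw [abs_le]
            constructor
            · exact_mod_cast hk.1
            · exact_mod_cast hk.2
          have h2 : |(k : ℝ)| / M ≤ 1 / 2 := by
            rw [div_le_iff₀ hM0, hMr]
            linarith
          have h3 : 0 ≤ ‖∑ i ∈ s, a i * u i ^ k‖ ^ 2 := by positivity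
          nlinarith
      _ ≤ ∑ k ∈ fr M, 2 * ((1 - |(k : ℝ)| / M) * ‖∑ i ∈ s, a i * u i ^ k‖ ^ 2) := by
          refine Finset.sum_le_sum_of_subset_of_nonneg hsub fun k hk _ => ?_
          rw [mem_fr] at hk
          have h1 : |(k : ℝ)| ≤ M := by
            rw [abs_le]
            constructor
            · exact_mod_cast hk.1
            · exact_mod_cast hk.2
          have h2 : |(k : ℝ)| / M ≤ 1 := by
            rw [div_le_one hM0]
            exact h1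
          have h3 : 0 ≤ 1 - |(k : ℝ)| / M := by linarith
          positivity
  -- the quadratic form
  have hq : ∑ k ∈ fr M, (1 - |(k : ℝ)| / M) * ‖∑ i ∈ s, a i * u i ^ k‖ ^ 2 ≤
      B * ∑ i ∈ s, ‖a i‖ ^ 2 := by
    have h1 := congrArg Complex.re (lsg_expand s u hu M hM1 a)
    rw [Complex.ofReal_re] at h1
    rw [h1, Complex.re_sum]
    have h2 : ∀ i ∈ s, (∑ j ∈ s, a i * (starRingEnd ℂ) (a j) *
        ((fej M (u i / u j) : ℝ) : ℂ)).re ≤
        ∑ j ∈ s, (‖a i‖ ^ 2 * fej M (u i / u j) / 2 +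
          ‖a j‖ ^ 2 * fej M (u i / u j) / 2) := by
      intro i _
      rw [Complex.re_sum]
      refine Finset.sum_le_sum fun j _ => ?_
      rw [mul_comm, Complex.re_ofReal_mul]
      have h3 : (a i * (starRingEnd ℂ) (a j)).re ≤ ‖a i‖ ^ 2 / 2 + ‖a j‖ ^ 2 / 2 := by
        refine (Complex.re_le_norm _).trans ?_
        rw [norm_mul, Complex.norm_conj]
        nlinarith [sq_nonneg (‖a i‖ - ‖a j‖)]
      have h4 := fej_nonneg M (u i / u j)
      nlinarith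
    refine (Finset.sum_le_sum h2).trans ?_
    simp_rw [Finset.sum_add_distrib]
    have h5 : ∑ i ∈ s, ∑ j ∈ s, ‖a i‖ ^ 2 * fej M (u i / u j) / 2 ≤
        B / 2 * ∑ i ∈ s, ‖a i‖ ^ 2 := by
      rw [Finset.mul_sum]
      refine Finset.sum_le_sum fun i hi => ?_
      rw [← Finset.sum_div, ← Finset.mul_sum]
      have h6 := hker' i hi
      have h7 : 0 ≤ ‖a i‖ ^ 2 := by positivity
      nlinarith
    have h6 : ∑ i ∈ s, ∑ j ∈ s, ‖a j‖ ^ 2 * fej M (u i / u j) / 2 ≤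
        B / 2 * ∑ i ∈ s, ‖a i‖ ^ 2 := by
      rw [Finset.sum_comm, Finset.mul_sum]
      refine Finset.sum_le_sum fun j hj => ?_
      rw [← Finset.sum_div, ← Finset.mul_sum]
      have h6 := hker j hj
      have h7 : 0 ≤ ‖a j‖ ^ 2 := by positivity
      nlinarith
    linarith
  have hS : 0 ≤ ∑ i ∈ s, ‖a i‖ ^ 2 := Finset.sum_nonneg fun i _ => by positivity
  have hfin : 2 * B ≤ 2400 * (T + X) := by
    rw [hB, hMr]
    have : (0 : ℝ) ≤ T := Nat.cast_nonneg T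
    linarith
  calc ∑ k ∈ fr T, ‖∑ i ∈ s, a i * u i ^ k‖ ^ 2 ≤
        2 * ∑ k ∈ fr M, (1 - |(k : ℝ)| / M) * ‖∑ i ∈ s, a i * u i ^ k‖ ^ 2 := hsm
    _ ≤ 2 * (B * ∑ i ∈ s, ‖a i‖ ^ 2) := by linarith
    _ = 2 * B * ∑ i ∈ s, ‖a i‖ ^ 2 := by ring
    _ ≤ 2400 * (T + X) * ∑ i ∈ s, ‖a i‖ ^ 2 := by gcongr

end Pool.Agent.SplM
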