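import Pool.Agent.Lib_MP_92ef0c_sp.SDefs0
import Pool.Agent.Lib_MP_f1a94e_mu.PairsX

/-!
# coincidences between products of `l` primes of a block and a coprime pair
-/

set_option autoImplicit false

namespace Pool.Agent.SplM

open Pool.Agent.GaussMR (pxC pxC_nonneg pxC_le)

/-- the parametrisation of the coincidences -/
theorem pairs_ab_param {a b x y x' y' : ℕ} (ha : 0 < a) (hb : 0 < b) (hab : a.Coprime b)
    (hx : 0 < x) (hy : 0 < y) (hxy : x.Coprime y) (hxy' : x'.Coprime y')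
    (h : a * x * y' = b * x' * y) : ∃ d e x1 y1 : ℕ, d ∣ a ∧ e ∣ b ∧ 0 < x1 ∧ 0 < y1 ∧
      x = e * x1 ∧ y = d * y1 ∧ x' = (a / d) * x1 ∧ y' = (b / e) * y1 := by
  obtain ⟨a1, ha1⟩ := Nat.gcd_dvd_left a y
  obtain ⟨y1, hy1⟩ := Nat.gcd_dvd_right a y
  obtain ⟨b1, hb1⟩ := Nat.gcd_dvd_left b x
  obtain ⟨x1, hx1⟩ := Nat.gcd_dvd_right b x
  have hd : 0 < a.gcd y := Nat.gcd_pos_of_pos_left _ ha
  have he : 0 < b.gcd x := Nat.gcd_pos_of_pos_left _ hb
  have hc1 : a1.Coprime y1 := by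
    have := Nat.coprime_div_gcd_div_gcd hd
    rwa [Nat.div_eq_of_eq_mul_right hd ha1, Nat.div_eq_of_eq_mul_right hd hy1] at this
  have hc2 : b1.Coprime x1 := by
    have := Nat.coprime_div_gcd_div_gcd he
    rwa [Nat.div_eq_of_eq_mul_right he hb1, Nat.div_eq_of_eq_mul_right he hx1] at this
  have hx10 : 0 < x1 := by
    rcases Nat.eq_zero_or_pos x1 with h0 | h0
    · rw [h0, mul_zero] at hx1; omega
    · exact h0
  have hy10 : 0 < y1 := by
    rcases Nat.eq_zero_or_pos y1 with h0 | h0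
    · rw [h0, mul_zero] at hy1; omega
    · exact h0
  have ha10 : 0 < a1 := by
    rcases Nat.eq_zero_or_pos a1 with h0 | h0
    · rw [h0, mul_zero] at ha1; omega
    · exact h0
  have ha1d : a1 ∣ a := Dvd.intro_left _ ha1.symm
  have hb1d : b1 ∣ b := Dvd.intro_left _ hb1.symm
  have hx1d : x1 ∣ x := Dvd.intro_left _ hx1.symm
  have hy1d : y1 ∣ y := Dvd.intro_left _ hy1.symm
  have hc3 : a1.Coprime b1 := (hab.coprime_dvd_left ha1d).coprime_dvd_right hb1d
  have hc4 : x1.Coprime y1 := (hxy.coprime_dvd_left hx1d).coprime_dvd_right hy1d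
  have hco : (a1 * x1).Coprime (b1 * y1) :=
    Nat.Coprime.mul_left (Nat.Coprime.mul_right hc3 hc1) (Nat.Coprime.mul_right hc2.symm hc4)
  have hkey : a1 * x1 * y' = b1 * y1 * x' := by
    have h1 : (a.gcd y * b.gcd x) * (a1 * x1 * y') = (a.gcd y * b.gcd x) * (b1 * y1 * x') := by
      calc (a.gcd y * b.gcd x) * (a1 * x1 * y') = (a.gcd y * a1) * (b.gcd x * x1) * y' := by ring
        _ = a * x * y' := by rw [← ha1, ← hx1]
        _ = b * x' * y := h
        _ = (b.gcd x * b1) * x' * (a.gcd y * y1) := by rw [← hb1, ← hy1]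
        _ = (a.gcd y * b.gcd x) * (b1 * y1 * x') := by ring
    exact Nat.eq_of_mul_eq_mul_left (Nat.mul_pos hd he) h1
  have hdv1 : a1 * x1 ∣ x' := by
    have : a1 * x1 ∣ b1 * y1 * x' := hkey ▸ Dvd.intro _ rfl
    exact hco.dvd_of_dvd_mul_left this
  have hdv2 : x' ∣ a1 * x1 := by
    have : x' ∣ a1 * x1 * y' := hkey ▸ Dvd.intro_left _ rfl
    exact hxy'.dvd_of_dvd_mul_right this
  have hx'e : x' = a1 * x1 := Nat.dvd_antisymm hdv2 hdv1
  have hy'e : y' = b1 * y1 := by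
    rw [hx'e] at hkey
    have : (a1 * x1) * y' = (a1 * x1) * (b1 * y1) := by rw [hkey]; ring
    exact Nat.eq_of_mul_eq_mul_left (Nat.mul_pos ha10 hx10) this
  refine ⟨a.gcd y, b.gcd x, x1, y1, Nat.gcd_dvd_left _ _, Nat.gcd_dvd_left _ _, hx10, hy10,
    hx1, hy1, ?_, ?_⟩
  · rw [hx'e, Nat.div_eq_of_eq_mul_right hd ha1]
  · rw [hy'e, Nat.div_eq_of_eq_mul_right he hb1]

open Classical in
/-- Coprime `a, b`. `a x y' = b x' y` with `z = (x, y)`, `w = (x', y')` coprime pairs: with `d = gcd a y`,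
`e = gcd b x`, `x = e x1`, `y = d y1` one gets `x' = (a / d) x1`, `y' = (b / e) y1` (both sides of
`(a/d) (x/e) y' = (b/e) (y/d) x'` in lowest terms). So for fixed `(d, e)` (divisors of `a` and of `b`) the pair is
determined by `(x1, y1)` with `x1 ≤ C d / a` (from `x' ≤ C`) and `y1 ≤ D / d`: at most `C D / a` pairs. -/
theorem pairs_ab (a b : ℕ) (ha : 0 < a) (hb : 0 < b) (hab : a.Coprime b) (C D : ℝ) (hC : 0 ≤ C) (hD : 0 ≤ D) :
    ((((Spl.PB C D) ×ˢ (Spl.PB C D)).filter (fun q : (ℕ × ℕ) × (ℕ × ℕ) =>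
      a * q.1.1 * q.2.2 = b * q.2.1 * q.1.2)).card : ℝ) ≤ a.divisors.card * b.divisors.card * (C * D / a) := by
  set S := ((Spl.PB C D) ×ˢ (Spl.PB C D)).filter (fun q : (ℕ × ℕ) × (ℕ × ℕ) =>
      a * q.1.1 * q.2.2 = b * q.2.1 * q.1.2) with hS
  let F : ℕ × ℕ → ℕ × ℕ → (ℕ × ℕ) × (ℕ × ℕ) := fun de z =>
    ((de.2 * z.1, de.1 * z.2), ((a / de.1) * z.1, (b / de.2) * z.2))
  let R : ℕ × ℕ → Finset (ℕ × ℕ) := fun de =>
    Finset.Icc 1 ⌊C * de.1 / a⌋₊ ×ˢ Finset.Icc 1 ⌊D / de.1⌋₊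
  have haR : (0 : ℝ) < a := by exact_mod_cast ha
  have hsub : S ⊆ (a.divisors ×ˢ b.divisors).biUnion (fun de => (R de).image (F de)) := by
    rintro ⟨⟨x, y⟩, ⟨x', y'⟩⟩ hq
    rw [hS, Finset.mem_filter, Finset.mem_product, Spl.mem_PB, Spl.mem_PB] at hq
    obtain ⟨⟨⟨⟨hx, hxC⟩, ⟨hy, hyD⟩, hxy⟩, ⟨⟨hx', hx'C⟩, ⟨hy', hy'D⟩, hxy'⟩⟩, h⟩ := hq
    simp only at hx hxC hy hyD hxy hx' hx'C hy' hy'D hxy' h
    obtain ⟨d, e, x1, y1, hda, heb, hx1, hy1, e1, e2, e3, e4⟩ :=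
      pairs_ab_param ha hb hab hx hy hxy hxy' h
    rw [Finset.mem_biUnion]
    have hd0 : 0 < d := Nat.pos_of_dvd_of_pos hda ha
    have hdR : (0 : ℝ) < d := by exact_mod_cast hd0
    refine ⟨(d, e), ?_, ?_⟩
    · rw [Finset.mem_product, Nat.mem_divisors, Nat.mem_divisors]
      exact ⟨⟨hda, ha.ne'⟩, ⟨heb, hb.ne'⟩⟩
    · rw [Finset.mem_image]
      refine ⟨(x1, y1), ?_, ?_⟩
      · simp only [R]
        rw [Finset.mem_product, Finset.mem_Icc, Finset.mem_Icc]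
        refine ⟨⟨hx1, Nat.le_floor ?_⟩, ⟨hy1, Nat.le_floor ?_⟩⟩
        · rw [e3] at hx'C
          rw [le_div_iff₀ haR]
          obtain ⟨a1, ha1⟩ := hda
          rw [ha1, Nat.mul_div_cancel_left _ hd0] at hx'C
          rw [ha1]
          push_cast at hx'C ⊢
          nlinarith
        · rw [e2] at hyD
          rw [le_div_iff₀ hdR]
          push_cast at hyD
          linarith
      · simp only [F]
        rw [e1, e2, e3, e4]
  have h1 : S.card ≤ ∑ de ∈ a.divisors ×ˢ b.divisors, (R de).card := by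
    refine (Finset.card_le_card hsub).trans (Finset.card_biUnion_le.trans ?_)
    exact Finset.sum_le_sum fun de _ => Finset.card_image_le
  have h2 : ∀ de ∈ a.divisors ×ˢ b.divisors, ((R de).card : ℝ) ≤ C * D / a := by
    intro de hde
    rw [Finset.mem_product, Nat.mem_divisors] at hde
    have hd0 : 0 < de.1 := Nat.pos_of_dvd_of_pos hde.1.1 ha
    have hdR : (0 : ℝ) < de.1 := by exact_mod_cast hd0
    simp only [R]
    rw [Finset.card_product, Nat.card_Icc, Nat.card_Icc]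
    simp only [Nat.add_sub_cancel]
    push_cast
    calc (⌊C * de.1 / a⌋₊ : ℝ) * (⌊D / de.1⌋₊ : ℝ) ≤ (C * de.1 / a) * (D / de.1) :=
          mul_le_mul (Nat.floor_le (by positivity)) (Nat.floor_le (by positivity))
            (Nat.cast_nonneg _) (by positivity)
      _ = C * D / a := by field_simp
  calc (S.card : ℝ) ≤ ∑ de ∈ a.divisors ×ˢ b.divisors, ((R de).card : ℝ) := by exact_mod_cast h1
    _ ≤ ∑ de ∈ a.divisors ×ˢ b.divisors, C * D / a := Finset.sum_le_sum h2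
    _ = a.divisors.card * b.divisors.card * (C * D / a) := by
        rw [Finset.sum_const, Finset.card_product, nsmul_eq_mul]
        push_cast
        ring

open scoped Pointwise in
/-- number of divisors of a product of `l` primes (`Nat.divisors_mul`, `Finset.card_mul_le`) and of its divisors -/
theorem div_prod (l : ℕ) (x : Fin l → ℕ) (hx : ∀ i, (x i).Prime) (a : ℕ) (ha : a ∣ ∏ i, x i) :
    a.divisors.card ≤ 2 ^ l := by
  have h0 : ∏ i, x i ≠ 0 := Finset.prod_ne_zero_iff.2 fun i _ => (hx i).ne_zero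
  refine (Finset.card_le_card (Nat.divisors_subset_of_dvd h0 ha)).trans ?_
  clear ha h0
  induction l with
  | zero => simp
  | succ l ih =>
    rw [Fin.prod_univ_succ, Nat.divisors_mul]
    refine Finset.card_mul_le.trans ?_
    rw [pow_succ, mul_comm]
    refine Nat.mul_le_mul (ih (fun i => x i.succ) (fun i => hx i.succ)) ?_
    rw [(hx 0).divisors]
    exact Finset.card_le_two

open Classical in
/-- Divide by `m = gcd (∏ x) (∏ y)`: `pairs_ab` with `a = ∏ x / m`, `b = ∏ y / m` and `div_prod`. -/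
theorem pairsN1 (l : ℕ) (x y : Fin l → ℕ) (hx : ∀ i, (x i).Prime) (hy : ∀ i, (y i).Prime) (C D : ℝ)
    (hC : 0 ≤ C) (hD : 0 ≤ D) :
    ((((Spl.PB C D) ×ˢ (Spl.PB C D)).filter (fun q : (ℕ × ℕ) × (ℕ × ℕ) =>
      (∏ i, x i) * q.1.1 * q.2.2 = (∏ i, y i) * q.2.1 * q.1.2)).card : ℝ) ≤
      2 ^ (l + l) * (C * D) * (Nat.gcd (∏ i, x i) (∏ i, y i)) / (∏ i, x i : ℕ) := by
  have hX0 : 0 < ∏ i, x i := Finset.prod_pos fun i _ => (hx i).pos
  have hY0 : 0 < ∏ i, y i := Finset.prod_pos fun i _ => (hy i).pos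
  obtain ⟨X, hX⟩ : ∃ X, X = ∏ i, x i := ⟨_, rfl⟩
  obtain ⟨Y, hY⟩ : ∃ Y, Y = ∏ i, y i := ⟨_, rfl⟩
  have hdX := fun a ha => div_prod l x hx a ha
  have hdY := fun a ha => div_prod l y hy a ha
  rw [← hX] at hX0 hdX ⊢
  rw [← hY] at hY0 hdY ⊢
  have hm : 0 < X.gcd Y := Nat.gcd_pos_of_pos_left _ hX0
  obtain ⟨a, ha⟩ := Nat.gcd_dvd_left X Y
  obtain ⟨b, hb⟩ := Nat.gcd_dvd_right X Y
  have hab : a.Coprime b := by
    have := Nat.coprime_div_gcd_div_gcd hm
    rwa [Nat.div_eq_of_eq_mul_right hm ha, Nat.div_eq_of_eq_mul_right hm hb] at this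
  have ha0 : 0 < a := by
    rcases Nat.eq_zero_or_pos a with h0 | h0
    · rw [h0, mul_zero] at ha; omega
    · exact h0
  have hb0 : 0 < b := by
    rcases Nat.eq_zero_or_pos b with h0 | h0
    · rw [h0, mul_zero] at hb; omega
    · exact h0
  have hfil : ((Spl.PB C D) ×ˢ (Spl.PB C D)).filter (fun q : (ℕ × ℕ) × (ℕ × ℕ) =>
      X * q.1.1 * q.2.2 = Y * q.2.1 * q.1.2) =
      ((Spl.PB C D) ×ˢ (Spl.PB C D)).filter (fun q : (ℕ × ℕ) × (ℕ × ℕ) =>
      a * q.1.1 * q.2.2 = b * q.2.1 * q.1.2) := by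
    refine Finset.filter_congr fun q _ => ?_
    constructor
    · intro h
      have h1 : X.gcd Y * (a * q.1.1 * q.2.2) = X.gcd Y * (b * q.2.1 * q.1.2) := by
        calc X.gcd Y * (a * q.1.1 * q.2.2) = (X.gcd Y * a) * q.1.1 * q.2.2 := by ring
          _ = (X.gcd Y * b) * q.2.1 * q.1.2 := by rw [← ha, ← hb, h]
          _ = _ := by ring
      exact Nat.eq_of_mul_eq_mul_left hm h1
    · intro h
      calc X * q.1.1 * q.2.2 = X.gcd Y * (a * q.1.1 * q.2.2) := by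
            conv_lhs => rw [ha]
            ring
        _ = X.gcd Y * (b * q.2.1 * q.1.2) := by rw [h]
        _ = (X.gcd Y * b) * q.2.1 * q.1.2 := by ring
        _ = Y * q.2.1 * q.1.2 := by rw [← hb]
  rw [hfil]
  have hda : a.divisors.card ≤ 2 ^ l := hdX a (Dvd.intro_left _ ha.symm)
  have hdb : b.divisors.card ≤ 2 ^ l := hdY b (Dvd.intro_left _ hb.symm)
  have hda' : (a.divisors.card : ℝ) ≤ 2 ^ l := by exact_mod_cast hda
  have hdb' : (b.divisors.card : ℝ) ≤ 2 ^ l := by exact_mod_cast hdb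
  have haR : (0 : ℝ) < a := by exact_mod_cast ha0
  have hmR : (0 : ℝ) < X.gcd Y := by exact_mod_cast hm
  have hXR : (X : ℝ) = X.gcd Y * a := by exact_mod_cast ha
  calc _ ≤ (a.divisors.card : ℝ) * b.divisors.card * (C * D / a) :=
        pairs_ab a b ha0 hb0 hab C D hC hD
    _ ≤ 2 ^ l * 2 ^ l * (C * D / a) := by
        refine mul_le_mul_of_nonneg_right ?_ (by positivity)
        exact mul_le_mul hda' hdb' (Nat.cast_nonneg _) (by positivity)
    _ = 2 ^ (l + l) * (C * D) * (X.gcd Y : ℝ) / (X : ℝ) := by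
        rw [hXR, pow_add]
        field_simp

end Pool.Agent.SplM
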