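import Pool.Agent.Lib_MP_92ef0c_spm.LsBox

/-!
# first stage
-/

set_option autoImplicit false

namespace Pool.Agent.SplM

open Pool.Agent.GaussMR (fr mem_fr nv Ls)

/-- Copy of `small1` (Lib_MP_f1a94e_ecc/Small1.lean): Cauchy-Schwarz over the blocks, blocks with
`(v+1) ρ ≤ log P` are empty; with `Y = X e^(-vρ) ≥ X / Q ≥ 1`, `C e^(-vρ) D ≤ Y`, `T ≤ N X / Q ≤ N Y`, `lsB` gives
`∑_k ‖Ps (C e^(-vρ)) D‖² ≤ A (T + N Y) card (PB ..) ≤ 2 A N Y²` (`card_PB_le`). -/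
theorem small1S : ∃ A : ℝ, 0 < A ∧ ∀ (f g : ℕ → ℂ), CMN f → (∀ n, ‖g n‖ ≤ 1) →
    ∀ (P Q ρ C D X α : ℝ) (N T : ℕ) (S : Finset ℤ), 2 ≤ P → P ≤ Q → Q ≤ X → 0 < ρ → ρ ≤ 1 → 0 ≤ α → α ≤ 1 →
    1 ≤ N → 0 ≤ C → 0 ≤ D → C * D ≤ X → Real.log X ≤ 3 * N → (T : ℝ) ≤ N * X / Q → S ⊆ fr T →
    (∀ k ∈ S, ∀ v : ℕ, ‖Up f N P Q ρ v k‖ ≤ Real.exp ((1 - α) * (v * ρ))) →
    ∑ k ∈ S, ‖UZs f g N P Q ρ C D k‖ ^ 2 ≤ A * N * X ^ 2 * (Real.log Q / ρ + 1) ^ 2 * P ^ (-(2 * α)) := by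
  classical
  obtain ⟨A0, hA0, hLS⟩ := lsB
  refine ⟨2 * Real.exp 2 * A0, by positivity, ?_⟩
  intro f g hf hgb P Q ρ C D X α N T S hP hPQ hQX hρ hρ1 hα hα1 hN hC hD hCD hlogX hT hS hU
  have hP0 : 0 < P := by linarith
  have hQ0 : 0 < Q := by linarith
  have hX0 : 0 < X := by linarith
  have hNr : (1 : ℝ) ≤ N := by exact_mod_cast hN
  have hN0 : (0 : ℝ) < N := by linarith
  set n : ℕ := nv Q ρ with hn
  have hlogQ : 0 ≤ Real.log Q := Real.log_nonneg (by linarith)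
  have hnle : (n : ℝ) ≤ Real.log Q / ρ + 1 := by
    rw [hn, nv]
    push_cast
    have := Nat.floor_le (show 0 ≤ Real.log Q / ρ by positivity)
    linarith
  have hn0 : (0 : ℝ) ≤ n := Nat.cast_nonneg n
  -- Cauchy-Schwarz
  have hCS : ∀ k : ℤ, ‖UZs f g N P Q ρ C D k‖ ^ 2 ≤
      n * ∑ v ∈ Finset.range n, (‖Up f N P Q ρ v k‖ ^ 2 *
        ‖Ps f g (C * Real.exp (-(v * ρ))) D ((k : ℝ) / N)‖ ^ 2) := by
    intro k
    have h1 : ‖UZs f g N P Q ρ C D k‖ ≤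
        ∑ v ∈ Finset.range n, (‖Up f N P Q ρ v k‖ * ‖Ps f g (C * Real.exp (-(v * ρ))) D ((k : ℝ) / N)‖) := by
      unfold UZs
      refine (norm_sum_le _ _).trans (le_of_eq ?_)
      refine Finset.sum_congr rfl fun v _ => ?_
      rw [norm_mul]
    have h2 : (∑ v ∈ Finset.range n, (‖Up f N P Q ρ v k‖ * ‖Ps f g (C * Real.exp (-(v * ρ))) D ((k : ℝ) / N)‖)) ^ 2 ≤
        n * ∑ v ∈ Finset.range n, (‖Up f N P Q ρ v k‖ * ‖Ps f g (C * Real.exp (-(v * ρ))) D ((k : ℝ) / N)‖) ^ 2 := by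
      have := sq_sum_le_card_mul_sum_sq (s := Finset.range n)
        (f := fun v : ℕ => ‖Up f N P Q ρ v k‖ * ‖Ps f g (C * Real.exp (-(v * ρ))) D ((k : ℝ) / N)‖)
      rwa [Finset.card_range] at this
    calc ‖UZs f g N P Q ρ C D k‖ ^ 2 ≤
        (∑ v ∈ Finset.range n, (‖Up f N P Q ρ v k‖ * ‖Ps f g (C * Real.exp (-(v * ρ))) D ((k : ℝ) / N)‖)) ^ 2 :=
          pow_le_pow_left₀ (norm_nonneg _) h1 2
      _ ≤ n * ∑ v ∈ Finset.range n,
          (‖Up f N P Q ρ v k‖ * ‖Ps f g (C * Real.exp (-(v * ρ))) D ((k : ℝ) / N)‖) ^ 2 := h2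
      _ = _ := by
          congr 1
          refine Finset.sum_congr rfl fun v _ => ?_
          rw [mul_pow]
  -- bound for one block
  have hblk : ∀ v : ℕ, ∑ k ∈ S, (‖Up f N P Q ρ v k‖ ^ 2 *
      ‖Ps f g (C * Real.exp (-(v * ρ))) D ((k : ℝ) / N)‖ ^ 2) ≤
      2 * Real.exp 2 * A0 * N * X ^ 2 * P ^ (-(2 * α)) := by
    intro v
    have hPpos := Real.rpow_pos_of_pos hP0 (-(2 * α))
    by_cases hb : bk P Q ρ v = ∅
    · have h0 : ∀ k : ℤ, Up f N P Q ρ v k = 0 := by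
        intro k
        unfold Up
        rw [hb, Finset.sum_empty]
      have : ∑ k ∈ S, (‖Up f N P Q ρ v k‖ ^ 2 *
          ‖Ps f g (C * Real.exp (-(v * ρ))) D ((k : ℝ) / N)‖ ^ 2) = 0 := by
        refine Finset.sum_eq_zero fun k _ => ?_
        rw [h0 k]
        simp
      rw [this]
      positivity
    · obtain ⟨w, hw⟩ := Finset.nonempty_iff_ne_empty.2 hb
      obtain ⟨hw0, hw3, hw4⟩ := mem_bk.1 hw
      obtain ⟨-, -, hw1, hw2⟩ := mem_pp.1 hw0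
      have hvQ : Real.exp (v * ρ) ≤ Q := (hw3.trans_le hw2).le
      have hPv : P ≤ Real.exp ((v + 1) * ρ) := (hw1.trans_le hw4).le
      set Y : ℝ := X * Real.exp (-(v * ρ)) with hY
      have hexp : Real.exp (v * ρ) * Real.exp (-(v * ρ)) = 1 := by
        rw [← Real.exp_add]; simp
      have hYpos : 0 < Y := by positivity
      have hY1 : 1 ≤ Y := by
        have : Real.exp (v * ρ) * Real.exp (-(v * ρ)) ≤ X * Real.exp (-(v * ρ)) :=
          mul_le_mul_of_nonneg_right (by linarith) (Real.exp_pos _).le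
        rw [hexp] at this
        exact this
      have hYX : Y ≤ X := by
        rw [hY]
        have h9 : Real.exp (-(v * ρ)) ≤ 1 := by
          rw [Real.exp_le_one_iff]
          have : (0 : ℝ) ≤ v * ρ := by positivity
          linarith
        nlinarith
      have hCDY : C * Real.exp (-(v * ρ)) * D ≤ Y := by
        rw [hY]
        calc C * Real.exp (-(v * ρ)) * D = C * D * Real.exp (-(v * ρ)) := by ring
          _ ≤ X * Real.exp (-(v * ρ)) := mul_le_mul_of_nonneg_right hCD (Real.exp_pos _).le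
      have hlogY : Real.log Y ≤ 3 * N := (Real.log_le_log hYpos hYX).trans hlogX
      have hTY : (T : ℝ) ≤ N * Y := by
        refine hT.trans ?_
        rw [hY, Real.exp_neg, div_eq_mul_inv, mul_assoc]
        have : Q⁻¹ ≤ (Real.exp (v * ρ))⁻¹ := inv_anti₀ (Real.exp_pos _) hvQ
        have h8 : X * Q⁻¹ ≤ X * (Real.exp (v * ρ))⁻¹ := mul_le_mul_of_nonneg_left this hX0.le
        exact mul_le_mul_of_nonneg_left h8 hN0.le
      have hCe : 0 ≤ C * Real.exp (-(v * ρ)) := by positivity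
      -- large sieve
      have h1 := hLS N (C * Real.exp (-(v * ρ))) D Y T (fun z => f z.1 * g z.2) hN hY1 hCDY hlogY
      have h2 : ∑ z ∈ Spl.PB (C * Real.exp (-(v * ρ))) D, ‖f z.1 * g z.2‖ ^ 2 ≤ Y := by
        calc ∑ z ∈ Spl.PB (C * Real.exp (-(v * ρ))) D, ‖f z.1 * g z.2‖ ^ 2
            ≤ ∑ _z ∈ Spl.PB (C * Real.exp (-(v * ρ))) D, (1 : ℝ) := Finset.sum_le_sum fun z _ => by
              rw [norm_mul]
              exact pow_le_one₀ (by positivity) (mul_le_one₀ (hf.bd _) (norm_nonneg _) (hgb _))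
          _ = ((Spl.PB (C * Real.exp (-(v * ρ))) D).card : ℝ) := by simp
          _ ≤ C * Real.exp (-(v * ρ)) * D := card_PB_le _ _ hCe hD
          _ ≤ Y := hCDY
      have h1' : ∑ k ∈ fr T, ‖Ps f g (C * Real.exp (-(v * ρ))) D ((k : ℝ) / N)‖ ^ 2 ≤
          A0 * (T + N * Y) * Y :=
        h1.trans (mul_le_mul_of_nonneg_left h2 (by positivity))
      have h3 : ∑ k ∈ S, ‖Ps f g (C * Real.exp (-(v * ρ))) D ((k : ℝ) / N)‖ ^ 2 ≤ 2 * A0 * N * Y ^ 2 := by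
        calc ∑ k ∈ S, ‖Ps f g (C * Real.exp (-(v * ρ))) D ((k : ℝ) / N)‖ ^ 2
            ≤ ∑ k ∈ fr T, ‖Ps f g (C * Real.exp (-(v * ρ))) D ((k : ℝ) / N)‖ ^ 2 :=
              Finset.sum_le_sum_of_subset_of_nonneg hS (fun _ _ _ => by positivity)
          _ ≤ A0 * (T + N * Y) * Y := h1'
          _ ≤ A0 * (N * Y + N * Y) * Y := by
              have h10 : (T : ℝ) + N * Y ≤ N * Y + N * Y := by linarith
              exact mul_le_mul_of_nonneg_right (mul_le_mul_of_nonneg_left h10 hA0.le) hYpos.le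
          _ = 2 * A0 * N * Y ^ 2 := by ring
      have h4 : ∀ k ∈ S, ‖Up f N P Q ρ v k‖ ^ 2 * ‖Ps f g (C * Real.exp (-(v * ρ))) D ((k : ℝ) / N)‖ ^ 2 ≤
          Real.exp ((1 - α) * (v * ρ)) ^ 2 * ‖Ps f g (C * Real.exp (-(v * ρ))) D ((k : ℝ) / N)‖ ^ 2 := by
        intro k hk
        exact mul_le_mul_of_nonneg_right (pow_le_pow_left₀ (norm_nonneg _) (hU k hk v) 2) (by positivity)
      calc ∑ k ∈ S, (‖Up f N P Q ρ v k‖ ^ 2 * ‖Ps f g (C * Real.exp (-(v * ρ))) D ((k : ℝ) / N)‖ ^ 2) ≤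
          ∑ k ∈ S, Real.exp ((1 - α) * (v * ρ)) ^ 2 *
            ‖Ps f g (C * Real.exp (-(v * ρ))) D ((k : ℝ) / N)‖ ^ 2 := Finset.sum_le_sum h4
        _ = Real.exp ((1 - α) * (v * ρ)) ^ 2 *
            ∑ k ∈ S, ‖Ps f g (C * Real.exp (-(v * ρ))) D ((k : ℝ) / N)‖ ^ 2 := by
            rw [Finset.mul_sum]
        _ ≤ Real.exp ((1 - α) * (v * ρ)) ^ 2 * (2 * A0 * N * Y ^ 2) :=
            mul_le_mul_of_nonneg_left h3 (by positivity)
        _ = 2 * A0 * N * X ^ 2 * Real.exp (-(2 * α * (v * ρ))) := by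
            rw [hY, mul_pow]
            rw [show Real.exp ((1 - α) * (v * ρ)) ^ 2 * (2 * A0 * N * (X ^ 2 * Real.exp (-(v * ρ)) ^ 2)) =
              2 * A0 * N * X ^ 2 * (Real.exp ((1 - α) * (v * ρ)) ^ 2 * Real.exp (-(v * ρ)) ^ 2) by ring]
            congr 1
            rw [← Real.exp_nat_mul, ← Real.exp_nat_mul, ← Real.exp_add]
            congr 1
            push_cast
            ring
        _ ≤ 2 * A0 * N * X ^ 2 * (Real.exp 2 * P ^ (-(2 * α))) := by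
            have h5 : Real.exp (-(2 * α * (v * ρ))) ≤ Real.exp 2 * P ^ (-(2 * α)) := by
              rw [Real.rpow_def_of_pos hP0, ← Real.exp_add]
              apply Real.exp_le_exp.2
              have h6 : Real.log P ≤ (v + 1) * ρ := by
                rw [Real.log_le_iff_le_exp hP0]
                exact hPv
              have h7 : 2 * α * Real.log P ≤ 2 * α * ((v + 1) * ρ) :=
                mul_le_mul_of_nonneg_left h6 (by positivity)
              have h8 : 2 * α * ρ ≤ 2 := by nlinarith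
              nlinarith
            exact mul_le_mul_of_nonneg_left h5 (by positivity)
        _ = 2 * Real.exp 2 * A0 * N * X ^ 2 * P ^ (-(2 * α)) := by ring
  calc ∑ k ∈ S, ‖UZs f g N P Q ρ C D k‖ ^ 2
      ≤ ∑ k ∈ S, n * ∑ v ∈ Finset.range n, (‖Up f N P Q ρ v k‖ ^ 2 *
          ‖Ps f g (C * Real.exp (-(v * ρ))) D ((k : ℝ) / N)‖ ^ 2) := Finset.sum_le_sum fun k _ => hCS k
    _ = n * ∑ v ∈ Finset.range n, ∑ k ∈ S, (‖Up f N P Q ρ v k‖ ^ 2 *
          ‖Ps f g (C * Real.exp (-(v * ρ))) D ((k : ℝ) / N)‖ ^ 2) := by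
        rw [← Finset.mul_sum, Finset.sum_comm]
    _ ≤ n * ∑ v ∈ Finset.range n, (2 * Real.exp 2 * A0 * N * X ^ 2 * P ^ (-(2 * α))) :=
        mul_le_mul_of_nonneg_left (Finset.sum_le_sum fun v _ => hblk v) hn0
    _ = n ^ 2 * (2 * Real.exp 2 * A0 * N * X ^ 2 * P ^ (-(2 * α))) := by
        rw [Finset.sum_const, Finset.card_range, nsmul_eq_mul]
        ring
    _ ≤ (Real.log Q / ρ + 1) ^ 2 * (2 * Real.exp 2 * A0 * N * X ^ 2 * P ^ (-(2 * α))) := by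
        have := Real.rpow_pos_of_pos hP0 (-(2 * α))
        exact mul_le_mul_of_nonneg_right (pow_le_pow_left₀ hn0 hnle 2) (by positivity)
    _ = _ := by ring

end Pool.Agent.SplM
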