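import Pool.Agent.Lib_MP_92ef0c_spm.SMDefs

/-!
# the identity behind a stage
-/

set_option autoImplicit false

namespace Pool.Agent.SplM

open Pool.Agent.GaussMR (nv)

open Classical in
theorem mS_card (P Q ρ C : ℝ) (hρ : 0 < ρ) (x : ℕ) :
    mS P Q ρ C x = ((Finset.range (nv Q ρ)).biUnion fun v => (bk P Q ρ v).filter (fun p => p ∣ x ∧
      (x : ℝ) ≤ C * Real.exp (-(v * ρ)) * p)).card := by
  rw [Finset.card_biUnion]
  · rfl
  · intro v _ v' _ hvv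
    rw [Function.onFun, Finset.disjoint_left]
    intro w hw hw'
    exact hvv (bk_unique hρ (Finset.mem_filter.mp hw).1 (Finset.mem_filter.mp hw').1)

/-- `mS ≤ om1`: the blocks are disjoint subsets of `pp P Q` (`bk_unique`); cf. `mA_le`, Lib_MP_f1a94e_mr/StageId -/
theorem mS_le (P Q ρ C : ℝ) (hρ : 0 < ρ) (x : ℕ) : (mS P Q ρ C x : ℝ) ≤ om1 P Q x := by
  classical
  rw [mS_card P Q ρ C hρ x, om1, Nat.cast_le]
  refine Finset.card_le_card ?_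
  intro w hw
  rw [Finset.mem_biUnion] at hw
  obtain ⟨v, _, hw⟩ := hw
  rw [Finset.mem_filter] at hw
  rw [Finset.mem_filter]
  exact ⟨(mem_bk.mp hw.1).1, hw.2.1⟩

/-- equality for `x ≤ C` (`bk_exists`; `exp (v ρ) < p`); cf. `mA_eq_om` -/
theorem mS_eq (P Q ρ C : ℝ) (hP : 1 ≤ P) (hρ : 0 < ρ) (hC : 0 ≤ C) (x : ℕ) (hx : (x : ℝ) ≤ C) :
    (mS P Q ρ C x : ℝ) = om1 P Q x := by
  classical
  rw [mS_card P Q ρ C hρ x, om1, Nat.cast_inj]
  congr 1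
  ext w
  rw [Finset.mem_biUnion, Finset.mem_filter]
  constructor
  · rintro ⟨v, _, hw⟩
    rw [Finset.mem_filter] at hw
    exact ⟨(mem_bk.mp hw.1).1, hw.2.1⟩
  · rintro ⟨hw, hd⟩
    obtain ⟨v, hv, hvw⟩ := bk_exists hP hρ hw
    refine ⟨v, hv, Finset.mem_filter.mpr ⟨hvw, hd, hx.trans ?_⟩⟩
    have h1 : Real.exp (v * ρ) < w := (mem_bk.mp hvw).2.1
    calc C = C * Real.exp (-(v * ρ)) * Real.exp (v * ρ) := by
          rw [mul_assoc, ← Real.exp_add, neg_add_cancel, Real.exp_zero, mul_one]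
      _ ≤ C * Real.exp (-(v * ρ)) * w := by gcongr

open Classical in
/-- the substitution `x' = p x` -/
theorem sub_sumS (f g : ℕ → ℂ) (hf : CMN f) {p : ℕ} (hp : p.Prime) (Y Y' D : ℝ) (t : ℝ)
    (hYY : Y * p ≤ Y') :
    ∑ z ∈ (Spl.PB Y D).filter (fun z => ¬ p ∣ z.2), (f p * nit (-t) p) * (f z.1 * g z.2 * ch t z) =
      ∑ z ∈ (Spl.PB Y' D).filter (fun z => p ∣ z.1 ∧ (z.1 : ℝ) ≤ Y * p), f z.1 * g z.2 * ch t z := by
  have hp0 : 0 < p := hp.pos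
  have hp0' : (0 : ℝ) < p := by exact_mod_cast hp0
  refine Finset.sum_bij (fun z _ => (p * z.1, z.2)) ?_ ?_ ?_ ?_
  · intro z hz
    rw [Finset.mem_filter, Spl.mem_PB] at hz
    obtain ⟨⟨⟨h1, h2⟩, h3, h4⟩, h5⟩ := hz
    have h6 : ((p * z.1 : ℕ) : ℝ) ≤ Y * p := by
      push_cast
      nlinarith
    rw [Finset.mem_filter, Spl.mem_PB]
    refine ⟨⟨⟨Nat.mul_pos hp0 h1, h6.trans hYY⟩, h3, ?_⟩, dvd_mul_right _ _, h6⟩
    exact Nat.Coprime.mul_left ((Nat.Prime.coprime_iff_not_dvd hp).2 h5) h4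
  · rintro ⟨x, y⟩ _ ⟨x', y'⟩ _ h
    rw [Prod.mk.injEq] at h
    rw [Prod.mk.injEq]
    exact ⟨Nat.eq_of_mul_eq_mul_left hp0 h.1, h.2⟩
  · rintro ⟨x', y'⟩ hz'
    rw [Finset.mem_filter, Spl.mem_PB] at hz'
    obtain ⟨⟨⟨h1, h2⟩, h3, h4⟩, ⟨x, hx⟩, h5⟩ := hz'
    simp only at hx h1 h2 h3 h4 h5
    subst hx
    refine ⟨(x, y'), ?_, rfl⟩
    rw [Finset.mem_filter, Spl.mem_PB]
    have h6 : 0 < x := Nat.pos_of_mul_pos_left h1
    refine ⟨⟨⟨h6, ?_⟩, h3, Nat.Coprime.coprime_mul_left h4⟩, ?_⟩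
    · push_cast at h5
      have h7 : (p : ℝ) * x ≤ p * Y := by linarith
      exact le_of_mul_le_mul_left h7 hp0'
    · exact (Nat.Prime.coprime_iff_not_dvd hp).1 (Nat.Coprime.coprime_mul_right h4)
  · intro z hz
    rw [Finset.mem_filter, Spl.mem_PB] at hz
    simp only
    rw [hf.mul p z.1, ch_mul t z.2 hp0 hz.1.1.1]
    ring

/-- Copy of `stage_id` (Lib_MP_f1a94e_ecc/StageId.lean). Expand `UZs = ∑_v ∑_{p ∈ bk v} ∑_{z ∈ PB (C e^(-vρ)) D}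
f p p^(-it) f x g y (y/x)^(it)` and split the `z = (x, y)`: `p ∣ y` (`A2S`), else `(p x, y)` is coprime; for
`p ∈ bk v` the map `(x, y) ↦ (p x, y)` is a bijection from `{z ∈ PB (C e^(-vρ)) D : ¬ p ∣ y}` to
`{z' ∈ PB (C e^ρ) D : p ∣ x', x' ≤ C e^(-vρ) p}` (`p ≤ e^((v+1)ρ)`), `f (p x) = f p f x`, `ch_mul`. Summing over `v`
and `p` gives `∑_{z' ∈ PB (C e^ρ) D} f x' g y' mS x' ch z'`; the terms with `x' > C` are `A3S`, the others have
`mS x' = om1 x'` (`mS_eq`). -/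
theorem stage_idS (f g : ℕ → ℂ) (hf : CMN f) (N : ℕ) (P Q ρ C D : ℝ) (k : ℤ) (hP : 1 ≤ P) (hPQ : P ≤ Q)
    (hρ : 0 < ρ) (hC : 0 ≤ C) :
    UZs f g N P Q ρ C D k = ∑ z ∈ Spl.PB C D, f z.1 * g z.2 * (om1 P Q z.1 : ℂ) * ch ((k : ℝ) / N) z +
      A2S f g N P Q ρ C D k + A3S f g N P Q ρ C D k := by
  classical
  set t : ℝ := (k : ℝ) / N with ht
  -- the double sum without the non primitive terms
  have h1 : UZs f g N P Q ρ C D k = A2S f g N P Q ρ C D k + ∑ v ∈ Finset.range (nv Q ρ), ∑ p ∈ bk P Q ρ v,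
      ∑ z ∈ (Spl.PB (C * Real.exp ρ) D).filter (fun z => p ∣ z.1 ∧
        (z.1 : ℝ) ≤ C * Real.exp (-(v * ρ)) * p), f z.1 * g z.2 * ch t z := by
    unfold UZs A2S
    rw [← Finset.sum_add_distrib]
    refine Finset.sum_congr rfl fun v _ => ?_
    unfold Up
    rw [Finset.sum_mul, ← Finset.sum_add_distrib]
    refine Finset.sum_congr rfl fun p hp => ?_
    have hYY : C * Real.exp (-(v * ρ)) * p ≤ C * Real.exp ρ := by
      have h2 := (mem_bk.mp hp).2.2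
      calc C * Real.exp (-(v * ρ)) * p ≤ C * Real.exp (-(v * ρ)) * Real.exp ((v + 1) * ρ) := by
            gcongr
        _ = C * Real.exp ρ := by
            rw [mul_assoc, ← Real.exp_add]
            congr 2
            ring
    rw [← sub_sumS f g hf (bk_prime hp) _ _ D t hYY, Ps, ← Finset.sum_filter_add_sum_filter_not _
      (fun z => p ∣ z.2), mul_add, ← ht]
    congr 1
    rw [Finset.mul_sum]
  have h2 : ∑ v ∈ Finset.range (nv Q ρ), ∑ p ∈ bk P Q ρ v,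
      ∑ z ∈ (Spl.PB (C * Real.exp ρ) D).filter (fun z => p ∣ z.1 ∧
        (z.1 : ℝ) ≤ C * Real.exp (-(v * ρ)) * p), f z.1 * g z.2 * ch t z =
      ∑ z ∈ Spl.PB (C * Real.exp ρ) D, f z.1 * g z.2 * (mS P Q ρ C z.1 : ℂ) * ch t z := by
    have e1 : ∀ v : ℕ, ∑ p ∈ bk P Q ρ v,
        ∑ z ∈ (Spl.PB (C * Real.exp ρ) D).filter (fun z => p ∣ z.1 ∧
          (z.1 : ℝ) ≤ C * Real.exp (-(v * ρ)) * p), f z.1 * g z.2 * ch t z =
        ∑ z ∈ Spl.PB (C * Real.exp ρ) D, (((bk P Q ρ v).filter (fun p => p ∣ z.1 ∧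
          (z.1 : ℝ) ≤ C * Real.exp (-(v * ρ)) * p)).card : ℂ) * (f z.1 * g z.2 * ch t z) := by
      intro v
      simp only [Finset.sum_filter]
      rw [Finset.sum_comm]
      refine Finset.sum_congr rfl fun z _ => ?_
      rw [← Finset.sum_filter, Finset.sum_const, nsmul_eq_mul]
    simp only [e1]
    rw [Finset.sum_comm]
    refine Finset.sum_congr rfl fun z _ => ?_
    rw [← Finset.sum_mul, mS]
    push_cast
    ring
  have hsub : Spl.PB C D ⊆ Spl.PB (C * Real.exp ρ) D := by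
    intro z hz
    rw [Spl.mem_PB] at hz ⊢
    refine ⟨⟨hz.1.1, hz.1.2.trans ?_⟩, hz.2⟩
    have : 1 ≤ Real.exp ρ := Real.one_le_exp hρ.le
    nlinarith
  have h3 : ∑ z ∈ Spl.PB C D, f z.1 * g z.2 * (om1 P Q z.1 : ℂ) * ch t z =
      ∑ z ∈ Spl.PB C D, f z.1 * g z.2 * (mS P Q ρ C z.1 : ℂ) * ch t z := by
    refine Finset.sum_congr rfl fun z hz => ?_
    have e2 := mS_eq P Q ρ C hP hρ hC z.1 (Spl.mem_PB.mp hz).1.2
    rw [← e2]
    push_cast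
    ring
  rw [h1, h2, ← Finset.sum_sdiff hsub, h3, A3S]
  ring

end Pool.Agent.SplM
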